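import Mathlib
import Pool.Agent.SUB.Defs

/-!
QAA = MP_f992e4_an: quasi-polynomial Aaronson-Ambainis bound, definitions.

Overview: /team-store/qaa_blueprint.md. The cube, `ex`, `coef`, `DegLE` are in `Helper11`; `Bdd`,
`cut`, `hw`, `mix`, `bias`, `KL`, `phi`, `wt`, `avg`, `lap` are in `Pool.Agent.SUB.Defs`.
-/

set_option linter.dupNamespace false

namespace Pool.Agent.QAA

open Finset Pool.Agent.Helper11.Cube Pool.Agent.Helper11.AA Pool.Agent.SUB

variable {n : ℕ}

/-- The square of the derivative in the direction `w`. -/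
noncomputable def gs (f : Cube n → ℝ) (w : Fin n) (x : Cube n) : ℝ := discreteDeriv w f x ^ 2

/-- The influence `E (D_w f)^2`. -/
noncomputable def Iw (f : Cube n → ℝ) (w : Fin n) : ℝ := ex (gs f w)

/-- The bias of the coordinate `a` under the density `(D_w f)^2 / Iw f w`. -/
noncomputable def bw (f : Cube n → ℝ) (w a : Fin n) : ℝ := bias (gs f w) a

/-- The potential `∑_w Iw^(1+γ)`. -/
noncomputable def Fi (γ : ℝ) (f : Cube n → ℝ) : ℝ := ∑ w, Iw f w ^ (1 + γ)

/-- `e^u` times the average of the potential at the time `u` (density `1 - e^(-u)` fixed). -/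
noncomputable def Ps (γ u : ℝ) (f : Cube n → ℝ) : ℝ :=
  Real.exp u * avg (1 - Real.exp (-u)) (Fi γ) f

/-- The coordinates with bias at least `β`. -/
noncomputable def Cb (β : ℝ) (f : Cube n → ℝ) (w : Fin n) : Finset (Fin n) :=
  univ.filter (fun a => β ≤ |bw f w a|)

/-- The entropy carried by the coordinates with large bias. -/
noncomputable def yL (β : ℝ) (f : Cube n → ℝ) (w : Fin n) : ℝ := ∑ a ∈ Cb β f w, KL (bw f w a)

/-- The entropy carried by the coordinates with small bias. -/
noncomputable def yS (β : ℝ) (f : Cube n → ℝ) (w : Fin n) : ℝ :=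
  ∑ a ∈ univ.filter (fun a => |bw f w a| < β), KL (bw f w a)

/-- The expectation over the planting measure: `w ∈ W` with weight `Iw f w`, `x` with density
`(D_w f)^2`. -/
noncomputable def EP (f : Cube n → ℝ) (W : Finset (Fin n)) (G : Fin n → Cube n → ℝ) : ℝ :=
  (∑ w ∈ W, ex (fun x => gs f w x * G w x)) / ∑ w ∈ W, Iw f w

/-- Hypotheses of the planting lemma: the planted sets `C w`, `w ∈ W`, have at most `K` elements, no
coordinate lies in them with probability more than `π`, and `ξ` bounds the mean change of a bounded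
polynomial under a planting. -/
structure PH (d : ℕ) (f : Cube n → ℝ) (W : Finset (Fin n))
    (C : Fin n → Finset (Fin n)) (K π ξ : ℝ) (I : ℕ) : Prop where
  hd : 1 ≤ d
  hf : Bdd d f
  hm : 0 < ∑ w ∈ W, Iw f w
  hK0 : 0 ≤ K
  hπ0 : 0 ≤ π
  hK : ∀ w ∈ W, ((C w).card : ℝ) ≤ K
  hπ : ∀ a, ∑ w ∈ W.filter (fun w => a ∈ C w), Iw f w ≤ π * ∑ w ∈ W, Iw f w
  hξ : (1 / 2 : ℝ) ^ I + 8 * (I + 1) * (d : ℝ) ^ 2 * K * π ≤ ξ

/-- Probability (in the smoothed sense of `hw`) that the planted coordinate is pivotal after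
planting into `v`. -/
noncomputable def RP (η : ℝ) (p : ℕ) (f : Cube n → ℝ) (W : Finset (Fin n))
    (C : Fin n → Finset (Fin n)) (v : Cube n) : ℝ :=
  EP f W (fun w x => hw η p f w (mix (C w) x v))

end Pool.Agent.QAA
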