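import Mathlib
import Pool.Agent.SUB.KLReal

/-!
QAA module KLL: `KL b ≥ b^2/2` for `|b| ≤ 1`.

Even in `b`, so let `0 ≤ b ≤ 1`. `G(b) = KL b - b^2/2` on `[0,1)`: `G(0) = 0`,
`G'(b) = (log(1+b) - log(1-b))/2 - b`, `G'(0) = 0`, `G''(b) = 1/(1-b^2) - 1 ≥ 0`. For `b = 1` use
continuity (`Real.continuous_mul_log`) or `KL 1 = log 2 ≥ 1/2`. (The same pattern as `phi_le` in
`Pool/Agent/SUB/KLReal.lean`.)
-/

set_option linter.dupNamespace false

namespace Pool.Agent.QAA

open Finset Pool.Agent.SUB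

private lemma two_mul_le_log {b : ℝ} (h0 : 0 ≤ b) (h1 : b < 1) :
    2 * b ≤ Real.log (1 + b) - Real.log (1 - b) := by
  have hs := Real.hasSum_log_sub_log_of_abs_lt_one (x := b) (by rw [abs_of_nonneg h0]; exact h1)
  have := hs.summable.sum_le_tsum (s := {0}) (fun k _ => by positivity)
  rw [hs.tsum_eq] at this
  simpa using this

private lemma KL_ge_nonneg {b : ℝ} (h0 : 0 ≤ b) (h1 : b ≤ 1) : b ^ 2 / 2 ≤ KL b := by
  have hcont : Continuous (fun b : ℝ => KL b - b ^ 2 / 2) := by
    have h2 := Real.continuous_mul_log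
    have h3 : Continuous (fun b : ℝ => (1 + b) * Real.log (1 + b)) :=
      h2.comp (continuous_const.add continuous_id)
    have h4 : Continuous (fun b : ℝ => (1 - b) * Real.log (1 - b)) :=
      h2.comp (continuous_const.sub continuous_id)
    unfold KL
    fun_prop
  have hder : ∀ x ∈ interior (Set.Icc (0 : ℝ) 1), HasDerivAt (fun b : ℝ => KL b - b ^ 2 / 2)
      ((Real.log (1 + x) - Real.log (1 - x)) / 2 - x) x := by
    intro x hx
    rw [interior_Icc] at hx
    have ha : (1 : ℝ) + x ≠ 0 := by linarith [hx.1]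
    have hb : (1 : ℝ) - x ≠ 0 := by linarith [hx.2]
    have h2 : HasDerivAt (fun b : ℝ => 1 + b) 1 x := by
      simpa using (hasDerivAt_id x).const_add 1
    have h3 : HasDerivAt (fun b : ℝ => 1 - b) (-1) x := by
      simpa using (hasDerivAt_id x).const_sub 1
    have h4 := h2.mul (h2.log ha)
    have h5 := h3.mul (h3.log hb)
    have h6 := ((h4.add h5).div_const 2).sub (((hasDerivAt_id x).pow 2).div_const 2)
    have h7 : HasDerivAt (fun b : ℝ => KL b - b ^ 2 / 2)
        ((1 * Real.log (1 + x) + (1 + x) * (1 / (1 + x)) +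
          (-1 * Real.log (1 - x) + (1 - x) * (-1 / (1 - x)))) / 2 -
          ((2 : ℕ) : ℝ) * x ^ (2 - 1) * 1 / 2) x := by
      unfold KL
      exact h6
    convert h7 using 1
    field_simp
    ring
  have hmono : MonotoneOn (fun b : ℝ => KL b - b ^ 2 / 2) (Set.Icc 0 1) := by
    refine monotoneOn_of_deriv_nonneg (convex_Icc 0 1) hcont.continuousOn
      (fun x hx => (hder x hx).differentiableAt.differentiableWithinAt) ?_
    intro x hx
    rw [(hder x hx).deriv]
    rw [interior_Icc] at hx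
    have := two_mul_le_log hx.1.le hx.2
    linarith
  have h := hmono (Set.left_mem_Icc.2 zero_le_one) (Set.mem_Icc.2 ⟨h0, h1⟩) h0
  simp only at h
  rw [KL_zero] at h
  linarith

lemma KL_ge {b : ℝ} (hb : |b| ≤ 1) : b ^ 2 / 2 ≤ KL b := by
  have h := KL_ge_nonneg (abs_nonneg b) hb
  rw [sq_abs] at h
  rcases abs_choice b with hc | hc
  · rwa [hc] at h
  · rw [hc] at h
    have : KL (-b) = KL b := by
      unfold KL
      have e1 : (1 : ℝ) + -b = 1 - b := by ring
      have e2 : (1 : ℝ) - -b = 1 + b := by ring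
      rw [e1, e2]
      ring
    rwa [this] at h

end Pool.Agent.QAA
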