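import Mathlib
import Pool.Agent.QAA.Defs
import Pool.Agent.QAA.KLlow
import Pool.Agent.SUB.Drv
import Pool.Agent.SUB.Ex
import Pool.Agent.SUB.Hw
import Pool.Agent.SUB.Ent
import Pool.Agent.Helper11.Degree

/-!
QAA module INF: elementary facts on the influences `Iw f w = ex (D_w f)^2` and the biases.

Proofs (everything is short; `SUB.Drv`, `SUB.Ex`, `SUB.Hw`, `SUB.Ent`, `Helper11.AADefs` have the
tools; copy from `Pool/Agent/SUB/Hw.lean`, `LapF.lean`).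
* `gs_le_abs`: `|D_w f| ≤ 1` by `bdd_deriv`; `t^2 ≤ |t|`.
* `sum_gs_le`: `sum_abs_deriv`. `sum_Iw_le`: expectation of it, `Iw ≥ 0`.
* `Iw_le_max`: `derivNorm_sq`, `derivNorm_le`, `maxDerivNorm_nonneg`.
* `abs_bw_le`: `abs_bias_le`. `bw_self`: `D_w f` does not depend on `x_w` (as `bias_hw_self`).
* `degLE_gs`: `degLE_pow` (with `m = 2`) and `bdd_deriv`.
* `bw_mul`: if `Iw = 0` then `gs = 0` everywhere (`eq_zero_of_ex_eq_zero` in `SUB.LapF`; or redo).
* `yL_add_yS`: `Finset.sum_filter_add_sum_filter_not`, `¬ β ≤ b ↔ b < β`. Nonnegativity: `KL_nonneg`.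
* `sum_KL_bw_le`: `sum_KL_le` for `h = gs f w`.
* `card_Cb_le`: `card (Cb) * β^2/2 ≤ ∑_{a ∈ Cb} b_a^2/2 ≤ ∑_{a∈Cb} KL b_a = yL ≤ -log Iw` (`KL_ge`).
* `Fi_le`: `Iw^(1+γ) = Iw * Iw^γ ≤ Iw * (M^2)^γ` (also for `Iw = 0`: `0^(1+γ) = 0`), `sum_Iw_le`.
* `rpow_term_le`: for `P = Iw f w ∈ (0,1]`, `L = -log P`: `P^(1+γ) = P exp(-γ L)` and
  `γ L exp(-γ L) ≤ exp(-γ L/2)` since `x ≤ exp(x/2)` for `x ≥ 0`.
-/

set_option linter.dupNamespace false

namespace Pool.Agent.QAA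

open Finset Pool.Agent.Helper11.Cube Pool.Agent.Helper11.AA Pool.Agent.SUB

variable {n d : ℕ}

lemma gs_nonneg (f : Cube n → ℝ) (w : Fin n) (x : Cube n) : 0 ≤ gs f w x := sq_nonneg _

lemma gs_le_abs {f : Cube n → ℝ} (hf : Bdd d f) (w : Fin n) (x : Cube n) :
    gs f w x ≤ |discreteDeriv w f x| := by
  have h := (bdd_deriv hf w).2 x
  unfold gs
  rw [← sq_abs]
  nlinarith [abs_nonneg (discreteDeriv w f x)]

lemma gs_le_one {f : Cube n → ℝ} (hf : Bdd d f) (w : Fin n) (x : Cube n) : gs f w x ≤ 1 :=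
  (gs_le_abs hf w x).trans ((bdd_deriv hf w).2 x)

lemma sum_gs_le {f : Cube n → ℝ} (hf : Bdd d f) (x : Cube n) :
    ∑ w, gs f w x ≤ 2 * (d : ℝ) ^ 2 :=
  (Finset.sum_le_sum (fun w _ => gs_le_abs hf w x)).trans (sum_abs_deriv hf x)

lemma Iw_nonneg (f : Cube n → ℝ) (w : Fin n) : 0 ≤ Iw f w :=
  ex_nonneg (fun x => gs_nonneg f w x)

lemma Iw_le_one {f : Cube n → ℝ} (hf : Bdd d f) (w : Fin n) : Iw f w ≤ 1 := by
  have h := ex_mono (fun x => gs_le_one hf w x)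
  rw [ex_const] at h
  exact h

lemma sum_Iw_le {f : Cube n → ℝ} (hf : Bdd d f) (W : Finset (Fin n)) :
    ∑ w ∈ W, Iw f w ≤ 2 * (d : ℝ) ^ 2 := by
  have h1 : ∑ w ∈ W, Iw f w ≤ ∑ w, Iw f w :=
    Finset.sum_le_sum_of_subset_of_nonneg (Finset.subset_univ W) (fun w _ _ => Iw_nonneg f w)
  have h2 : ∑ w, Iw f w = ex (fun x => ∑ w, gs f w x) := by
    unfold Iw
    rw [← ex_sum]
  have h3 : ex (fun x => ∑ w, gs f w x) ≤ ex (fun _ => 2 * (d : ℝ) ^ 2) :=
    ex_mono (fun x => sum_gs_le hf x)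
  rw [ex_const] at h3
  linarith

lemma Iw_eq (f : Cube n → ℝ) (w : Fin n) : Iw f w = derivNorm w f ^ 2 := by
  rw [derivNorm_sq]
  rfl

lemma Iw_le_max (f : Cube n → ℝ) (w : Fin n) : Iw f w ≤ maxDerivNorm f ^ 2 := by
  rw [Iw_eq]
  exact pow_le_pow_left₀ (derivNorm_nonneg f w) (derivNorm_le f w) 2

lemma abs_bw_le (f : Cube n → ℝ) (w a : Fin n) : |bw f w a| ≤ 1 :=
  abs_bias_le (fun x => gs_nonneg f w x) a

lemma bw_self (f : Cube n → ℝ) (w : Fin n) : bw f w w = 0 := by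
  unfold bw bias
  have h1 : ex (fun x => ((x w : ℤ) : ℝ) * gs f w x) = 0 := by
    have h2 := ex_flipOn {w} (fun x => ((x w : ℤ) : ℝ) * gs f w x)
    have h3 : (fun x : Cube n => ((flipOn {w} x w : ℤ) : ℝ) * gs f w (flipOn {w} x))
        = fun x => (-1) * (((x w : ℤ) : ℝ) * gs f w x) := by
      funext x
      have h4 : gs f w (flipOn {w} x) = gs f w x := by
        unfold gs
        have h5 : flipOn {w} x = Function.update x w (flipOn {w} x w) := by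
          funext i
          by_cases h : i = w
          · subst h; simp
          · rw [Function.update_of_ne h]
            simp [flipOn, h]
        rw [h5, deriv_update_self]
      rw [h4]
      have h6 : flipOn {w} x w = - x w := by simp [flipOn]
      rw [h6]
      push_cast
      ring
    rw [h3, ex_mul_left'] at h2
    linarith
  rw [h1, zero_div]

lemma degLE_gs {f : Cube n → ℝ} (hf : Bdd d f) (w : Fin n) : DegLE (gs f w) (2 * d) :=
  degLE_pow (bdd_deriv hf w).1 2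

lemma gs_eq_zero {f : Cube n → ℝ} {w : Fin n} (h : Iw f w = 0) (x : Cube n) : gs f w x = 0 := by
  unfold Iw ex at h
  rw [div_eq_zero_iff] at h
  rcases h with h | h
  · exact (Finset.sum_eq_zero_iff_of_nonneg (fun x _ => gs_nonneg f w x)).1 h x
      (Finset.mem_univ x)
  · exact absurd h (by positivity)

lemma bw_mul (f : Cube n → ℝ) (w a : Fin n) :
    bw f w a * Iw f w = ex (fun x => ((x a : ℤ) : ℝ) * gs f w x) := by
  by_cases h : Iw f w = 0
  · rw [h, mul_zero]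
    have h1 : (fun x : Cube n => ((x a : ℤ) : ℝ) * gs f w x) = fun _ => (0 : ℝ) := by
      funext x
      rw [gs_eq_zero h x, mul_zero]
    rw [h1, ex_const]
  · unfold bw bias
    exact div_mul_cancel₀ _ h

lemma yL_add_yS (β : ℝ) (f : Cube n → ℝ) (w : Fin n) :
    yL β f w + yS β f w = ∑ a, KL (bw f w a) := by
  unfold yL yS Cb
  rw [← Finset.sum_filter_add_sum_filter_not univ (fun a => β ≤ |bw f w a|)
    (fun a => KL (bw f w a))]
  simp only [not_le]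

lemma yL_nonneg (β : ℝ) (f : Cube n → ℝ) (w : Fin n) : 0 ≤ yL β f w :=
  Finset.sum_nonneg (fun a _ => KL_nonneg (abs_bw_le f w a))

lemma yS_nonneg (β : ℝ) (f : Cube n → ℝ) (w : Fin n) : 0 ≤ yS β f w :=
  Finset.sum_nonneg (fun a _ => KL_nonneg (abs_bw_le f w a))

lemma sum_KL_bw_le {f : Cube n → ℝ} (hf : Bdd d f) (w : Fin n) (h : 0 < Iw f w) :
    ∑ a, KL (bw f w a) ≤ - Real.log (Iw f w) :=
  sum_KL_le (fun x => gs_nonneg f w x) (fun x => gs_le_one hf w x) h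

lemma yL_le {f : Cube n → ℝ} (hf : Bdd d f) (β : ℝ) (w : Fin n) (h : 0 < Iw f w) :
    yL β f w ≤ - Real.log (Iw f w) := by
  have h1 := yL_add_yS β f w
  have h2 := yS_nonneg β f w
  have h3 := sum_KL_bw_le hf w h
  linarith

lemma yS_le {f : Cube n → ℝ} (hf : Bdd d f) (β : ℝ) (w : Fin n) (h : 0 < Iw f w) :
    yS β f w ≤ - Real.log (Iw f w) := by
  have h1 := yL_add_yS β f w
  have h2 := yL_nonneg β f w
  have h3 := sum_KL_bw_le hf w h
  linarith

lemma card_Cb_le {f : Cube n → ℝ} (hf : Bdd d f) {β : ℝ} (hβ : 0 < β) (w : Fin n)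
    (h : 0 < Iw f w) : ((Cb β f w).card : ℝ) ≤ 2 * (- Real.log (Iw f w)) / β ^ 2 := by
  have h1 : ∑ _a ∈ Cb β f w, β ^ 2 / 2 ≤ yL β f w := by
    unfold yL
    apply Finset.sum_le_sum
    intro a ha
    have h2 : β ≤ |bw f w a| := (Finset.mem_filter.1 ha).2
    have h3 : β ^ 2 ≤ (bw f w a) ^ 2 := by
      rw [← sq_abs (bw f w a)]
      exact pow_le_pow_left₀ hβ.le h2 2
    have h4 := KL_ge (abs_bw_le f w a)
    linarith
  rw [Finset.sum_const, nsmul_eq_mul] at h1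
  have h5 := yL_le hf β w h
  rw [le_div_iff₀ (by positivity)]
  linarith

lemma Fi_nonneg (γ : ℝ) (f : Cube n → ℝ) : 0 ≤ Fi γ f :=
  Finset.sum_nonneg (fun w _ => Real.rpow_nonneg (Iw_nonneg f w) _)

lemma Fi_le {f : Cube n → ℝ} (hf : Bdd d f) {γ : ℝ} (hγ : 0 ≤ γ) :
    Fi γ f ≤ 2 * (d : ℝ) ^ 2 * (maxDerivNorm f ^ 2) ^ γ := by
  have h1 : ∀ w, Iw f w ^ (1 + γ) ≤ Iw f w * (maxDerivNorm f ^ 2) ^ γ := by
    intro w
    rcases (Iw_nonneg f w).eq_or_lt with h | h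
    · rw [← h, zero_mul, Real.zero_rpow (by linarith)]
    · rw [Real.rpow_add h, Real.rpow_one]
      exact mul_le_mul_of_nonneg_left
        (Real.rpow_le_rpow h.le (Iw_le_max f w) hγ) h.le
  calc Fi γ f ≤ ∑ w, Iw f w * (maxDerivNorm f ^ 2) ^ γ :=
        Finset.sum_le_sum (fun w _ => h1 w)
    _ = (∑ w, Iw f w) * (maxDerivNorm f ^ 2) ^ γ := by rw [Finset.sum_mul]
    _ ≤ 2 * (d : ℝ) ^ 2 * (maxDerivNorm f ^ 2) ^ γ :=
        mul_le_mul_of_nonneg_right (sum_Iw_le hf univ)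
          (Real.rpow_nonneg (sq_nonneg _) _)

lemma rpow_term_le {f : Cube n → ℝ} (w : Fin n) (h : 0 < Iw f w) {γ : ℝ} (hγ : 0 ≤ γ)
    (hL : 0 ≤ - Real.log (Iw f w)) :
    Iw f w ^ (1 + γ) * (γ * (- Real.log (Iw f w)))
      ≤ Iw f w * Real.exp (-(γ * (- Real.log (Iw f w)) / 2)) := by
  set P := Iw f w with hP
  set L := - Real.log P with hLdef
  have h1 : P ^ (1 + γ) = P * Real.exp (-(γ * L)) := by
    rw [Real.rpow_add h, Real.rpow_one, Real.rpow_def_of_pos h]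
    congr 2
    rw [hLdef]
    ring
  rw [h1]
  have h2 : γ * L ≤ Real.exp (γ * L / 2) := by
    have h3 := Real.add_one_le_exp (γ * L / 4)
    have h0 : 0 ≤ γ * L := mul_nonneg hγ hL
    have h4 : (γ * L / 4 + 1) ^ 2 ≤ Real.exp (γ * L / 4) ^ 2 :=
      pow_le_pow_left₀ (by linarith) h3 2
    have h5 : Real.exp (γ * L / 4) ^ 2 = Real.exp (γ * L / 2) := by
      rw [← Real.exp_nat_mul]
      congr 1
      push_cast
      ring
    rw [h5] at h4
    nlinarith [sq_nonneg (γ * L / 4 - 1)]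
  have h6 : Real.exp (-(γ * L)) * Real.exp (γ * L / 2) = Real.exp (-(γ * L / 2)) := by
    rw [← Real.exp_add]
    congr 1
    ring
  calc P * Real.exp (-(γ * L)) * (γ * L)
      ≤ P * Real.exp (-(γ * L)) * Real.exp (γ * L / 2) :=
        mul_le_mul_of_nonneg_left h2 (mul_nonneg h.le (Real.exp_pos _).le)
    _ = P * (Real.exp (-(γ * L)) * Real.exp (γ * L / 2)) := by ring
    _ = P * Real.exp (-(γ * L / 2)) := by rw [h6]

end Pool.Agent.QAA
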