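import Mathlib
import Pool.Agent.QAA.Inf
import Pool.Agent.SUB.AvgTime

/-!
QAA module LAP: the generator applied to `F = ∑_w Iw^(1+γ)` and the time derivative of `Ps`.

`Iw_restr_self`: `D_a (f|_{x_a=u}) = 0` (`deriv_restr_self`).
`Iw_restr` (`w ≠ a`): `gs (f|_{x_a=u}) w x = gs f w (update x a u)` (`deriv_restr`), and
`ex (h (update x a u)) = ex ((1 + u x_a) h) = I (1 + u b)` (`ex_update_one`, `bw_mul`).
`lap_Fi`: the `(a,w)` term with `w ≠ a` is `I^(1+γ) (((1+b)^(1+γ) + (1-b)^(1+γ))/2 - 1)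
= I^(1+γ) phi γ b` (`Real.mul_rpow`), the `(a,a)` term is `0 - I_a^(1+γ)` while
`phi γ (bw f a a) = phi γ 0 = 0` (`bw_self`, `phi_zero`). (Compare `Pool/Agent/SUB/LapF.lean`.)
`hasDerivAt_Ps`: product rule for `exp t * avg (1 - exp (-t)) (Fi γ) f`; `hasDerivAt_avg_time` with
`F t = Fi γ` (constant in `t`), `F' = 0`; `Fi + lap Fi = ∑_w Iw^(1+γ) ∑_a phi γ (bw)`.
-/

set_option linter.dupNamespace false

namespace Pool.Agent.QAA

open Finset Pool.Agent.Helper11.Cube Pool.Agent.Helper11.AA Pool.Agent.SUB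

variable {n d : ℕ}

lemma Iw_restr_self (f : Cube n → ℝ) (a : Fin n) (u : ℤˣ) :
    Iw (fun x => f (Function.update x a u)) a = 0 := by
  have h1 : gs (fun x => f (Function.update x a u)) a = fun _ => (0 : ℝ) := by
    funext x
    unfold gs
    rw [deriv_restr_self]
    ring
  unfold Iw
  rw [h1, ex_const']

lemma Iw_restr (f : Cube n → ℝ) {a w : Fin n} (h : w ≠ a) (u : ℤˣ) :
    Iw (fun x => f (Function.update x a u)) w = Iw f w * (1 + ((u : ℤ) : ℝ) * bw f w a) := by
  have h1 : gs (fun x => f (Function.update x a u)) w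
      = fun x => gs f w (Function.update x a u) := by
    funext x
    unfold gs
    rw [deriv_restr h]
  have h2 : Iw (fun x => f (Function.update x a u)) w
      = Iw f w + ((u : ℤ) : ℝ) * ex (fun x => ((x a : ℤ) : ℝ) * gs f w x) := by
    unfold Iw
    rw [h1, ex_update_one, ← ex_mul_left', ← ex_add']
    congr 1
    funext x
    ring
  rw [h2, ← bw_mul]
  ring

theorem lap_Fi {γ : ℝ} (hγ : 0 ≤ γ) (f : Cube n → ℝ) :
    lap (Fi γ) f = (∑ w, Iw f w ^ (1 + γ) * ∑ a, phi γ (bw f w a)) - Fi γ f := by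
  have hγ1 : 1 + γ ≠ 0 := by linarith
  have key : ∀ a w : Fin n,
      (Iw (fun x => f (Function.update x a 1)) w ^ (1 + γ)
        + Iw (fun x => f (Function.update x a (-1))) w ^ (1 + γ)) / 2
        - Iw f w ^ (1 + γ)
      = Iw f w ^ (1 + γ) * phi γ (bw f w a) - if w = a then Iw f w ^ (1 + γ) else 0 := by
    intro a w
    by_cases h : w = a
    · subst h
      rw [Iw_restr_self, Iw_restr_self, Real.zero_rpow hγ1, bw_self, phi_zero, if_pos rfl]
      ring
    · rw [Iw_restr f h, Iw_restr f h, if_neg h]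
      have hb := abs_le.1 (abs_bw_le f w a)
      have hP := Iw_nonneg f w
      rw [Real.mul_rpow hP (by push_cast; linarith), Real.mul_rpow hP (by push_cast; linarith)]
      unfold phi
      push_cast
      rw [show (1 : ℝ) + 1 * bw f w a = 1 + bw f w a by ring,
        show (1 : ℝ) + -1 * bw f w a = 1 - bw f w a by ring]
      ring
  unfold lap Fi
  have h1 : ∀ a : Fin n,
      ((∑ w, Iw (fun x => f (Function.update x a 1)) w ^ (1 + γ))
        + ∑ w, Iw (fun x => f (Function.update x a (-1))) w ^ (1 + γ)) / 2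
        - ∑ w, Iw f w ^ (1 + γ)
      = ∑ w, (Iw f w ^ (1 + γ) * phi γ (bw f w a)
        - if w = a then Iw f w ^ (1 + γ) else 0) := by
    intro a
    rw [← Finset.sum_congr rfl (fun w _ => key a w), Finset.sum_sub_distrib, ← Finset.sum_div,
      Finset.sum_add_distrib]
  rw [Finset.sum_congr rfl (fun a _ => h1 a)]
  rw [Finset.sum_comm]
  simp only [Finset.sum_sub_distrib, Finset.mul_sum]
  simp

theorem hasDerivAt_Ps {γ : ℝ} (hγ : 0 ≤ γ) (f : Cube n → ℝ) (u : ℝ) :
    HasDerivAt (fun t => Ps γ t f)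
      (Real.exp u * avg (1 - Real.exp (-u))
        (fun g => ∑ w, Iw g w ^ (1 + γ) * ∑ a, phi γ (bw g w a)) f) u := by
  have h1 := hasDerivAt_avg_time (F := fun _ => Fi γ) (F' := fun _ => (0 : ℝ)) (u := u) f
    (fun S y => hasDerivAt_const u _)
  have h2 := (Real.hasDerivAt_exp u).mul h1
  have h3 : Real.exp u * avg (1 - Real.exp (-u)) (Fi γ) f +
      Real.exp u * avg (1 - Real.exp (-u)) (fun g => lap (Fi γ) g + 0) f =
      Real.exp u * avg (1 - Real.exp (-u))
        (fun g => ∑ w, Iw g w ^ (1 + γ) * ∑ a, phi γ (bw g w a)) f := by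
    rw [← mul_add, ← avg_add]
    congr 2
    funext g
    rw [lap_Fi hγ]
    ring
  rw [h3] at h2
  exact h2

end Pool.Agent.QAA
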