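import Mathlib
import Pool.Agent.QAA.Inf

/-!
QAA module POP: a coordinate which biases many pivots is influential.

`bw_sq_le`: write `g = D_w f`. `bw * Iw = ex (x_a g^2) = ex (D_a (g^2))` (`bw_mul`, `ex_sg_mul`) and
`D_a (g^2) x = (g(x^+)^2 - g(x^-)^2)/2 = 2 (D_a g x) (A_a g x)`, `A_a g x = (g(x^+) + g(x^-))/2`,
`x^± = update x a (±1)`. Cauchy-Schwarz for `ex` (`ex (F H)^2 ≤ ex (F^2) ex (H^2)`, e.g. from
`Finset.sum_mul_sq_le_sq_mul_sq`): `(bw * Iw)^2 ≤ 4 ex ((D_a g)^2) ex ((A_a g)^2)` and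
`(A_a g x)^2 ≤ (g(x^+)^2 + g(x^-)^2)/2`, so `ex ((A_a g)^2) ≤ ex (g^2) = Iw` (`ex_update`). Divide by
`Iw` (if `Iw = 0` the claim is trivial).

`sum_ex_deriv_sq_le`: `ex ((D_w g)^2) = ∑_{S ∋ w} coef g S ^2` (`ex_deriv_sq` in
`Helper11.AADefs`), sum over `w`: `∑_S |S| coef g S^2 ≤ d ∑_S coef g S^2 = d ex (g^2)` (`parseval`,
`coef g S = 0` for `|S| > d`).

`pop`: for `a ∈ Cb β f w`: `β^2 Iw f w ≤ bw^2 Iw ≤ 4 ex ((D_a D_w f)^2) = 4 ex ((D_w (D_a f))^2)`
(`deriv_comm`). Sum over `w`, `sum_ex_deriv_sq_le` for `g = D_a f` (`bdd_deriv`).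
-/

set_option linter.dupNamespace false

namespace Pool.Agent.QAA

open Finset Pool.Agent.Helper11.Cube Pool.Agent.Helper11.AA Pool.Agent.SUB

variable {n d : ℕ}

private lemma cs_ex (f g : Cube n → ℝ) :
    ex (fun x => f x * g x) ^ 2 ≤ ex (fun x => f x ^ 2) * ex (fun x => g x ^ 2) := by
  unfold ex
  have h := Finset.sum_mul_sq_le_sq_mul_sq (Finset.univ : Finset (Cube n)) f g
  rw [div_pow, div_mul_div_comm, ← sq ((2 : ℝ) ^ n)]
  exact div_le_div_of_nonneg_right h (by positivity)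

lemma bw_sq_le (f : Cube n → ℝ) (w a : Fin n) :
    bw f w a ^ 2 * Iw f w ≤ 4 * ex (fun x => discreteDeriv a (discreteDeriv w f) x ^ 2) := by
  obtain ⟨g, hg⟩ : ∃ g : Cube n → ℝ, g = discreteDeriv w f := ⟨_, rfl⟩
  have hgs : gs f w = fun x => g x ^ 2 := by
    funext x
    rw [hg]
    rfl
  rw [← hg]
  have hI : Iw f w = ex (fun x => g x ^ 2) := by
    unfold Iw
    rw [hgs]
  have h1 : bw f w a * Iw f w = ex (fun x => discreteDeriv a g x *
      (g (Function.update x a 1) + g (Function.update x a (-1)))) := by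
    rw [bw_mul, ex_sg_mul]
    congr 1
    funext x
    unfold discreteDeriv gs
    rw [hg]
    ring
  have h2 := cs_ex (discreteDeriv a g)
    (fun x => g (Function.update x a 1) + g (Function.update x a (-1)))
  rw [← h1] at h2
  have h3 : ex (fun x => (g (Function.update x a 1) + g (Function.update x a (-1))) ^ 2) ≤
      4 * Iw f w := by
    rw [hI, ← ex_update a (fun x => g x ^ 2), ← ex_const_mul]
    apply ex_mono
    intro x
    nlinarith [sq_nonneg (g (Function.update x a 1) - g (Function.update x a (-1)))]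
  have h4 : 0 ≤ ex (fun x => discreteDeriv a g x ^ 2) := ex_nonneg fun x => sq_nonneg _
  have h5 : (bw f w a * Iw f w) ^ 2 ≤ ex (fun x => discreteDeriv a g x ^ 2) * (4 * Iw f w) :=
    h2.trans (mul_le_mul_of_nonneg_left h3 h4)
  rcases (Iw_nonneg f w).eq_or_lt with h0 | h0
  · rw [← h0, mul_zero]
    positivity
  · have h6 : Iw f w * (bw f w a ^ 2 * Iw f w) ≤
        Iw f w * (4 * ex (fun x => discreteDeriv a g x ^ 2)) := by
      calc Iw f w * (bw f w a ^ 2 * Iw f w) = (bw f w a * Iw f w) ^ 2 := by ring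
        _ ≤ ex (fun x => discreteDeriv a g x ^ 2) * (4 * Iw f w) := h5
        _ = Iw f w * (4 * ex (fun x => discreteDeriv a g x ^ 2)) := by ring
    exact le_of_mul_le_mul_left h6 h0

lemma sum_ex_deriv_sq_le {g : Cube n → ℝ} (hg : DegLE g d) :
    ∑ w, ex (fun x => discreteDeriv w g x ^ 2) ≤ (d : ℝ) * ex (fun x => g x ^ 2) := by
  simp_rw [ex_deriv_sq, Finset.sum_filter]
  rw [Finset.sum_comm, parseval, Finset.mul_sum]
  apply Finset.sum_le_sum
  intro S _
  rw [← Finset.sum_filter, Finset.sum_const, nsmul_eq_mul]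
  have h1 : (univ.filter (fun w => w ∈ S)).card = S.card := by
    congr 1
    ext w
    simp
  rw [h1]
  rcases Nat.lt_or_ge d S.card with h | h
  · rw [hg S h]
    simp
  · exact mul_le_mul_of_nonneg_right (by exact_mod_cast h) (sq_nonneg _)

theorem pop {f : Cube n → ℝ} (hf : Bdd d f) {β : ℝ} (hβ : 0 < β) (W : Finset (Fin n))
    (a : Fin n) :
    ∑ w ∈ W.filter (fun w => a ∈ Cb β f w), Iw f w ≤ 4 * (d : ℝ) / β ^ 2 * Iw f a := by
  have hβ2 : 0 < β ^ 2 := by positivity
  have h1 : β ^ 2 * ∑ w ∈ W.filter (fun w => a ∈ Cb β f w), Iw f w ≤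
      4 * ((d : ℝ) * Iw f a) := by
    calc β ^ 2 * ∑ w ∈ W.filter (fun w => a ∈ Cb β f w), Iw f w
        = ∑ w ∈ W.filter (fun w => a ∈ Cb β f w), β ^ 2 * Iw f w := Finset.mul_sum _ _ _
      _ ≤ ∑ w ∈ W.filter (fun w => a ∈ Cb β f w),
            4 * ex (fun x => discreteDeriv w (discreteDeriv a f) x ^ 2) := by
          apply Finset.sum_le_sum
          intro w hw
          have h2 := (Finset.mem_filter.1 hw).2
          unfold Cb at h2
          have h3 := (Finset.mem_filter.1 h2).2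
          have h4 : β ^ 2 ≤ bw f w a ^ 2 := by
            rw [← sq_abs (bw f w a)]
            exact pow_le_pow_left₀ hβ.le h3 2
          have h5 := bw_sq_le f w a
          have h6 : (fun x => discreteDeriv a (discreteDeriv w f) x ^ 2) =
              fun x => discreteDeriv w (discreteDeriv a f) x ^ 2 := by
            funext x
            rw [deriv_comm]
          rw [h6] at h5
          exact (mul_le_mul_of_nonneg_right h4 (Iw_nonneg f w)).trans h5
      _ ≤ ∑ w, 4 * ex (fun x => discreteDeriv w (discreteDeriv a f) x ^ 2) := by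
          apply Finset.sum_le_sum_of_subset_of_nonneg (Finset.subset_univ _)
          intro w _ _
          exact mul_nonneg (by norm_num) (ex_nonneg fun x => sq_nonneg _)
      _ = 4 * ∑ w, ex (fun x => discreteDeriv w (discreteDeriv a f) x ^ 2) :=
          (Finset.mul_sum _ _ _).symm
      _ ≤ 4 * ((d : ℝ) * Iw f a) := by
          have h7 := sum_ex_deriv_sq_le (bdd_deriv hf a).1
          have h8 : ex (fun x => discreteDeriv a f x ^ 2) = Iw f a := rfl
          rw [h8] at h7
          linarith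
  rw [div_mul_eq_mul_div, le_div_iff₀ hβ2]
  linarith

end Pool.Agent.QAA
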