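import Mathlib
import Pool.Agent.QAA.Inf

/-!
QAA module EPL: the planting expectation `EP f W G`: `w ∈ W` with weight `Iw f w`, `x` with density
`gs f w = (D_w f)^2`.

* `EP_*`: `EP` is an expectation (`m = ∑_{w∈W} Iw f w > 0`): finite sums with nonnegative weights
  `gs f w x/(2^n m)` of total mass `1`. (Compare `Pool/Agent/SUB/PlantDefs.lean`.)
-/

set_option linter.dupNamespace false

namespace Pool.Agent.QAA

open Finset Pool.Agent.Helper11.Cube Pool.Agent.Helper11.AA Pool.Agent.SUB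

variable {n d I : ℕ} {f : Cube n → ℝ} {W : Finset (Fin n)} {C : Fin n → Finset (Fin n)}
  {K π ξ : ℝ}

/-- the weight of one planting -/
noncomputable def EPLq (f : Cube n → ℝ) (W : Finset (Fin n)) (z : Fin n × Cube n) : ℝ :=
  gs f z.1 z.2 / ((2 : ℝ) ^ n * ∑ w ∈ W, Iw f w)

lemma EPL_eq (G : Fin n → Cube n → ℝ) : EP f W G =
    ∑ z ∈ W ×ˢ (univ : Finset (Cube n)), EPLq f W z * G z.1 z.2 := by
  unfold EP ex EPLq
  rw [Finset.sum_product, Finset.sum_div]
  refine Finset.sum_congr rfl fun w _ => ?_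
  rw [div_div, Finset.sum_div]
  refine Finset.sum_congr rfl fun x _ => ?_
  ring

lemma EPL_row (w : Fin n) : ∑ x, EPLq f W (w, x) = Iw f w / ∑ w ∈ W, Iw f w := by
  unfold EPLq
  rw [← Finset.sum_div]
  unfold Iw ex
  rw [div_div]

lemma EPL_tot (hm : 0 < ∑ w ∈ W, Iw f w) :
    ∑ z ∈ W ×ˢ (univ : Finset (Cube n)), EPLq f W z = 1 := by
  rw [Finset.sum_product, Finset.sum_congr rfl (fun w _ => EPL_row w), ← Finset.sum_div]
  exact div_self hm.ne'

lemma EPLq_nonneg (z : Fin n × Cube n) : 0 ≤ EPLq f W z := by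
  unfold EPLq
  have h1 : 0 ≤ ∑ w ∈ W, Iw f w := Finset.sum_nonneg fun w _ => Iw_nonneg f w
  have h2 := gs_nonneg f z.1 z.2
  positivity

lemma EP_mono (hm : 0 < ∑ w ∈ W, Iw f w) {G G' : Fin n → Cube n → ℝ}
    (h : ∀ w ∈ W, ∀ x, G w x ≤ G' w x) : EP f W G ≤ EP f W G' := by
  rw [EPL_eq, EPL_eq]
  refine Finset.sum_le_sum fun z hz => ?_
  exact mul_le_mul_of_nonneg_left (h z.1 (Finset.mem_product.1 hz).1 z.2) (EPLq_nonneg z)

lemma EP_const (hm : 0 < ∑ w ∈ W, Iw f w) (c : ℝ) : EP f W (fun _ _ => c) = c := by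
  rw [EPL_eq, ← Finset.sum_mul, EPL_tot hm, one_mul]

lemma EP_add (G G' : Fin n → Cube n → ℝ) :
    EP f W (fun w x => G w x + G' w x) = EP f W G + EP f W G' := by
  rw [EPL_eq, EPL_eq, EPL_eq, ← Finset.sum_add_distrib]
  refine Finset.sum_congr rfl fun z _ => ?_
  ring

lemma EP_sub (G G' : Fin n → Cube n → ℝ) :
    EP f W (fun w x => G w x - G' w x) = EP f W G - EP f W G' := by
  rw [EPL_eq, EPL_eq, EPL_eq, ← Finset.sum_sub_distrib]
  refine Finset.sum_congr rfl fun z _ => ?_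
  ring

lemma EP_const_mul (c : ℝ) (G : Fin n → Cube n → ℝ) :
    EP f W (fun w x => c * G w x) = c * EP f W G := by
  rw [EPL_eq, EPL_eq, Finset.mul_sum]
  refine Finset.sum_congr rfl fun z _ => ?_
  ring

lemma EP_sum {ι : Type*} (s : Finset ι) (G : ι → Fin n → Cube n → ℝ) :
    EP f W (fun w x => ∑ i ∈ s, G i w x) = ∑ i ∈ s, EP f W (G i) := by
  rw [EPL_eq, Finset.sum_congr rfl (fun i _ => EPL_eq (G i)), Finset.sum_comm]
  refine Finset.sum_congr rfl fun z _ => ?_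
  rw [Finset.mul_sum]

lemma EP_comm (G : Fin n → Cube n → Fin n → Cube n → ℝ) :
    EP f W (fun w x => EP f W (fun w' x' => G w x w' x'))
      = EP f W (fun w' x' => EP f W (fun w x => G w x w' x')) := by
  rw [EPL_eq, EPL_eq]
  simp only [EPL_eq, Finset.mul_sum]
  rw [Finset.sum_comm]
  refine Finset.sum_congr rfl fun z _ => Finset.sum_congr rfl fun z' _ => ?_
  ring

lemma ex_EP (G : Cube n → Fin n → Cube n → ℝ) :
    ex (fun v => EP f W (G v)) = EP f W (fun w x => ex (fun v => G v w x)) := by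
  have h1 : (fun v => EP f W (G v)) = fun v => ∑ z ∈ W ×ˢ (univ : Finset (Cube n)),
      EPLq f W z * G v z.1 z.2 := by
    funext v
    exact EPL_eq (G v)
  rw [h1, EPL_eq]
  unfold ex
  rw [Finset.sum_comm, Finset.sum_div]
  refine Finset.sum_congr rfl fun z _ => ?_
  rw [← Finset.mul_sum, mul_div_assoc]

lemma exists_EP_le (hm : 0 < ∑ w ∈ W, Iw f w) (G : Fin n → Cube n → ℝ) :
    ∃ w ∈ W, ∃ x, EP f W G ≤ G w x := by
  have hW : W.Nonempty := by
    by_contra h
    rw [Finset.not_nonempty_iff_eq_empty] at h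
    rw [h, Finset.sum_empty] at hm
    exact lt_irrefl _ hm
  obtain ⟨z, hz, hmax⟩ := Finset.exists_max_image (W ×ˢ (univ : Finset (Cube n)))
    (fun z => G z.1 z.2) (hW.product Finset.univ_nonempty)
  refine ⟨z.1, (Finset.mem_product.1 hz).1, z.2, ?_⟩
  have h1 : EP f W G ≤ EP f W (fun _ _ => G z.1 z.2) :=
    EP_mono hm fun w hw x => hmax (w, x) (Finset.mem_product.2 ⟨hw, Finset.mem_univ _⟩)
  rwa [EP_const hm] at h1

end Pool.Agent.QAA
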