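import Mathlib
import Pool.Agent.SUB.Drv

/-!
QAA module INS: insensitivity of bounded low degree polynomials to random plantings, linear in the
popularity.

`insens_tail`: `Δ ω = |g (mix (C ω) (y ω) v) - g v|`; `mix (C ω) (y ω) v = flipOn (B ω) v` with
`B ω = (C ω).filter (fun i => y ω i ≠ v i) ⊆ C ω` (`Int.units_eq_one_or`). Let
`E = {ω | 0 < μ ω ∧ δ < Δ ω}` and let `s ⊆ E` be a maximal subset (maximal cardinality) on which `C`
is pairwise disjoint. `abs_block` (blocks `B ω`, `ω ∈ s`): `|s| δ ≤ 4 d^2`. Every `ω ∈ E` has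
`C ω ∩ s.biUnion C ≠ ∅`: otherwise (`C ω ≠ ∅` as `Δ ω > 0`, so `ω ∉ s`) `insert ω s` is larger. So
`μ(E) ≤ ∑_{a ∈ s.biUnion C} μ(a ∈ C ω) ≤ |s| K π ≤ (4 d^2/δ) K π`. (`ω` with `μ ω = 0` do not
contribute to the sum.)

`insens`: `0 ≤ Δ ≤ 2`; pointwise `Δ ≤ (1/2)^I + ∑_{i ≤ I} 2 (1/2)^i 1[(1/2)^i < Δ]` (if
`Δ > (1/2)^I`, take the least `i` with `(1/2)^i < Δ`; then `Δ ≤ 2 (1/2)^i`). Multiply by `μ`, sum,
`insens_tail` with `δ = (1/2)^i`: each term is `≤ 2 (1/2)^i * 4 d^2 K π/(1/2)^i = 8 d^2 K π`.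
-/

set_option linter.dupNamespace false

namespace Pool.Agent.QAA

open Finset Pool.Agent.Helper11.Cube Pool.Agent.Helper11.AA Pool.Agent.SUB

variable {n d : ℕ}

private lemma mix_eq_flipOn (S : Finset (Fin n)) (y v : Cube n) :
    mix S y v = flipOn (S.filter (fun i => y i ≠ v i)) v := by
  funext i
  unfold mix flipOn
  by_cases hi : i ∈ S
  · by_cases hy : y i = v i
    · simp [hi, hy]
    · have hm : i ∈ S.filter (fun i => y i ≠ v i) := by simp [hi, hy]
      simp only [hi, if_true, hm]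
      rcases Int.units_eq_one_or (y i) with h1 | h1 <;>
        rcases Int.units_eq_one_or (v i) with h2 | h2 <;> simp_all
  · simp [hi]

private lemma sum_biUnion_le_aux {α Ω : Type*} [DecidableEq Ω] [DecidableEq α] (U : Finset α)
    (F : α → Finset Ω) (μ : Ω → ℝ) (hμ : ∀ ω, 0 ≤ μ ω) :
    ∑ ω ∈ U.biUnion F, μ ω ≤ ∑ a ∈ U, ∑ ω ∈ F a, μ ω := by
  induction U using Finset.induction_on with
  | empty => simp
  | insert a s ha ih =>
    rw [Finset.biUnion_insert, Finset.sum_insert ha]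
    have h := Finset.sum_union_inter (s₁ := F a) (s₂ := s.biUnion F) (f := μ)
    have h2 : 0 ≤ ∑ ω ∈ F a ∩ s.biUnion F, μ ω := Finset.sum_nonneg (fun ω _ => hμ ω)
    linarith

private lemma dyadic_pointwise (I : ℕ) {x : ℝ} (hx2 : x ≤ 2) :
    x ≤ (1 / 2 : ℝ) ^ I +
      ∑ i ∈ range (I + 1), (if (1 / 2 : ℝ) ^ i < x then 2 * (1 / 2 : ℝ) ^ i else 0) := by
  have hnn : ∀ i ∈ range (I + 1),
      (0 : ℝ) ≤ (if (1 / 2 : ℝ) ^ i < x then 2 * (1 / 2 : ℝ) ^ i else 0) := by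
    intro i _
    split_ifs
    · positivity
    · exact le_rfl
  by_cases h : x ≤ (1 / 2 : ℝ) ^ I
  · have := Finset.sum_nonneg hnn
    linarith
  · push Not at h
    classical
    have hex : ∃ i : ℕ, (1 / 2 : ℝ) ^ i < x := ⟨I, h⟩
    have hspec := Nat.find_spec hex
    have hle : Nat.find hex ≤ I := Nat.find_min' hex h
    have hsingle := Finset.single_le_sum hnn (Finset.mem_range.2 (Nat.lt_succ_of_le hle))
    rw [if_pos hspec] at hsingle
    have hx : x ≤ 2 * (1 / 2 : ℝ) ^ (Nat.find hex) := by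
      rcases Nat.eq_zero_or_pos (Nat.find hex) with h0 | h0
      · rw [h0]; simpa using hx2
      · have hmin := Nat.find_min hex (m := Nat.find hex - 1) (by omega)
        push Not at hmin
        have : (1 / 2 : ℝ) ^ (Nat.find hex - 1) = 2 * (1 / 2 : ℝ) ^ (Nat.find hex) := by
          obtain ⟨j, hj⟩ : ∃ j, Nat.find hex = j + 1 := ⟨Nat.find hex - 1, by omega⟩
          rw [hj, Nat.add_sub_cancel, pow_succ]
          ring
        rw [← this]
        exact hmin
    have hp : (0 : ℝ) < (1 / 2 : ℝ) ^ I := by positivity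
    linarith

theorem insens_tail {Ω : Type*} [Fintype Ω] [DecidableEq Ω] (μ : Ω → ℝ) (hμ : ∀ ω, 0 ≤ μ ω)
    (C : Ω → Finset (Fin n)) (y : Ω → Cube n) {K π δ : ℝ} (hK0 : 0 ≤ K)
    (hπ0 : 0 ≤ π) (hK : ∀ ω, 0 < μ ω → ((C ω).card : ℝ) ≤ K)
    (hπ : ∀ a, ∑ ω ∈ univ.filter (fun ω => a ∈ C ω), μ ω ≤ π) (hδ : 0 < δ)
    {g : Cube n → ℝ} (hg : Bdd d g) (v : Cube n) :
    ∑ ω ∈ univ.filter (fun ω => δ < |g (mix (C ω) (y ω) v) - g v|), μ ω
      ≤ 4 * (d : ℝ) ^ 2 / δ * K * π := by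
  classical
  set Δ : Ω → ℝ := fun ω => |g (mix (C ω) (y ω) v) - g v| with hΔ
  set E : Finset Ω := univ.filter (fun ω => 0 < μ ω ∧ δ < Δ ω) with hE
  have hsum : ∑ ω ∈ univ.filter (fun ω => δ < Δ ω), μ ω = ∑ ω ∈ E, μ ω := by
    symm
    apply Finset.sum_subset
    · intro ω hω
      rw [hE, Finset.mem_filter] at hω
      rw [Finset.mem_filter]
      exact ⟨hω.1, hω.2.2⟩
    · intro ω hω hω'
      rw [Finset.mem_filter] at hω
      by_contra hne
      exact hω' (by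
        rw [hE, Finset.mem_filter]
        exact ⟨hω.1, lt_of_le_of_ne (hμ ω) (Ne.symm hne), hω.2⟩)
  change ∑ ω ∈ univ.filter (fun ω => δ < Δ ω), μ ω ≤ _
  rw [hsum]
  obtain ⟨s, hs, hmax⟩ := Finset.exists_max_image
    (E.powerset.filter (fun s : Finset Ω => Set.PairwiseDisjoint (s : Set Ω) C)) Finset.card
    ⟨∅, by simp⟩
  rw [Finset.mem_filter, Finset.mem_powerset] at hs
  obtain ⟨hsE, hdis⟩ := hs
  have hcard : (s.card : ℝ) * δ ≤ 4 * (d : ℝ) ^ 2 := by
    have hB : Set.PairwiseDisjoint (s : Set Ω) (fun ω => (C ω).filter (fun i => y ω i ≠ v i)) := by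
      intro a ha b hb hab
      exact (hdis ha hb hab).mono (Finset.filter_subset _ _) (Finset.filter_subset _ _)
    have hblk := abs_block hg s (fun ω => (C ω).filter (fun i => y ω i ≠ v i)) hB v
    refine le_trans ?_ hblk
    have h1 : ∑ _i ∈ s, δ ≤
        ∑ i ∈ s, |g v - g (flipOn ((C i).filter (fun j => y i j ≠ v j)) v)| := by
      apply Finset.sum_le_sum
      intro ω hw
      rw [← mix_eq_flipOn, abs_sub_comm]
      have := hsE hw
      rw [hE, Finset.mem_filter] at this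
      exact this.2.2.le
    rwa [Finset.sum_const, nsmul_eq_mul] at h1
  set U := s.biUnion C with hU
  have hUc : (U.card : ℝ) ≤ s.card * K := by
    have h1 : (U.card : ℝ) ≤ ∑ ω ∈ s, ((C ω).card : ℝ) := by
      exact_mod_cast Finset.card_biUnion_le
    refine h1.trans ?_
    have h2 : ∑ ω ∈ s, ((C ω).card : ℝ) ≤ ∑ _ω ∈ s, K := by
      apply Finset.sum_le_sum
      intro ω hw
      have := hsE hw
      rw [hE, Finset.mem_filter] at this
      exact hK ω this.2.1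
    rw [Finset.sum_const, nsmul_eq_mul] at h2
    exact h2
  have hcover : E ⊆ U.biUnion (fun a => univ.filter (fun ω => a ∈ C ω)) := by
    intro ω hω
    have hω' := hω
    rw [hE, Finset.mem_filter] at hω'
    have hnd : ¬ Disjoint (C ω) U := by
      intro hdisU
      have hCne : C ω ≠ ∅ := by
        intro h0
        have hm : mix (C ω) (y ω) v = v := by
          funext i; unfold mix; simp [h0]
        have h1 : Δ ω = 0 := by simp [hΔ, hm]
        rw [h1] at hω'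
        linarith [hω'.2.2]
      have hωs : ω ∉ s := by
        intro hmem
        have hsub : C ω ⊆ U := Finset.subset_biUnion_of_mem C hmem
        have h2 := hdisU.mono_right hsub
        rw [disjoint_self] at h2
        exact hCne h2
      have hins : insert ω s ∈ E.powerset.filter (fun s : Finset Ω => Set.PairwiseDisjoint (s : Set Ω) C) := by
        rw [Finset.mem_filter, Finset.mem_powerset]
        refine ⟨Finset.insert_subset hω hsE, ?_⟩
        rw [Finset.coe_insert]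
        apply Set.PairwiseDisjoint.insert hdis
        intro b hb _
        exact hdisU.mono_right (Finset.subset_biUnion_of_mem C (by exact_mod_cast hb))
      have := hmax _ hins
      rw [Finset.card_insert_of_notMem hωs] at this
      omega
    rw [Finset.not_disjoint_iff] at hnd
    obtain ⟨a, ha, haU⟩ := hnd
    rw [Finset.mem_biUnion]
    exact ⟨a, haU, by simp [ha]⟩
  calc ∑ ω ∈ E, μ ω ≤ ∑ ω ∈ U.biUnion (fun a => univ.filter (fun ω => a ∈ C ω)), μ ω :=
        Finset.sum_le_sum_of_subset_of_nonneg hcover (fun ω _ _ => hμ ω)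
    _ ≤ ∑ a ∈ U, ∑ ω ∈ univ.filter (fun ω => a ∈ C ω), μ ω := sum_biUnion_le_aux U _ μ hμ
    _ ≤ ∑ _a ∈ U, π := Finset.sum_le_sum (fun a _ => hπ a)
    _ = U.card * π := by rw [Finset.sum_const, nsmul_eq_mul]
    _ ≤ (s.card * K) * π := mul_le_mul_of_nonneg_right hUc hπ0
    _ ≤ (4 * (d : ℝ) ^ 2 / δ * K) * π := by
        apply mul_le_mul_of_nonneg_right _ hπ0
        apply mul_le_mul_of_nonneg_right _ hK0
        rw [le_div_iff₀ hδ]
        exact hcard

theorem insens {Ω : Type*} [Fintype Ω] [DecidableEq Ω] (μ : Ω → ℝ) (hμ : ∀ ω, 0 ≤ μ ω)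
    (hμ1 : ∑ ω, μ ω = 1) (C : Ω → Finset (Fin n)) (y : Ω → Cube n) {K π : ℝ} (hK0 : 0 ≤ K)
    (hπ0 : 0 ≤ π) (hK : ∀ ω, 0 < μ ω → ((C ω).card : ℝ) ≤ K)
    (hπ : ∀ a, ∑ ω ∈ univ.filter (fun ω => a ∈ C ω), μ ω ≤ π) (I : ℕ)
    {g : Cube n → ℝ} (hg : Bdd d g) (v : Cube n) :
    ∑ ω, μ ω * |g (mix (C ω) (y ω) v) - g v|
      ≤ (1 / 2 : ℝ) ^ I + 8 * (I + 1) * (d : ℝ) ^ 2 * K * π := by
  classical
  set Δ : Ω → ℝ := fun ω => |g (mix (C ω) (y ω) v) - g v| with hΔ
  have hΔ2 : ∀ ω, Δ ω ≤ 2 := by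
    intro ω
    have h1 := hg.2 (mix (C ω) (y ω) v)
    have h2 := hg.2 v
    rw [abs_le] at h1 h2
    simp only [hΔ]
    rw [abs_le]
    constructor <;> linarith [h1.1, h1.2, h2.1, h2.2]
  have htail : ∀ i : ℕ, ∑ ω ∈ univ.filter (fun ω => (1 / 2 : ℝ) ^ i < Δ ω), μ ω
      ≤ 4 * (d : ℝ) ^ 2 / (1 / 2 : ℝ) ^ i * K * π := fun i =>
    insens_tail μ hμ C y hK0 hπ0 hK hπ (by positivity) hg v
  calc ∑ ω, μ ω * Δ ω ≤ ∑ ω, μ ω * ((1 / 2 : ℝ) ^ I +
        ∑ i ∈ range (I + 1), (if (1 / 2 : ℝ) ^ i < Δ ω then 2 * (1 / 2 : ℝ) ^ i else 0)) :=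
        Finset.sum_le_sum (fun ω _ =>
          mul_le_mul_of_nonneg_left (dyadic_pointwise I (hΔ2 ω)) (hμ ω))
    _ = (1 / 2 : ℝ) ^ I + ∑ i ∈ range (I + 1), 2 * (1 / 2 : ℝ) ^ i *
          ∑ ω ∈ univ.filter (fun ω => (1 / 2 : ℝ) ^ i < Δ ω), μ ω := by
        simp only [mul_add, Finset.sum_add_distrib, Finset.mul_sum]
        rw [← Finset.sum_mul, hμ1, one_mul, Finset.sum_comm]
        congr 1
        apply Finset.sum_congr rfl
        intro i _
        rw [Finset.sum_filter]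
        apply Finset.sum_congr rfl
        intro ω _
        split_ifs <;> ring
    _ ≤ (1 / 2 : ℝ) ^ I + ∑ _i ∈ range (I + 1), 8 * (d : ℝ) ^ 2 * K * π := by
        apply add_le_add le_rfl
        apply Finset.sum_le_sum
        intro i _
        have hp : (0 : ℝ) < (1 / 2 : ℝ) ^ i := by positivity
        calc 2 * (1 / 2 : ℝ) ^ i * ∑ ω ∈ univ.filter (fun ω => (1 / 2 : ℝ) ^ i < Δ ω), μ ω
            ≤ 2 * (1 / 2 : ℝ) ^ i * (4 * (d : ℝ) ^ 2 / (1 / 2 : ℝ) ^ i * K * π) :=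
              mul_le_mul_of_nonneg_left (htail i) (by positivity)
          _ = 8 * (d : ℝ) ^ 2 * K * π := by field_simp; ring
    _ = _ := by
        rw [Finset.sum_const, Finset.card_range, nsmul_eq_mul]
        push_cast
        ring

end Pool.Agent.QAA
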