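import Mathlib
import Pool.Agent.QAA.EPlant
import Pool.Agent.QAA.Insens

/-!
QAA module EIN: insensitivity for the planting expectation.

* `EP_insens`: apply `insens` to `Ω = Fin n × Cube n`,
  `μ (w,x) = if w ∈ W then gs f w x / (2^n m) else 0`, `C (w,x) = C w`, `y (w,x) = x`, then `hξ`.
* `EP_meet`: the probability that `C w` meets a set `U` is at most `|U| π` (union bound over `U`, `hπ`).
(Compare the same lemmas in `Pool/Agent/SUB/PlantDefs.lean`.)
-/

set_option linter.dupNamespace false

namespace Pool.Agent.QAA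

open Finset Pool.Agent.Helper11.Cube Pool.Agent.Helper11.AA Pool.Agent.SUB

variable {n d I : ℕ} {f : Cube n → ℝ} {W : Finset (Fin n)} {C : Fin n → Finset (Fin n)}
  {K π ξ : ℝ}

lemma EP_insens (h : PH d f W C K π ξ I) {g : Cube n → ℝ} (hg : Bdd d g) (v : Cube n) :
    EP f W (fun w x => |g (mix (C w) x v) - g v|) ≤ ξ := by
  classical
  have hsum : ∀ F : Fin n × Cube n → ℝ,
      ∑ z, (if z.1 ∈ W then EPLq f W z else 0) * F z =
        ∑ z ∈ W ×ˢ (univ : Finset (Cube n)), EPLq f W z * F z := by
    intro F
    have h1 : W ×ˢ (univ : Finset (Cube n)) = univ.filter fun z : Fin n × Cube n => z.1 ∈ W := by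
      ext z
      simp
    rw [h1, Finset.sum_filter]
    refine Finset.sum_congr rfl fun z _ => ?_
    split_ifs <;> simp
  have hI := insens (Ω := Fin n × Cube n) (fun z => if z.1 ∈ W then EPLq f W z else 0)
    (fun z => by
      split_ifs
      · exact EPLq_nonneg z
      · exact le_refl _)
    (by
      have h1 := hsum fun _ => 1
      simp only [mul_one] at h1
      rw [h1, EPL_tot h.hm])
    (fun z => C z.1) (fun z => z.2) h.hK0 h.hπ0
    (fun z hz => by
      by_cases hzW : z.1 ∈ W
      · exact h.hK _ hzW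
      · rw [if_neg hzW] at hz
        exact absurd hz (lt_irrefl _))
    (fun a => by
      have h1 := hsum fun z => if a ∈ C z.1 then 1 else 0
      rw [Finset.sum_filter]
      have h2 : ∑ z : Fin n × Cube n, (if a ∈ C z.1 then
          (if z.1 ∈ W then EPLq f W z else 0) else 0) =
          ∑ z, (if z.1 ∈ W then EPLq f W z else 0) * (if a ∈ C z.1 then 1 else 0) := by
        refine Finset.sum_congr rfl fun z _ => ?_
        split_ifs <;> simp
      rw [h2, h1, Finset.sum_product]
      have h3 : ∀ w ∈ W, ∑ x, EPLq f W (w, x) * (if a ∈ C w then (1 : ℝ) else 0) =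
          (if a ∈ C w then Iw f w else 0) / ∑ w ∈ W, Iw f w := by
        intro w _
        rw [← Finset.sum_mul, EPL_row]
        split_ifs <;> simp
      rw [Finset.sum_congr rfl h3, ← Finset.sum_div, ← Finset.sum_filter, div_le_iff₀ h.hm]
      exact h.hπ a)
    I hg v
  rw [EPL_eq, ← hsum fun z => |g (mix (C z.1) z.2 v) - g v|]
  exact hI.trans h.hξ

lemma EP_meet (h : PH d f W C K π ξ I) (U : Finset (Fin n)) :
    EP f W (fun w _ => if Disjoint (C w) U then 0 else 1) ≤ (U.card : ℝ) * π := by
  classical
  have h1 : EP f W (fun w _ => if Disjoint (C w) U then 0 else 1) ≤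
      EP f W (fun w _ => ∑ a ∈ U, if a ∈ C w then (1 : ℝ) else 0) := by
    refine EP_mono h.hm fun w _ x => ?_
    by_cases hd : Disjoint (C w) U
    · rw [if_pos hd]
      exact Finset.sum_nonneg fun a _ => by split_ifs <;> norm_num
    · rw [if_neg hd]
      obtain ⟨a, ha, haU⟩ := Finset.not_disjoint_iff.1 hd
      have h2 := Finset.single_le_sum (f := fun a => if a ∈ C w then (1 : ℝ) else 0)
        (fun a _ => by split_ifs <;> norm_num) haU
      simp only [if_pos ha] at h2
      exact h2
  refine h1.trans ?_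
  rw [EP_sum U (fun a w _ => if a ∈ C w then (1 : ℝ) else 0)]
  have h2 : ∀ a ∈ U, EP f W (fun w _ => if a ∈ C w then (1 : ℝ) else 0) ≤ π := by
    intro a _
    unfold EP
    rw [div_le_iff₀ h.hm]
    refine le_trans (le_of_eq ?_) (h.hπ a)
    rw [Finset.sum_filter]
    refine Finset.sum_congr rfl fun w _ => ?_
    by_cases haw : a ∈ C w
    · simp only [if_pos haw, mul_one]
      rfl
    · simp only [if_neg haw, mul_zero]
      rw [ex_const]
  have h3 := Finset.sum_le_sum h2
  rwa [Finset.sum_const, nsmul_eq_mul] at h3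

end Pool.Agent.QAA
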