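import Mathlib
import Pool.Agent.QAA.Inf
import Pool.Agent.SUB.FinLow1
import Pool.Agent.SUB.AvgBasic

/-!
QAA module FIN: the lower bound at the final time `u = log (2d)`.

`sum_sq_le` (`g` bounded of degree `≤ d`, `0 < η ≤ 1`): with `N_a = ex (D_a g)`: `∑_a |N_a| ≤ 2 d^2`
(`abs_ex_le`, `sum_abs_deriv`). If `|N_a| ≤ η` then `N_a^2 ≤ η |N_a|`. Otherwise
`η^2 < N_a^2 ≤ Iw g a` (Cauchy-Schwarz, `(ex h)^2 ≤ ex (h^2)`; e.g. `ex ((h - ex h)^2) ≥ 0`), so
`N_a^2 ≤ Iw = Iw^(1+γ) Iw^(-γ) ≤ Iw^(1+γ) η^(-2γ)`. Sum: `≤ 2 d^2 η + η^(-2γ) Fi γ g`.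

`final_lower`: `s = 1 - exp(-log(2d)) = 1 - 1/(2d)`, `s^(d-1) ≥ 1 - (d-1)/(2d) ≥ 1/2` (Bernoulli
`one_add_mul_le_pow`). `avg_sq_ge` (`SUB.FinLow1`), `sum_sq_le` with `η = V/(16 d^3)` for all
restrictions (`bdd_mix`), `avg_mono`, `avg_add`, `avg_const`, `avg_const_mul`:
`V/(4d) ≤ V/(8d) + η^(-2γ) avg s (Fi γ) f`, so `Ps = 2d * avg ≥ (V/4) η^(2γ)`. (`V ≤ 1`:
`variance f ≤ ex (f^2) ≤ 1`, so `η ≤ 1`.) Compare `Pool/Agent/SUB/FinLow.lean`.
-/

set_option linter.dupNamespace false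

namespace Pool.Agent.QAA

open Finset Pool.Agent.Helper11.Cube Pool.Agent.Helper11.AA Pool.Agent.SUB

variable {n d : ℕ}

lemma ex_sq_le (h : Cube n → ℝ) : ex h ^ 2 ≤ ex (fun x => h x ^ 2) := by
  have h1 : 0 ≤ variance h := by
    rw [variance_eq_sum]
    exact Finset.sum_nonneg (fun _ _ => sq_nonneg _)
  rw [variance_eq] at h1
  linarith

lemma variance_le_one {f : Cube n → ℝ} (hf : Bdd d f) : variance f ≤ 1 := by
  rw [variance_eq]
  have h1 : ex (fun x => f x ^ 2) ≤ ex (fun _ : Cube n => (1 : ℝ)) := by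
    apply ex_mono
    intro x
    have := hf.2 x
    rw [← sq_abs]
    nlinarith [abs_nonneg (f x)]
  rw [ex_const] at h1
  nlinarith [sq_nonneg (ex f)]

lemma sum_sq_le {η γ : ℝ} (hη : 0 < η) (hη1 : η ≤ 1) (hγ : 0 ≤ γ) {g : Cube n → ℝ}
    (hg : Bdd d g) :
    ∑ a, ex (discreteDeriv a g) ^ 2 ≤ 2 * (d : ℝ) ^ 2 * η + η ^ (-(2 * γ)) * Fi γ g := by
  have _ := hη1
  have hpt : ∀ a : Fin n, ex (discreteDeriv a g) ^ 2
      ≤ η * ex (fun x => |discreteDeriv a g x|) + η ^ (-(2 * γ)) * Iw g a ^ (1 + γ) := by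
    intro a
    have h1 : |ex (discreteDeriv a g)| ≤ ex (fun x => |discreteDeriv a g x|) := abs_ex_le _
    have h2 : 0 ≤ Iw g a := Iw_nonneg g a
    have h3 : 0 ≤ Iw g a ^ (1 + γ) := Real.rpow_nonneg h2 _
    have h4 : 0 ≤ η ^ (-(2 * γ)) := Real.rpow_nonneg hη.le _
    have h5 : ex (discreteDeriv a g) ^ 2 = |ex (discreteDeriv a g)| ^ 2 := (sq_abs _).symm
    rcases le_or_gt |ex (discreteDeriv a g)| η with h | h
    · have h6 : |ex (discreteDeriv a g)| ^ 2 ≤ η * ex (fun x => |discreteDeriv a g x|) := by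
        rw [sq]
        exact mul_le_mul h h1 (abs_nonneg _) hη.le
      have h7 : 0 ≤ η ^ (-(2 * γ)) * Iw g a ^ (1 + γ) := mul_nonneg h4 h3
      linarith
    · have h6 : ex (discreteDeriv a g) ^ 2 ≤ Iw g a := ex_sq_le _
      have h7 : η ^ 2 < Iw g a := by
        have : η ^ 2 < |ex (discreteDeriv a g)| ^ 2 := by
          apply pow_lt_pow_left₀ h hη.le (by norm_num)
        linarith
      have h8 : 0 < Iw g a := lt_trans (by positivity) h7
      have h9 : η ^ (2 * γ) ≤ Iw g a ^ γ := by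
        have : η ^ (2 * γ) = (η ^ 2) ^ γ := by
          rw [Real.rpow_mul hη.le]
          norm_num
        rw [this]
        exact Real.rpow_le_rpow (by positivity) h7.le hγ
      have h10 : η ^ (-(2 * γ)) * η ^ (2 * γ) = 1 := by
        rw [← Real.rpow_add hη]
        norm_num
      have h11 : Iw g a ^ (1 + γ) = Iw g a * Iw g a ^ γ := by
        rw [Real.rpow_add h8, Real.rpow_one]
      have h12 : Iw g a ≤ η ^ (-(2 * γ)) * Iw g a ^ (1 + γ) := by
        rw [h11]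
        calc Iw g a = Iw g a * (η ^ (-(2 * γ)) * η ^ (2 * γ)) := by rw [h10, mul_one]
          _ ≤ Iw g a * (η ^ (-(2 * γ)) * Iw g a ^ γ) := by gcongr
          _ = η ^ (-(2 * γ)) * (Iw g a * Iw g a ^ γ) := by ring
      have h13 : 0 ≤ η * ex (fun x => |discreteDeriv a g x|) :=
        mul_nonneg hη.le (le_trans (abs_nonneg _) h1)
      linarith
  have hsum : ∑ a, ex (fun x => |discreteDeriv a g x|) ≤ 2 * (d : ℝ) ^ 2 := by
    rw [← ex_sum]
    calc ex (fun x => ∑ a, |discreteDeriv a g x|) ≤ ex (fun _ : Cube n => 2 * (d : ℝ) ^ 2) :=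
          ex_mono (fun x => sum_abs_deriv hg x)
      _ = 2 * (d : ℝ) ^ 2 := ex_const _
  calc ∑ a, ex (discreteDeriv a g) ^ 2
      ≤ ∑ a, (η * ex (fun x => |discreteDeriv a g x|) + η ^ (-(2 * γ)) * Iw g a ^ (1 + γ)) :=
        Finset.sum_le_sum (fun a _ => hpt a)
    _ = η * ∑ a, ex (fun x => |discreteDeriv a g x|) + η ^ (-(2 * γ)) * Fi γ g := by
        rw [Finset.sum_add_distrib, ← Finset.mul_sum, ← Finset.mul_sum]
        rfl
    _ ≤ η * (2 * (d : ℝ) ^ 2) + η ^ (-(2 * γ)) * Fi γ g := by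
        have : η * ∑ a, ex (fun x => |discreteDeriv a g x|) ≤ η * (2 * (d : ℝ) ^ 2) :=
          mul_le_mul_of_nonneg_left hsum hη.le
        linarith
    _ = 2 * (d : ℝ) ^ 2 * η + η ^ (-(2 * γ)) * Fi γ g := by ring

theorem final_lower (hd : 1 ≤ d) {f : Cube n → ℝ} (hf : Bdd d f) (hV : 0 < variance f) {γ : ℝ}
    (hγ : 0 ≤ γ) :
    variance f / 4 * (variance f / (16 * (d : ℝ) ^ 3)) ^ (2 * γ)
      ≤ Ps γ (Real.log (2 * d)) f := by
  have hd0 : (0 : ℝ) < d := by exact_mod_cast hd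
  have hd1 : (1 : ℝ) ≤ d := by exact_mod_cast hd
  have hV1 := variance_le_one hf
  set V := variance f with hVdef
  set η : ℝ := V / (16 * (d : ℝ) ^ 3) with hη
  have hη0 : 0 < η := by positivity
  have hη1 : η ≤ 1 := by
    rw [hη, div_le_one (by positivity)]
    have h1 : (1 : ℝ) ≤ (d : ℝ) ^ 3 := one_le_pow₀ hd1
    linarith
  have h2d : (0 : ℝ) < 2 * d := by positivity
  have hexp : Real.exp (Real.log (2 * d)) = 2 * d := Real.exp_log h2d
  have hexpn : Real.exp (-Real.log (2 * d)) = 1 / (2 * d) := by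
    rw [Real.exp_neg, hexp, one_div]
  unfold Ps
  rw [hexp, hexpn]
  set s : ℝ := 1 - 1 / (2 * d) with hs
  have hinv1 : 1 / (2 * (d : ℝ)) ≤ 1 / 2 := by
    apply one_div_le_one_div_of_le (by norm_num)
    linarith
  have hinv0 : 0 < 1 / (2 * (d : ℝ)) := by positivity
  have h0 : 0 ≤ s := by rw [hs]; linarith
  have h1 : s ≤ 1 := by rw [hs]; linarith
  have hA := avg_sq_ge hf.1 h0 h1
  have hB : avg s (fun g => ∑ a, ex (discreteDeriv a g) ^ 2) f
      ≤ 2 * (d : ℝ) ^ 2 * η + η ^ (-(2 * γ)) * avg s (Fi γ) f := by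
    calc avg s (fun g => ∑ a, ex (discreteDeriv a g) ^ 2) f
        ≤ avg s (fun g => 2 * (d : ℝ) ^ 2 * η + η ^ (-(2 * γ)) * Fi γ g) f :=
          avg_mono h0 h1 (fun S y => sum_sq_le hη0 hη1 hγ (bdd_mix hf S y))
      _ = avg s (fun _ => 2 * (d : ℝ) ^ 2 * η) f
          + avg s (fun g => η ^ (-(2 * γ)) * Fi γ g) f := by
          rw [avg_add s (fun _ => 2 * (d : ℝ) ^ 2 * η) (fun g => η ^ (-(2 * γ)) * Fi γ g) f]
      _ = 2 * (d : ℝ) ^ 2 * η + η ^ (-(2 * γ)) * avg s (Fi γ) f := by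
          rw [avg_const, avg_const_mul]
  have hpow : (1 : ℝ) / 2 ≤ s ^ (d - 1) := by
    have hb := one_add_mul_le_pow (a := s - 1) (by linarith) (d - 1)
    have e1 : (1 : ℝ) + (s - 1) = s := by ring
    rw [e1] at hb
    have e2 : ((d - 1 : ℕ) : ℝ) = (d : ℝ) - 1 := by
      rw [Nat.cast_sub hd]; simp
    rw [e2] at hb
    have e3 : (d - 1 : ℝ) * (s - 1) = -(1 / 2) + 1 / (2 * d) := by
      rw [hs]
      field_simp
      ring
    rw [e3] at hb
    linarith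
  have hVs : V / (4 * d) ≤ (1 - s) * s ^ (d - 1) * V := by
    have e1 : 1 - s = 1 / (2 * d) := by rw [hs]; ring
    rw [e1]
    calc V / (4 * d) = 1 / (2 * d) * (1 / 2) * V := by
          field_simp
          ring
      _ ≤ 1 / (2 * d) * s ^ (d - 1) * V := by
          have hV' : 0 ≤ V := hV.le
          gcongr
  have h8 : 2 * (d : ℝ) ^ 2 * η = V / (8 * d) := by
    rw [hη]
    field_simp
    ring
  rw [h8] at hB
  have hfin : V / (4 * d) ≤ V / (8 * d) + η ^ (-(2 * γ)) * avg s (Fi γ) f := by linarith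
  have e4 : V / (4 * d) - V / (8 * d) = V / (8 * d) := by
    field_simp
    ring
  have hfin2 : V / (8 * d) ≤ η ^ (-(2 * γ)) * avg s (Fi γ) f := by linarith
  have h9 : η ^ (2 * γ) * η ^ (-(2 * γ)) = 1 := by
    rw [← Real.rpow_add hη0]
    norm_num
  have h10 : 0 ≤ η ^ (2 * γ) := Real.rpow_nonneg hη0.le _
  calc V / 4 * η ^ (2 * γ) = 2 * d * (η ^ (2 * γ) * (V / (8 * d))) := by
        field_simp
        ring
    _ ≤ 2 * d * (η ^ (2 * γ) * (η ^ (-(2 * γ)) * avg s (Fi γ) f)) := by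
        gcongr
    _ = 2 * d * ((η ^ (2 * γ) * η ^ (-(2 * γ))) * avg s (Fi γ) f) := by ring
    _ = 2 * d * avg s (Fi γ) f := by rw [h9, one_mul]

end Pool.Agent.QAA
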