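import Mathlib
import Pool.Agent.Helper11.Markov

/-!
QAA module COE: the coefficients of a polynomial of degree `D` bounded on `[-X, X]` are at most
`(2 D^2/X)^j / j!`.

`deriv_bound`: let `|x| ≤ X`, by symmetry (`P(-t)`) `x ≥ 0`. The polynomial
`Q(t) = P(x - X/2 + t X/2)` (`P.comp (C (x - X/2) + C (X/2) * X)`) has degree `≤ D` and for
`t ∈ [-1,1]` the argument lies in `[x - X, x] ⊆ [-X, X]`; `Q'(1) = (X/2) P'(x)`;
`markov_endpoint` gives `|P'(x)| X/2 ≤ D^2 B`.

`coeff_bound`: iterate: `|P^(j)(x)| ≤ (2 D^2/X)^j` for `|x| ≤ X` (the derivative has degree `≤ D`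
again), and `P.coeff j = P^(j)(0)/j!` (`Polynomial.coeff_iterate_derivative`, or
`Polynomial.iterate_derivative_eval...`; `(derivative^[j] P).coeff 0 = j! * P.coeff j`).
-/

set_option linter.dupNamespace false

namespace Pool.Agent.QAA

open Polynomial

private lemma deriv_bound_nonneg {D : ℕ} {P : ℝ[X]} {R B : ℝ} (hR : 0 < R) (hB : 0 ≤ B)
    (hdeg : P.degree ≤ D) (hb : ∀ x : ℝ, |x| ≤ R → |P.eval x| ≤ B) (x : ℝ) (hx0 : 0 ≤ x)
    (hx : x ≤ R) : |(derivative P).eval x| ≤ 2 * (D : ℝ) ^ 2 / R * B := by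
  set q : ℝ[X] := C (x - R / 2) + C (R / 2) * X with hq
  have hqdeg : q.natDegree ≤ 1 := by
    rw [hq]
    refine (natDegree_add_le _ _).trans ?_
    rw [natDegree_C]
    exact max_le (Nat.zero_le _) ((natDegree_C_mul_le _ _).trans natDegree_X_le)
  have hQdeg : (P.comp q).degree ≤ D := by
    apply degree_le_of_natDegree_le
    refine (natDegree_comp_le).trans ?_
    have h1 : P.natDegree ≤ D := natDegree_le_of_degree_le hdeg
    calc P.natDegree * q.natDegree ≤ D * 1 := Nat.mul_le_mul h1 hqdeg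
      _ = D := mul_one _
  have hQb : ∀ t ∈ Set.Icc (-1 : ℝ) 1, |(P.comp q).eval t| ≤ B := by
    intro t ht
    rw [eval_comp]
    apply hb
    rw [hq, eval_add, eval_C, eval_mul, eval_C, eval_X, abs_le]
    constructor
    · nlinarith [ht.1, ht.2]
    · nlinarith [ht.1, ht.2]
  have h := Pool.Agent.Helper11.Cube.markov_endpoint hB hQdeg hQb
  have hqd : derivative q = C (R / 2) := by
    rw [hq, derivative_add, derivative_C, derivative_C_mul, derivative_X, mul_one, zero_add]
  have hq1 : q.eval 1 = x := by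
    rw [hq, eval_add, eval_C, eval_mul, eval_C, eval_X]; ring
  rw [derivative_comp, hqd, eval_mul, eval_C, eval_comp, hq1, abs_mul,
    abs_of_pos (by positivity : (0 : ℝ) < R / 2)] at h
  have h2 : |(derivative P).eval x| ≤ (D : ℝ) ^ 2 * B / (R / 2) := by
    rw [le_div_iff₀ (by positivity)]
    linarith
  calc |(derivative P).eval x| ≤ (D : ℝ) ^ 2 * B / (R / 2) := h2
    _ = 2 * (D : ℝ) ^ 2 / R * B := by field_simp

lemma deriv_bound {D : ℕ} {P : ℝ[X]} {R B : ℝ} (hR : 0 < R) (hB : 0 ≤ B) (hdeg : P.degree ≤ D)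
    (hb : ∀ x : ℝ, |x| ≤ R → |P.eval x| ≤ B) :
    ∀ x : ℝ, |x| ≤ R → |(derivative P).eval x| ≤ 2 * (D : ℝ) ^ 2 / R * B := by
  intro x hx
  rcases le_total 0 x with h0 | h0
  · exact deriv_bound_nonneg hR hB hdeg hb x h0 ((le_abs_self x).trans hx)
  · have hdeg' : (P.comp (-X)).degree ≤ D := by
      apply degree_le_of_natDegree_le
      refine (natDegree_comp_le).trans ?_
      rw [natDegree_neg]
      have h1 : P.natDegree ≤ D := natDegree_le_of_degree_le hdeg
      calc P.natDegree * (X : ℝ[X]).natDegree ≤ D * 1 := Nat.mul_le_mul h1 natDegree_X_le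
        _ = D := mul_one _
    have hb' : ∀ y : ℝ, |y| ≤ R → |(P.comp (-X)).eval y| ≤ B := by
      intro y hy
      rw [eval_comp, eval_neg, eval_X]
      exact hb _ (by rwa [abs_neg])
    have h := deriv_bound_nonneg hR hB hdeg' hb' (-x) (by linarith)
      (by rw [abs_of_nonpos h0] at hx; exact hx)
    rw [derivative_comp, derivative_neg, derivative_X, eval_mul, eval_neg, eval_one, eval_comp,
      eval_neg, eval_X, neg_neg, neg_one_mul, abs_neg] at h
    exact h

theorem coeff_bound {D : ℕ} {P : ℝ[X]} {R : ℝ} (hR : 0 < R) (hdeg : P.degree ≤ D)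
    (hb : ∀ x : ℝ, |x| ≤ R → |P.eval x| ≤ 1) (j : ℕ) :
    |P.coeff j| ≤ (2 * (D : ℝ) ^ 2 / R) ^ j / (j.factorial : ℝ) := by
  have key : ∀ j : ℕ, (derivative^[j] P).degree ≤ D ∧
      ∀ x : ℝ, |x| ≤ R → |(derivative^[j] P).eval x| ≤ (2 * (D : ℝ) ^ 2 / R) ^ j := by
    intro j
    induction j with
    | zero => exact ⟨hdeg, by simpa using hb⟩
    | succ j ih =>
      obtain ⟨h1, h2⟩ := ih
      rw [Function.iterate_succ_apply']
      refine ⟨(degree_derivative_le).trans h1, fun x hx => ?_⟩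
      have h3 := deriv_bound hR (by positivity) h1 h2 x hx
      rw [pow_succ, mul_comm]
      exact h3
  have h := (key j).2 0 (by simpa using hR.le)
  rw [← coeff_zero_eq_eval_zero, coeff_iterate_derivative, zero_add, Nat.descFactorial_self,
    nsmul_eq_mul, abs_mul, Nat.abs_cast] at h
  rw [le_div_iff₀ (by positivity)]
  linarith

end Pool.Agent.QAA
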