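import Mathlib

/-!
QAA module EXP: extrapolation of a complex polynomial of degree `k` from the imaginary segment
`i[-1/2,1/2]` to the point `1`.

`k = 0`: `p` is constant. `k ≥ 1`: Lagrange interpolation at the `k+1` nodes
`z_j = I * θ_j`, `θ_j = -1/2 + j/k`, `j = 0..k` (`Lagrange.eq_interpolate_of_eval_eq` /
`Lagrange.interpolate` on `Finset.range (k+1)`, `degree p < k+1`): `p(1) = ∑_j p(z_j) ℓ_j(1)`,
`ℓ_j(1) = ∏_{i≠j} (1 - z_i)/(z_j - z_i)` (`Lagrange.basis`, `Lagrange.basisDivisor`).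
`|1 - z_i|^2 = 1 + θ_i^2 ≤ 5/4`, `|z_j - z_i| = |j - i|/k`, `∏_{i ≠ j, i ≤ k} |j-i| = j! (k-j)!`. So
`|p(1)| ≤ A ∑_j (5/4)^(k/2) k^k/(j!(k-j)!) = A (5/4)^(k/2) (k^k/k!) 2^k ≤ A (sqrt(5/4) * 2 * e)^k`
(`k^k/k! ≤ e^k`: `Real.pow_div_factorial_le_exp`; `∑ choose = 2^k`) and
`sqrt(5/4) * 2 e < 6.1` (`Real.exp_one_lt_d9`).
-/

set_option linter.dupNamespace false

namespace Pool.Agent.QAA

open Polynomial

private lemma prod_erase_dist (k j : ℕ) (hj : j ≤ k) :
    ∏ i ∈ (Finset.range (k + 1)).erase j, |((j : ℝ) - (i : ℝ))| =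
      (j.factorial : ℝ) * ((k - j).factorial : ℝ) := by
  have hsplit : (Finset.range (k + 1)).erase j =
      Finset.range j ∪ Finset.Ico (j + 1) (k + 1) := by
    ext i
    simp only [Finset.mem_erase, Finset.mem_range, Finset.mem_union, Finset.mem_Ico]
    omega
  have hdisj : Disjoint (Finset.range j) (Finset.Ico (j + 1) (k + 1)) := by
    rw [Finset.disjoint_left]
    intro i hi hi2
    simp only [Finset.mem_range, Finset.mem_Ico] at hi hi2
    omega
  rw [hsplit, Finset.prod_union hdisj]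
  congr 1
  · have h1 : ∀ i ∈ Finset.range j, |((j : ℝ) - (i : ℝ))| = ((j - 1 - i : ℕ) : ℝ) + 1 := by
      intro i hi
      rw [Finset.mem_range] at hi
      have h2 : ((j - 1 - i : ℕ) : ℝ) = (j : ℝ) - 1 - i := by
        rw [Nat.cast_sub (by omega), Nat.cast_sub (by omega)]
        push_cast; ring
      have h3 : (i : ℝ) + 1 ≤ j := by exact_mod_cast hi
      rw [h2, abs_of_nonneg (by linarith)]
      ring
    rw [Finset.prod_congr rfl h1, Finset.prod_range_reflect (fun i => (i : ℝ) + 1) j]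
    have := Finset.prod_range_add_one_eq_factorial j
    rw [← this]
    push_cast
    rfl
  · rw [Finset.prod_Ico_eq_prod_range]
    have h1 : ∀ i ∈ Finset.range (k + 1 - (j + 1)),
        |((j : ℝ) - ((j + 1 + i : ℕ) : ℝ))| = (i : ℝ) + 1 := by
      intro i _
      push_cast
      rw [abs_sub_comm, abs_of_nonneg]
      · ring
      · have : (0 : ℝ) ≤ i := Nat.cast_nonneg _
        linarith
    rw [Finset.prod_congr rfl h1]
    have h2 : k + 1 - (j + 1) = k - j := by omega
    rw [h2]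
    have := Finset.prod_range_add_one_eq_factorial (k - j)
    rw [← this]
    push_cast
    rfl

theorem extrap {k : ℕ} {p : ℂ[X]} (hdeg : p.natDegree ≤ k) {A : ℝ}
    (hA : ∀ θ : ℝ, |θ| ≤ 1 / 2 → ‖p.eval (Complex.I * (θ : ℂ))‖ ≤ A) :
    ‖p.eval 1‖ ≤ A * (61 / 10) ^ k := by
  rcases Nat.eq_zero_or_pos k with hk | hk
  · subst hk
    have h0 : p = C (p.coeff 0) := eq_C_of_natDegree_le_zero hdeg
    have h1 := hA 0 (by norm_num)
    rw [h0] at h1 ⊢
    simp only [eval_C] at h1 ⊢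
    simpa using h1
  have hkR : (0 : ℝ) < k := by exact_mod_cast hk
  have hkC : (k : ℂ) ≠ 0 := by exact_mod_cast hk.ne'
  set θ : ℕ → ℝ := fun j => -1 / 2 + (j : ℝ) / k with hθ
  set z : ℕ → ℂ := fun j => Complex.I * (θ j : ℂ) with hz
  have hA0 : 0 ≤ A := (norm_nonneg _).trans (hA 0 (by norm_num))
  have hzdiff : ∀ i j : ℕ, ‖z j - z i‖ = |((j : ℝ) - (i : ℝ))| / k := by
    intro i j
    have : z j - z i = Complex.I * (((j : ℝ) - (i : ℝ)) / k : ℝ) := by
      simp only [hz, hθ]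
      push_cast
      field_simp
      ring
    rw [this, norm_mul, Complex.norm_I, one_mul, Complex.norm_real, Real.norm_eq_abs, abs_div,
      abs_of_pos hkR]
  have hinj : Set.InjOn z (Finset.range (k + 1) : Set ℕ) := by
    intro i _ j _ hij
    have h := hzdiff j i
    rw [hij, sub_self, norm_zero] at h
    have h2 : |((i : ℝ) - (j : ℝ))| = 0 := by
      field_simp at h
      linarith
    have h3 : (i : ℝ) = j := by linarith [abs_eq_zero.1 h2]
    exact_mod_cast h3
  have hθb : ∀ j ∈ Finset.range (k + 1), |θ j| ≤ 1 / 2 := by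
    intro j hj
    rw [Finset.mem_range] at hj
    have h1 : (j : ℝ) ≤ k := by exact_mod_cast Nat.lt_succ_iff.1 hj
    have h2 : (0 : ℝ) ≤ (j : ℝ) / k := by positivity
    have h3 : (j : ℝ) / k ≤ 1 := (div_le_one hkR).2 h1
    simp only [hθ]
    rw [abs_le]
    constructor <;> linarith
  have hone : ∀ j ∈ Finset.range (k + 1), ‖(1 : ℂ) - z j‖ ≤ √(5 / 4) := by
    intro j hj
    have h1 := hθb j hj
    rw [Complex.norm_def]
    apply Real.sqrt_le_sqrt
    rw [Complex.normSq_apply]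
    have hre : ((1 : ℂ) - z j).re = 1 := by simp [hz]
    have him : ((1 : ℂ) - z j).im = -(θ j) := by simp [hz]
    rw [hre, him]
    have h2 := abs_le.1 h1
    nlinarith [h2.1, h2.2]
  have hint := Lagrange.eq_interpolate (s := Finset.range (k + 1)) (v := z) (f := p) hinj (by
    rw [Finset.card_range]
    exact (degree_le_of_natDegree_le hdeg).trans_lt (by exact_mod_cast Nat.lt_succ_self k))
  have heval : p.eval 1 = ∑ j ∈ Finset.range (k + 1),
      p.eval (z j) * (Lagrange.basis (Finset.range (k + 1)) z j).eval 1 := by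
    conv_lhs => rw [hint]
    rw [Lagrange.interpolate_apply, eval_finsetSum]
    apply Finset.sum_congr rfl
    intro j _
    rw [eval_mul, eval_C]
  have hbasis : ∀ j ∈ Finset.range (k + 1),
      ‖(Lagrange.basis (Finset.range (k + 1)) z j).eval 1‖ ≤
        (√(5 / 4) * k) ^ k / ((j.factorial : ℝ) * ((k - j).factorial : ℝ)) := by
    intro j hj
    have hjk : j ≤ k := Nat.lt_succ_iff.1 (Finset.mem_range.1 hj)
    have hcard : ((Finset.range (k + 1)).erase j).card = k := by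
      rw [Finset.card_erase_of_mem hj, Finset.card_range]; rfl
    rw [Lagrange.basis, eval_prod, norm_prod]
    have h1 : ∀ i ∈ (Finset.range (k + 1)).erase j,
        ‖eval 1 (Lagrange.basisDivisor (z j) (z i))‖ ≤
          (√(5 / 4) * k) * |((j : ℝ) - (i : ℝ))|⁻¹ := by
      intro i hi
      have hi2 := Finset.mem_of_mem_erase hi
      have hne : |((j : ℝ) - (i : ℝ))| ≠ 0 := by
        rw [abs_ne_zero, sub_ne_zero]
        intro h
        exact (Finset.ne_of_mem_erase hi) (by exact_mod_cast h.symm)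
      rw [Lagrange.basisDivisor, eval_mul, eval_C, eval_sub, eval_X, eval_C, norm_mul, norm_inv,
        hzdiff]
      have h2 := hone i hi2
      calc (|((j : ℝ) - (i : ℝ))| / k)⁻¹ * ‖(1 : ℂ) - z i‖
          ≤ (|((j : ℝ) - (i : ℝ))| / k)⁻¹ * √(5 / 4) := by gcongr
        _ = (√(5 / 4) * k) * |((j : ℝ) - (i : ℝ))|⁻¹ := by
          rw [inv_div]; field_simp
    calc ∏ i ∈ (Finset.range (k + 1)).erase j, ‖eval 1 (Lagrange.basisDivisor (z j) (z i))‖
        ≤ ∏ i ∈ (Finset.range (k + 1)).erase j, ((√(5 / 4) * k) * |((j : ℝ) - (i : ℝ))|⁻¹) :=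
          Finset.prod_le_prod (fun _ _ => norm_nonneg _) h1
      _ = (√(5 / 4) * k) ^ k / ((j.factorial : ℝ) * ((k - j).factorial : ℝ)) := by
          rw [Finset.prod_mul_distrib, Finset.prod_const, hcard, Finset.prod_inv_distrib,
            prod_erase_dist k j hjk]
          exact (div_eq_mul_inv _ _).symm
  have hsum : ‖p.eval 1‖ ≤ ∑ j ∈ Finset.range (k + 1),
      A * ((√(5 / 4) * k) ^ k / ((j.factorial : ℝ) * ((k - j).factorial : ℝ))) := by
    rw [heval]
    refine (norm_sum_le _ _).trans (Finset.sum_le_sum fun j hj => ?_)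
    rw [norm_mul]
    exact mul_le_mul (hA _ (hθb j hj)) (hbasis j hj) (norm_nonneg _) hA0
  have hchoose : ∑ j ∈ Finset.range (k + 1),
      A * ((√(5 / 4) * k) ^ k / ((j.factorial : ℝ) * ((k - j).factorial : ℝ))) =
      A * ((√(5 / 4) * k) ^ k / (k.factorial : ℝ) * 2 ^ k) := by
    rw [← Finset.mul_sum]
    congr 1
    have h2 : ((2 : ℝ) ^ k) = ∑ j ∈ Finset.range (k + 1), ((k.choose j : ℕ) : ℝ) := by
      have := Nat.sum_range_choose k
      exact_mod_cast this.symm
    rw [h2, Finset.mul_sum]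
    apply Finset.sum_congr rfl
    intro j hj
    have hjk : j ≤ k := Nat.lt_succ_iff.1 (Finset.mem_range.1 hj)
    rw [Nat.cast_choose ℝ hjk]
    have hf1 : ((k.factorial : ℕ) : ℝ) ≠ 0 := by positivity
    have hf2 : ((j.factorial : ℕ) : ℝ) ≠ 0 := by positivity
    have hf3 : (((k - j).factorial : ℕ) : ℝ) ≠ 0 := by positivity
    field_simp
  have hexp : (k : ℝ) ^ k / (k.factorial : ℝ) ≤ Real.exp 1 ^ k := by
    have := Real.pow_div_factorial_le_exp (k : ℝ) hkR.le k
    rwa [← Real.exp_one_pow] at this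
  have hnum : √(5 / 4) * Real.exp 1 * 2 ≤ 61 / 10 := by
    have h1 : √(5 / 4 : ℝ) ≤ 1.1181 := by
      rw [Real.sqrt_le_left (by norm_num)]
      norm_num
    have h2 := Real.exp_one_lt_d9
    have h3 : (0 : ℝ) < Real.exp 1 := Real.exp_pos 1
    nlinarith [Real.sqrt_nonneg (5 / 4 : ℝ)]
  calc ‖p.eval 1‖ ≤ A * ((√(5 / 4) * k) ^ k / (k.factorial : ℝ) * 2 ^ k) := by
        rw [← hchoose]; exact hsum
    _ = A * (√(5 / 4) ^ k * ((k : ℝ) ^ k / (k.factorial : ℝ)) * 2 ^ k) := by
        rw [mul_pow, mul_div_assoc]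
    _ ≤ A * (√(5 / 4) ^ k * (Real.exp 1 ^ k) * 2 ^ k) := by gcongr
    _ = A * (√(5 / 4) * Real.exp 1 * 2) ^ k := by rw [mul_pow, mul_pow]
    _ ≤ A * (61 / 10) ^ k := by gcongr

end Pool.Agent.QAA
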