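import Mathlib
import Pool.Agent.SUB.Ent
import Pool.Agent.SUB.Ex
import Pool.Agent.SUB.KLReal

/-!
QAA module GPO: the polynomial `G(s) = ex (Q * ∏_{a ∈ S} (1 + s b_a x_a))`.

* `Gp_eval`: `∏_{a∈S} (1 + s b_a x_a) = ∑_{A ⊆ S} s^|A| (∏_{A} b_a) chi A x`
  (`Finset.prod_one_add` / `Finset.prod_add`), `ex (Q * chi A) = coef Q A` (definition of `coef`; see
  `coef` in `Helper11.Cube`).
* `Gp_natDegree`: the terms with `|A| > D` vanish.
* `Gp_abs_le`: for `|s| ≤ R` all factors `1 + s b_a x_a` are `≥ 0`, the product has expectation `1`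
  (`ex_q` in `SUB.Ent`, private there: redo it with `sum_prod_cube`), and `0 ≤ Q ≤ 1`.
-/

set_option linter.dupNamespace false

namespace Pool.Agent.QAA

open Finset Polynomial Pool.Agent.Helper11.Cube Pool.Agent.Helper11.AA Pool.Agent.SUB

variable {n : ℕ}

/-- The polynomial `s ↦ ex (Q * ∏_{a ∈ S} (1 + s b_a x_a))`. -/
noncomputable def Gp (Q : Cube n → ℝ) (S : Finset (Fin n)) (b : Fin n → ℝ) : ℝ[X] :=
  ∑ A ∈ S.powerset, C ((∏ a ∈ A, b a) * coef Q A) * X ^ A.card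

lemma Gp_natDegree {Q : Cube n → ℝ} {D : ℕ} (hQ : DegLE Q D) (S : Finset (Fin n))
    (b : Fin n → ℝ) : (Gp Q S b).natDegree ≤ D := by
  unfold Gp
  refine Polynomial.natDegree_sum_le_of_forall_le _ _ fun A _ => ?_
  by_cases hA : A.card ≤ D
  · exact (Polynomial.natDegree_C_mul_X_pow_le _ _).trans hA
  · have h0 : coef Q A = 0 := hQ A (not_le.1 hA)
    rw [h0]
    simp

private lemma prod_expand (S : Finset (Fin n)) (b : Fin n → ℝ) (s : ℝ) (x : Cube n) :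
    ∏ a ∈ S, (1 + s * b a * ((x a : ℤ) : ℝ)) =
      ∑ A ∈ S.powerset, (∏ a ∈ A, b a) * s ^ A.card * chi A x := by
  rw [Finset.prod_one_add]
  refine Finset.sum_congr rfl fun A _ => ?_
  rw [Finset.prod_mul_distrib, Finset.prod_mul_distrib, Finset.prod_const]
  unfold chi
  ring

lemma Gp_eval (Q : Cube n → ℝ) (S : Finset (Fin n)) (b : Fin n → ℝ) (s : ℝ) :
    (Gp Q S b).eval s = ex (fun x => Q x * ∏ a ∈ S, (1 + s * b a * ((x a : ℤ) : ℝ))) := by
  unfold Gp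
  rw [Polynomial.eval_finsetSum]
  have h1 : (fun x : Cube n => Q x * ∏ a ∈ S, (1 + s * b a * ((x a : ℤ) : ℝ))) =
      fun x => ∑ A ∈ S.powerset, ((∏ a ∈ A, b a) * s ^ A.card) * (Q x * chi A x) := by
    funext x
    rw [prod_expand, Finset.mul_sum]
    refine Finset.sum_congr rfl fun A _ => ?_
    ring
  rw [h1, ex_sum]
  refine Finset.sum_congr rfl fun A _ => ?_
  rw [ex_const_mul]
  simp only [eval_mul, eval_C, eval_pow, eval_X]
  unfold coef
  ring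

lemma Gp_zero (Q : Cube n → ℝ) (S : Finset (Fin n)) (b : Fin n → ℝ) :
    (Gp Q S b).eval 0 = ex Q := by
  rw [Gp_eval]
  simp

private lemma ex_q' (b : Fin n → ℝ) (C : Finset (Fin n)) :
    ex (fun x : Cube n => ∏ a ∈ C, (1 + b a * ((x a : ℤ) : ℝ))) = 1 := by
  have h1 : ∀ x : Cube n, ∏ a ∈ C, (1 + b a * ((x a : ℤ) : ℝ))
      = ∏ a, (if a ∈ C then (1 + b a * ((x a : ℤ) : ℝ)) else 1) := by
    intro x
    rw [Finset.prod_ite_mem, Finset.univ_inter]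
  unfold ex
  have h2 : ∑ x : Cube n, ∏ a ∈ C, (1 + b a * ((x a : ℤ) : ℝ)) = (2 : ℝ) ^ n := by
    rw [Finset.sum_congr rfl (fun x _ => h1 x),
      sum_prod_cube (fun a u => if a ∈ C then (1 + b a * ((u : ℤ) : ℝ)) else 1)]
    have h3 : ∀ a ∈ (univ : Finset (Fin n)),
        ((if a ∈ C then (1 + b a * (((1 : ℤˣ) : ℤ) : ℝ)) else 1)
          + (if a ∈ C then (1 + b a * (((-1 : ℤˣ) : ℤ) : ℝ)) else 1)) = (2 : ℝ) := by
      intro a _
      split_ifs
      · push_cast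
        ring
      · norm_num
    rw [Finset.prod_congr rfl h3, Finset.prod_const, Finset.card_univ, Fintype.card_fin]
  rw [h2]
  exact div_self (two_pow_pos n).ne'

lemma Gp_abs_le {Q : Cube n → ℝ} (hQ0 : ∀ x, 0 ≤ Q x) (hQ1 : ∀ x, Q x ≤ 1)
    (S : Finset (Fin n)) (b : Fin n → ℝ) {R : ℝ} (hb : ∀ a ∈ S, |b a| * R ≤ 1) (s : ℝ)
    (hs : |s| ≤ R) : |(Gp Q S b).eval s| ≤ 1 := by
  have hfac : ∀ (x : Cube n), ∀ a ∈ S, 0 ≤ 1 + s * b a * ((x a : ℤ) : ℝ) := by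
    intro x a ha
    have h1 : |s * b a| ≤ 1 := by
      rw [abs_mul]
      calc |s| * |b a| ≤ R * |b a| := mul_le_mul_of_nonneg_right hs (abs_nonneg _)
        _ = |b a| * R := mul_comm _ _
        _ ≤ 1 := hb a ha
    have h2 := abs_le.1 h1
    rcases Int.units_eq_one_or (x a) with h | h
    · rw [h]; push_cast; linarith [h2.1]
    · rw [h]; push_cast; linarith [h2.2]
  have hprod : ∀ x : Cube n, 0 ≤ ∏ a ∈ S, (1 + s * b a * ((x a : ℤ) : ℝ)) := fun x =>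
    Finset.prod_nonneg (hfac x)
  rw [Gp_eval, abs_of_nonneg (ex_nonneg fun x => mul_nonneg (hQ0 x) (hprod x))]
  calc ex (fun x => Q x * ∏ a ∈ S, (1 + s * b a * ((x a : ℤ) : ℝ))) ≤
      ex (fun x => ∏ a ∈ S, (1 + s * b a * ((x a : ℤ) : ℝ))) :=
        ex_mono fun x => mul_le_of_le_one_left (hprod x) (hQ1 x)
    _ = 1 := ex_q' (fun a => s * b a) S
    _ ≤ 1 := le_refl _

end Pool.Agent.QAA
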