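import Mathlib
import Pool.Agent.QAA.GPoly

/-!
QAA module GPC: the polynomial `G` on the imaginary axis.

* `Gp_norm_le`: the complex evaluation at `I θ` is
  `(∑_x Q x ∏_{a∈S} (1 + I θ b_a x_a))/2^n` (same computation over `ℂ`; or map the polynomial
  identity), `|1 + I θ b x| = sqrt (1 + θ^2 b^2) ≤ exp (θ^2 b^2/2)` (`Real.add_one_le_exp`),
  triangle inequality.
-/

set_option linter.dupNamespace false

namespace Pool.Agent.QAA

open Finset Polynomial Pool.Agent.Helper11.Cube Pool.Agent.Helper11.AA Pool.Agent.SUB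

variable {n : ℕ}

private lemma norm_factor (t : ℝ) : ‖(1 : ℂ) + Complex.I * (t : ℂ)‖ ≤ Real.exp (t ^ 2 / 2) := by
  refine (pow_le_pow_iff_left₀ (norm_nonneg _) (Real.exp_pos _).le two_ne_zero).1 ?_
  rw [Complex.sq_norm, Complex.normSq_apply, ← Real.exp_nat_mul]
  simp only [Complex.add_re, Complex.one_re, Complex.mul_re, Complex.I_re, Complex.ofReal_re,
    Complex.I_im, Complex.ofReal_im, Complex.add_im, Complex.one_im, Complex.mul_im]
  have h := Real.add_one_le_exp (t ^ 2)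
  have e : ((2 : ℕ) : ℝ) * (t ^ 2 / 2) = t ^ 2 := by push_cast; ring
  rw [e]
  nlinarith

private lemma Gp_eval_complex (Q : Cube n → ℝ) (S : Finset (Fin n)) (b : Fin n → ℝ) (s : ℂ) :
    ((Gp Q S b).map (algebraMap ℝ ℂ)).eval s
      = (∑ x : Cube n, (Q x : ℂ) * ∏ a ∈ S, (1 + s * (b a : ℂ) * ((x a : ℤ) : ℂ)))
        / (2 : ℂ) ^ n := by
  have h1 : ∀ x : Cube n, ∏ a ∈ S, (1 + s * (b a : ℂ) * ((x a : ℤ) : ℂ)) =
      ∑ A ∈ S.powerset, ((∏ a ∈ A, (b a : ℂ)) * s ^ A.card) * ((chi A x : ℝ) : ℂ) := by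
    intro x
    rw [Finset.prod_one_add]
    refine Finset.sum_congr rfl fun A _ => ?_
    rw [Finset.prod_mul_distrib, Finset.prod_mul_distrib, Finset.prod_const]
    unfold chi
    push_cast
    ring
  unfold Gp
  rw [Polynomial.map_sum, Polynomial.eval_finsetSum]
  simp only [h1, Finset.mul_sum]
  rw [Finset.sum_comm, Finset.sum_div]
  refine Finset.sum_congr rfl fun A _ => ?_
  unfold coef ex
  simp only [Polynomial.map_mul, Polynomial.map_C, Polynomial.map_pow, Polynomial.map_X, eval_mul,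
    eval_C, eval_pow, eval_X, Complex.coe_algebraMap]
  push_cast
  rw [mul_div_assoc', div_mul_eq_mul_div]
  congr 1
  rw [Finset.mul_sum, Finset.sum_mul]
  refine Finset.sum_congr rfl fun x _ => ?_
  ring

lemma Gp_norm_le {Q : Cube n → ℝ} (hQ0 : ∀ x, 0 ≤ Q x) (S : Finset (Fin n)) (b : Fin n → ℝ)
    (θ : ℝ) :
    ‖((Gp Q S b).map (algebraMap ℝ ℂ)).eval (Complex.I * (θ : ℂ))‖
      ≤ ex Q * Real.exp (θ ^ 2 * (∑ a ∈ S, b a ^ 2) / 2) := by
  rw [Gp_eval_complex, norm_div, norm_pow]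
  have h2 : ‖(2 : ℂ)‖ = 2 := by norm_num
  rw [h2]
  unfold ex
  rw [div_mul_eq_mul_div]
  refine div_le_div_of_nonneg_right ?_ (by positivity)
  rw [Finset.sum_mul]
  refine (norm_sum_le _ _).trans (Finset.sum_le_sum fun x _ => ?_)
  rw [norm_mul, Complex.norm_real, Real.norm_of_nonneg (hQ0 x)]
  refine mul_le_mul_of_nonneg_left ?_ (hQ0 x)
  rw [norm_prod]
  have h3 : Real.exp (θ ^ 2 * (∑ a ∈ S, b a ^ 2) / 2) = ∏ a ∈ S, Real.exp ((θ * b a) ^ 2 / 2) := by
    rw [← Real.exp_sum]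
    congr 1
    rw [Finset.mul_sum, Finset.sum_div]
    refine Finset.sum_congr rfl fun a _ => ?_
    ring
  rw [h3]
  refine Finset.prod_le_prod (fun a _ => norm_nonneg _) fun a _ => ?_
  have h4 : (1 : ℂ) + Complex.I * (θ : ℂ) * (b a : ℂ) * ((x a : ℤ) : ℂ)
      = 1 + Complex.I * ((θ * b a * ((x a : ℤ) : ℝ) : ℝ) : ℂ) := by
    push_cast
    ring
  rw [h4]
  refine (norm_factor _).trans (le_of_eq ?_)
  congr 1
  have h5 := unit_sq (x a)
  have h6 : (θ * b a * ((x a : ℤ) : ℝ)) ^ 2 = (θ * b a) ^ 2 * (((x a : ℤ) : ℝ) * ((x a : ℤ) : ℝ)) := by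
    ring
  rw [h6, h5, mul_one]

end Pool.Agent.QAA
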