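import Mathlib
import Pool.Agent.QAA.GPoly

/-!
QAA module GPJ: lower bound for `G(1)` (Jensen).

* `Gp_one_ge`: `ex (Q ∏ (1 + b_a x_a))`; put `t x = ∑_{a∈S} log (1 + b_a x_a)` (all factors are
  positive, `∏ = exp t`), `Y = ∑_S KL b_a`. `exp t ≥ exp Y (1 + t - Y)`; multiply by `Q x ≥ 0` and
  take `ex`: `ex (Q exp t) ≥ exp Y (ex Q + ex (Q t) - Y ex Q) = exp Y ex Q`, because
  `ex (Q log (1 + b_a x_a)) = ex Q * KL b_a`:
  `log (1 + b x) = (log(1+b) + log(1-b))/2 + x (log(1+b) - log(1-b))/2`, `ex (x_a Q) = b_a ex Q`.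
-/

set_option linter.dupNamespace false

namespace Pool.Agent.QAA

open Finset Polynomial Pool.Agent.Helper11.Cube Pool.Agent.Helper11.AA Pool.Agent.SUB

variable {n : ℕ}

private lemma log_one_add' (b : ℝ) (u : ℤˣ) :
    Real.log (1 + b * ((u : ℤ) : ℝ))
      = (Real.log (1 + b) + Real.log (1 - b)) / 2
        + (Real.log (1 + b) - Real.log (1 - b)) / 2 * ((u : ℤ) : ℝ) := by
  rcases Int.units_eq_one_or u with rfl | rfl
  · push_cast
    rw [mul_one, mul_one]
    ring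
  · push_cast
    rw [mul_neg_one, mul_neg_one, ← sub_eq_add_neg]
    ring

lemma Gp_one_ge {Q : Cube n → ℝ} (hQ0 : ∀ x, 0 ≤ Q x) (hP : 0 < ex Q) (S : Finset (Fin n))
    (b : Fin n → ℝ) (hb : ∀ a ∈ S, b a = bias Q a) (hb1 : ∀ a ∈ S, |b a| < 1) :
    ex Q * Real.exp (∑ a ∈ S, KL (b a)) ≤ (Gp Q S b).eval 1 := by
  set Y : ℝ := ∑ a ∈ S, KL (b a) with hY
  have hpos : ∀ (x : Cube n), ∀ a ∈ S, 0 < 1 + b a * ((x a : ℤ) : ℝ) := by
    intro x a ha
    have h2 := abs_lt.1 (hb1 a ha)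
    rcases Int.units_eq_one_or (x a) with h | h
    · rw [h]; push_cast; linarith [h2.1]
    · rw [h]; push_cast; linarith [h2.2]
  have hbx : ∀ a ∈ S, ex (fun x => Q x * ((x a : ℤ) : ℝ)) = b a * ex Q := by
    intro a ha
    rw [hb a ha]
    unfold bias
    rw [div_mul_cancel₀ _ hP.ne']
    congr 1
    funext x
    ring
  have ht : ex (fun x => Q x * ∑ a ∈ S, Real.log (1 + b a * ((x a : ℤ) : ℝ))) = Y * ex Q := by
    have h1 : (fun x : Cube n => Q x * ∑ a ∈ S, Real.log (1 + b a * ((x a : ℤ) : ℝ)))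
        = (fun x => ∑ a ∈ S, Q x * Real.log (1 + b a * ((x a : ℤ) : ℝ))) := by
      funext x
      rw [Finset.mul_sum]
    rw [h1, ex_sum, hY, Finset.sum_mul]
    refine Finset.sum_congr rfl fun a ha => ?_
    have h2 : (fun x : Cube n => Q x * Real.log (1 + b a * ((x a : ℤ) : ℝ)))
        = (fun x => (Real.log (1 + b a) + Real.log (1 - b a)) / 2 * Q x
          + (Real.log (1 + b a) - Real.log (1 - b a)) / 2 * (Q x * ((x a : ℤ) : ℝ))) := by
      funext x
      rw [log_one_add']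
      ring
    rw [h2, ex_add, ex_const_mul, ex_const_mul, hbx a ha, show ex (fun x => Q x) = ex Q from rfl]
    unfold KL
    ring
  have hlow : ex (fun x => Real.exp Y * ((1 - Y) * Q x
      + Q x * ∑ a ∈ S, Real.log (1 + b a * ((x a : ℤ) : ℝ)))) ≤ (Gp Q S b).eval 1 := by
    rw [Gp_eval]
    refine ex_mono fun x => ?_
    have h1 : ∏ a ∈ S, (1 + 1 * b a * ((x a : ℤ) : ℝ))
        = Real.exp (∑ a ∈ S, Real.log (1 + b a * ((x a : ℤ) : ℝ))) := by
      rw [Real.exp_sum]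
      refine Finset.prod_congr rfl fun a ha => ?_
      rw [Real.exp_log (hpos x a ha), one_mul]
    rw [h1]
    set t : ℝ := ∑ a ∈ S, Real.log (1 + b a * ((x a : ℤ) : ℝ))
    have h2 : Real.exp Y * (t - Y + 1) ≤ Real.exp t := by
      have h3 := Real.add_one_le_exp (t - Y)
      have h4 : Real.exp t = Real.exp Y * Real.exp (t - Y) := by
        rw [← Real.exp_add]
        congr 1
        ring
      rw [h4]
      exact mul_le_mul_of_nonneg_left h3 (Real.exp_pos _).le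
    calc Real.exp Y * ((1 - Y) * Q x + Q x * t) = Q x * (Real.exp Y * (t - Y + 1)) := by ring
      _ ≤ Q x * Real.exp t := mul_le_mul_of_nonneg_left h2 (hQ0 x)
  refine le_trans (le_of_eq ?_) hlow
  rw [ex_const_mul, ex_add, ex_const_mul, ht, show ex (fun x => Q x) = ex Q from rfl]
  ring

end Pool.Agent.QAA
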