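import Mathlib
import Pool.Agent.QAA.Lap
import Pool.Agent.SUB.AvgBasic

/-!
QAA module GRO: growth of `Ps` under a local inequality.

`Ps_growth`: with `Ψ t = Ps γ t f`: for `t ≥ 0`, `s = 1 - exp(-t) ∈ [0,1]`, all restrictions
`x ↦ f (mix S y x)` are `Bdd d` (`bdd_mix`), so by `avg_mono`, `avg_add`, `avg_const_mul`,
`avg_const` and `hasDerivAt_Ps`: `Ψ' t ≤ exp t (κ avg (Fi γ) f + E) = κ Ψ t + exp t E`. The function
`φ t = exp(-κ t) Ψ t - t exp(u) E` has `φ' t ≤ exp(-κ t) exp t E - exp u E ≤ 0` for `0 ≤ t ≤ u`, so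
`φ u ≤ φ 0` (`antitoneOn_of_deriv_nonpos` on `[0,u]`), i.e. `Ψ u ≤ exp(κ u) (Ψ 0 + u exp(u) E)`.
`Ps_zero`: `avg_zero`.
-/

set_option linter.dupNamespace false

namespace Pool.Agent.QAA

open Finset Pool.Agent.Helper11.Cube Pool.Agent.Helper11.AA Pool.Agent.SUB

variable {n d : ℕ}

lemma Ps_zero (γ : ℝ) (f : Cube n → ℝ) : Ps γ 0 f = Fi γ f := by
  unfold Ps
  rw [Real.exp_zero, neg_zero, Real.exp_zero, sub_self, avg_zero, one_mul]

theorem Ps_growth {f : Cube n → ℝ} (hf : Bdd d f) {γ κ E : ℝ} (hγ : 0 ≤ γ) (hκ : 0 ≤ κ)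
    (hE : 0 ≤ E)
    (hloc : ∀ g : Cube n → ℝ, Bdd d g →
      ∑ w, Iw g w ^ (1 + γ) * ∑ a, phi γ (bw g w a) ≤ κ * Fi γ g + E) {u : ℝ} (hu : 0 ≤ u) :
    Ps γ u f ≤ Real.exp (κ * u) * (Fi γ f + u * Real.exp u * E) := by
  -- the derivative bound
  have hder : ∀ t : ℝ, 0 ≤ t → Real.exp t * avg (1 - Real.exp (-t))
      (fun g => ∑ w, Iw g w ^ (1 + γ) * ∑ a, phi γ (bw g w a)) f
      ≤ κ * Ps γ t f + Real.exp t * E := by
    intro t ht
    have hs0 : 0 ≤ 1 - Real.exp (-t) := by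
      have : Real.exp (-t) ≤ 1 := Real.exp_le_one_iff.2 (by linarith)
      linarith
    have hs1 : 1 - Real.exp (-t) ≤ 1 := by
      have := Real.exp_pos (-t)
      linarith
    have h1 : avg (1 - Real.exp (-t))
        (fun g => ∑ w, Iw g w ^ (1 + γ) * ∑ a, phi γ (bw g w a)) f
        ≤ avg (1 - Real.exp (-t)) (fun g => κ * Fi γ g + E) f :=
      avg_mono hs0 hs1 fun S y => hloc _ (bdd_mix hf S y)
    have h2 : avg (1 - Real.exp (-t)) (fun g => κ * Fi γ g + E) f
        = κ * avg (1 - Real.exp (-t)) (Fi γ) f + E := by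
      rw [avg_add (1 - Real.exp (-t)) (fun g => κ * Fi γ g) (fun _ => E) f, avg_const_mul,
        avg_const]
    rw [h2] at h1
    have h3 := mul_le_mul_of_nonneg_left h1 (Real.exp_pos t).le
    unfold Ps
    linarith
  -- the monotone function
  set φ : ℝ → ℝ := fun t => Real.exp (-κ * t) * Ps γ t f - t * (Real.exp u * E) with hφ
  have hφd : ∀ t : ℝ, HasDerivAt φ (Real.exp (-κ * t) * (-κ) * Ps γ t f
      + Real.exp (-κ * t) * (Real.exp t * avg (1 - Real.exp (-t))
        (fun g => ∑ w, Iw g w ^ (1 + γ) * ∑ a, phi γ (bw g w a)) f)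
      - 1 * (Real.exp u * E)) t := by
    intro t
    have h1 : HasDerivAt (fun t : ℝ => Real.exp (-κ * t)) (Real.exp (-κ * t) * (-κ)) t := by
      have h2 : HasDerivAt (fun t : ℝ => -κ * t) (-κ) t := by
        simpa using (hasDerivAt_id t).const_mul (-κ)
      exact h2.exp
    exact (h1.mul (hasDerivAt_Ps hγ f t)).sub ((hasDerivAt_id t).mul_const _)
  have hanti : AntitoneOn φ (Set.Icc 0 u) := by
    refine antitoneOn_of_deriv_nonpos (convex_Icc 0 u) ?_ ?_ ?_
    · exact fun t _ => (hφd t).continuousAt.continuousWithinAt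
    · exact fun t _ => (hφd t).differentiableAt.differentiableWithinAt
    · intro t ht
      rw [interior_Icc] at ht
      rw [(hφd t).deriv]
      have h1 := hder t ht.1.le
      have h2 := mul_le_mul_of_nonneg_left h1 (Real.exp_pos (-κ * t)).le
      have h3 : Real.exp (-κ * t) ≤ 1 := Real.exp_le_one_iff.2 (by nlinarith [ht.1])
      have h4 : Real.exp t * E ≤ Real.exp u * E :=
        mul_le_mul_of_nonneg_right (Real.exp_le_exp.2 ht.2.le) hE
      have h5 : Real.exp (-κ * t) * (Real.exp t * E) ≤ 1 * (Real.exp t * E) :=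
        mul_le_mul_of_nonneg_right h3 (by positivity)
      nlinarith
  have h1 := hanti (Set.left_mem_Icc.2 hu) (Set.right_mem_Icc.2 hu) hu
  simp only [hφ] at h1
  rw [mul_zero, Real.exp_zero, one_mul, zero_mul, sub_zero, Ps_zero] at h1
  have h2 : Real.exp (-κ * u) * Ps γ u f ≤ Fi γ f + u * Real.exp u * E := by linarith
  have h3 := mul_le_mul_of_nonneg_left h2 (Real.exp_pos (κ * u)).le
  rw [← mul_assoc, ← Real.exp_add, show κ * u + -κ * u = 0 by ring, Real.exp_zero, one_mul] at h3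
  exact h3

end Pool.Agent.QAA
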