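import Mathlib
import Pool.Agent.QAA.EPlant
import Pool.Agent.SUB.Ex
import Pool.Agent.SUB.Hw

/-!
QAA module PL1: choice of the level and of the starting point.

`exists_level`. (1) `ex_v EP (gs f w (mix (C w) x v)) = (∑_{w∈W} ex_x (gs w x * ex_v (gs w (mix (C w) x v))))/m
= (∑_{w∈W} ex ((E[gs w | x_{C w}])^2))/m ≥ G` (`ex_EP`, `ex_mix_mul` with
`φ x = ex_z (gs f w (mix (C w) x z))`; note `mix C (mix C x z) z' = mix C x z'`).
(2) pointwise `gs f w z ≤ (1/4)^J + ∑_{j ∈ Icc 1 J} 4 (1/4)^j * hw ((1/2)^(j+1)) p f w z`: let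
`t = |D_w f z| ≤ 1`. If `t < (1/2)^J` clear. Else there is `j ∈ Icc 1 J` with
`(1/2)^j ≤ t ≤ 2 (1/2)^j` (least `j ≥ 1` with `(1/2)^j ≤ t`), `t^2 ≤ 4 (1/4)^j` and
`hw ((1/2)^(j+1)) = 1` (`cut_eq_one`, `2 (1/2)^(j+1) = (1/2)^j ≤ t`).
(3) So `G ≤ (1/4)^J + ∑_j 4 (1/4)^j ex_v RP_j(v)`, `(1/4)^J ≤ G/2`: some `j` has
`4 (1/4)^j ex_v RP_j ≥ G/(2J)`, i.e. `ex RP_j ≥ G 4^j/(8 J) = G/(32 J ((1/2)^(j+1))^2)`, and some `v`
is at least the mean (`exists_ex_le`).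
-/

set_option linter.dupNamespace false

namespace Pool.Agent.QAA

open Finset Pool.Agent.Helper11.Cube Pool.Agent.Helper11.AA Pool.Agent.SUB

variable {n d p : ℕ} {f : Cube n → ℝ} {W : Finset (Fin n)} {C : Fin n → Finset (Fin n)}

lemma gs_le_levels (hf : Bdd d f) (hp : 1 ≤ p) (J : ℕ) (w : Fin n) (z : Cube n) :
    gs f w z ≤ (1 / 4 : ℝ) ^ J
      + ∑ j ∈ Finset.Icc 1 J, 4 * (1 / 4 : ℝ) ^ j * hw ((1 / 2 : ℝ) ^ (j + 1)) p f w z := by
  set t : ℝ := |discreteDeriv w f z| with ht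
  have ht0 : 0 ≤ t := abs_nonneg _
  have ht1 : t ≤ 1 := (bdd_deriv hf w).2 z
  have hgs : gs f w z = t ^ 2 := by
    unfold gs
    rw [ht, sq_abs]
  have hnn : ∀ j ∈ Finset.Icc 1 J,
      0 ≤ 4 * (1 / 4 : ℝ) ^ j * hw ((1 / 2 : ℝ) ^ (j + 1)) p f w z := by
    intro j _
    exact mul_nonneg (by positivity) (hw_nonneg f w z)
  have h4 : ∀ j : ℕ, (1 / 4 : ℝ) ^ j = ((1 / 2 : ℝ) ^ j) ^ 2 := by
    intro j
    rw [← pow_mul, mul_comm j 2, pow_mul]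
    norm_num
  rw [hgs]
  rcases le_or_gt t ((1 / 2 : ℝ) ^ J) with hlt | hlt
  · have h1 : t ^ 2 ≤ (1 / 4 : ℝ) ^ J := by
      rw [h4]
      exact pow_le_pow_left₀ ht0 hlt 2
    have h2 := Finset.sum_nonneg hnn
    linarith
  · classical
    have hJ : J ≠ 0 := by
      rintro rfl
      rw [pow_zero] at hlt
      linarith
    have hex : ∃ j : ℕ, (1 / 2 : ℝ) ^ j ≤ t := ⟨J, hlt.le⟩
    have hspec := Nat.find_spec hex
    have hle : Nat.find hex ≤ J := Nat.find_min' hex hlt.le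
    -- a level `j` with `(1/2)^j ≤ t ≤ 2 (1/2)^j`
    have hj : ∃ j ∈ Finset.Icc 1 J, (1 / 2 : ℝ) ^ j ≤ t ∧ t ≤ 2 * (1 / 2 : ℝ) ^ j := by
      rcases Nat.eq_zero_or_pos (Nat.find hex) with h0 | h0
      · rw [h0, pow_zero] at hspec
        refine ⟨1, Finset.mem_Icc.2 ⟨le_rfl, Nat.one_le_iff_ne_zero.2 hJ⟩, ?_, ?_⟩
        · rw [pow_one]; linarith
        · rw [pow_one]; linarith
      · refine ⟨Nat.find hex, Finset.mem_Icc.2 ⟨h0, hle⟩, hspec, ?_⟩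
        have hmin := Nat.find_min hex (m := Nat.find hex - 1) (by omega)
        push Not at hmin
        have h1 : (1 / 2 : ℝ) ^ (Nat.find hex - 1) = 2 * (1 / 2 : ℝ) ^ (Nat.find hex) := by
          obtain ⟨j, hj⟩ : ∃ j, Nat.find hex = j + 1 := ⟨Nat.find hex - 1, by omega⟩
          rw [hj, Nat.add_sub_cancel, pow_succ]
          ring
        rw [← h1]
        exact hmin.le
    obtain ⟨j, hj, hj1, hj2⟩ := hj
    have hw1 : hw ((1 / 2 : ℝ) ^ (j + 1)) p f w z = 1 := by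
      unfold hw
      refine cut_eq_one (by positivity) ?_
      rw [pow_succ]
      linarith
    have hsingle := Finset.single_le_sum hnn hj
    rw [hw1, mul_one, h4] at hsingle
    have h5 : t ^ 2 ≤ 4 * ((1 / 2 : ℝ) ^ j) ^ 2 := by
      have h6 := pow_le_pow_left₀ ht0 hj2 2
      rw [mul_pow] at h6
      linarith
    have h7 : (0 : ℝ) ≤ (1 / 4 : ℝ) ^ J := by positivity
    linarith

theorem exists_level (hf : Bdd d f) (hm : 0 < ∑ w ∈ W, Iw f w) (hp : 1 ≤ p) {G : ℝ}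
    (hG0 : 0 < G)
    (hG : ∀ w ∈ W, G * Iw f w ≤ ex (fun x => ex (fun z => gs f w (mix (C w) x z)) ^ 2))
    {J : ℕ} (hJ : 1 ≤ J) (hJG : (1 / 4 : ℝ) ^ J ≤ G / 2) :
    ∃ j ∈ Finset.Icc 1 J, ∃ v,
      G / (32 * J * ((1 / 2 : ℝ) ^ (j + 1)) ^ 2) ≤ RP ((1 / 2 : ℝ) ^ (j + 1)) p f W C v := by
  -- (1) the mean of `EP gs`
  have h1 : G ≤ ex (fun v => EP f W (fun w x => gs f w (mix (C w) x v))) := by
    rw [ex_EP]
    unfold EP
    rw [le_div_iff₀ hm, Finset.mul_sum]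
    refine Finset.sum_le_sum fun w hw => ?_
    refine (hG w hw).trans (le_of_eq ?_)
    have h2 := ex_mix_mul (C w) (gs f w) (fun x => ex (fun z => gs f w (mix (C w) x z))) (by
      intro x z
      have h3 : ∀ z', mix (C w) (mix (C w) x z) z' = mix (C w) x z' := by
        intro z'
        funext i
        unfold mix
        by_cases hi : i ∈ C w <;> simp [hi]
      simp only [h3])
    rw [← h2]
    congr 1
    funext x
    rw [pow_two]
  -- (2) dyadic levels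
  have h2 : ex (fun v => EP f W (fun w x => gs f w (mix (C w) x v)))
      ≤ (1 / 4 : ℝ) ^ J + ∑ j ∈ Finset.Icc 1 J, 4 * (1 / 4 : ℝ) ^ j *
        ex (RP ((1 / 2 : ℝ) ^ (j + 1)) p f W C) := by
    have h3 : ∀ v, EP f W (fun w x => gs f w (mix (C w) x v)) ≤
        (1 / 4 : ℝ) ^ J + ∑ j ∈ Finset.Icc 1 J, 4 * (1 / 4 : ℝ) ^ j *
        RP ((1 / 2 : ℝ) ^ (j + 1)) p f W C v := by
      intro v
      refine (EP_mono hm (G' := fun w x => (1 / 4 : ℝ) ^ J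
        + ∑ j ∈ Finset.Icc 1 J, 4 * (1 / 4 : ℝ) ^ j *
          hw ((1 / 2 : ℝ) ^ (j + 1)) p f w (mix (C w) x v)) fun w _ x =>
        gs_le_levels hf hp J w _).trans (le_of_eq ?_)
      rw [EP_add, EP_const hm]
      congr 1
      rw [EP_sum (Finset.Icc 1 J) (fun j w x => 4 * (1 / 4 : ℝ) ^ j *
          hw ((1 / 2 : ℝ) ^ (j + 1)) p f w (mix (C w) x v))]
      refine Finset.sum_congr rfl fun j _ => ?_
      rw [EP_const_mul]
      rfl
    refine (ex_mono h3).trans (le_of_eq ?_)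
    rw [ex_add', ex_const']
    congr 1
    unfold ex
    rw [Finset.sum_comm, Finset.sum_div]
    refine Finset.sum_congr rfl fun j _ => ?_
    rw [← Finset.mul_sum, mul_div_assoc]
  -- (3) pigeonhole
  have hJ0 : (0 : ℝ) < J := by exact_mod_cast hJ
  have h3 : ∃ j ∈ Finset.Icc 1 J, G / (2 * J) ≤ 4 * (1 / 4 : ℝ) ^ j *
      ex (RP ((1 / 2 : ℝ) ^ (j + 1)) p f W C) := by
    by_contra hcon
    push Not at hcon
    have h4 := Finset.sum_lt_sum_of_nonempty (s := Finset.Icc 1 J)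
      ⟨1, Finset.mem_Icc.2 ⟨le_rfl, hJ⟩⟩ hcon
    rw [Finset.sum_const, Nat.card_Icc, nsmul_eq_mul, Nat.add_sub_cancel] at h4
    have h5 : (J : ℝ) * (G / (2 * J)) = G / 2 := by field_simp
    rw [h5] at h4
    linarith
  obtain ⟨j, hj, hjG⟩ := h3
  obtain ⟨v, hv⟩ := exists_ex_le (RP ((1 / 2 : ℝ) ^ (j + 1)) p f W C)
  refine ⟨j, hj, v, ?_⟩
  refine le_trans ?_ hv
  have h4 : (0 : ℝ) < (1 / 4 : ℝ) ^ j := by positivity
  have h5 : (32 : ℝ) * J * ((1 / 2 : ℝ) ^ (j + 1)) ^ 2 = (4 * (1 / 4 : ℝ) ^ j) * (2 * J) := by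
    rw [← pow_mul, mul_comm (j + 1) 2, pow_mul, pow_succ]
    norm_num
    ring
  rw [h5, div_le_iff₀ (by positivity)]
  rw [div_le_iff₀ (by positivity)] at hjG
  exact le_of_le_of_eq hjG (by ring)

end Pool.Agent.QAA
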