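import Mathlib
import Pool.Agent.QAA.EInsens
import Pool.Agent.SUB.Hw

/-!
QAA module PL2: one planting step increases `H v = ∑_w hw w v` on average by almost `RP v`.

Pointwise in `(w,x)`, with `v' = mix (C w) x v`:
`H v' = hw w v' + ∑_{w' ≠ w} hw w' v' ≥ hw w v' + H v - hw w v - ∑_{w' ∈ B} |hw w' v' - hw w' v|`,
where `B = {w' : η < |D_{w'} f v|}` (if `w' ∉ B` then `hw w' v = 0 ≤ hw w' v'`), `|B| ≤ 2d^2/η`
(`card_big`). Take `EP`: `EP (hw w v') = RP v`;
`EP (|hw w' v' - hw w' v|) ≤ (p/η) EP |D_{w'} f v' - D_{w'} f v| ≤ (p/η) ξ` (`cut_lip`,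
`abs_abs_sub_abs_le_abs_sub`, `EP_insens` for `g = D_{w'} f`, `bdd_deriv`);
`EP (hw w v) = ∑_{w∈W} Iw w * hw w v / m ≤ Pm * H v / m ≤ Pm (2 d^2/η)/m` (`sum_hw_le`).
(Compare `Pool/Agent/SUB/Plant2.lean`: same proof with `Pw` replaced by `Iw` as weights.)
-/

set_option linter.dupNamespace false

namespace Pool.Agent.QAA

open Finset Pool.Agent.Helper11.Cube Pool.Agent.Helper11.AA Pool.Agent.SUB

variable {n d p I : ℕ} {η : ℝ} {f : Cube n → ℝ} {W : Finset (Fin n)}
  {C : Fin n → Finset (Fin n)} {K π ξ : ℝ}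

private lemma step_point (hη : 0 < η) (hp : 1 ≤ p) (v v' : Cube n) (w : Fin n) :
    (∑ w', hw η p f w' v) + hw η p f w v' - hw η p f w v
        - ∑ w' ∈ univ.filter (fun w' => η < |discreteDeriv w' f v|),
            p / η * |discreteDeriv w' f v' - discreteDeriv w' f v|
      ≤ ∑ w', hw η p f w' v' := by
  have key : ∀ w' : Fin n, (if w' = w then hw η p f w v' - hw η p f w v else 0)
      - (if η < |discreteDeriv w' f v| then
          p / η * |discreteDeriv w' f v' - discreteDeriv w' f v| else 0)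
      ≤ hw η p f w' v' - hw η p f w' v := by
    intro w'
    have hnn : 0 ≤ p / η * |discreteDeriv w' f v' - discreteDeriv w' f v| := by positivity
    have hlip : hw η p f w' v - hw η p f w' v'
        ≤ p / η * |discreteDeriv w' f v' - discreteDeriv w' f v| := by
      unfold hw
      have h1 := cut_lip (p := p) hη |discreteDeriv w' f v| |discreteDeriv w' f v'|
      have h2 : |(|discreteDeriv w' f v| - |discreteDeriv w' f v'|)|
          ≤ |discreteDeriv w' f v' - discreteDeriv w' f v| := by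
        rw [abs_sub_comm (discreteDeriv w' f v')]
        exact abs_abs_sub_abs_le_abs_sub _ _
      have h3 : (0 : ℝ) ≤ p / η := by positivity
      exact (le_abs_self _).trans (h1.trans (mul_le_mul_of_nonneg_left h2 h3))
    by_cases h1 : w' = w
    · subst h1
      rw [if_pos rfl]
      split_ifs with h2
      · linarith
      · linarith
    · rw [if_neg h1]
      split_ifs with h2
      · linarith
      · have h3 : hw η p f w' v = 0 := hw_eq_zero hη hp (not_lt.1 h2)
        have h4 := hw_nonneg (η := η) (p := p) f w' v'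
        linarith
  have hs := Finset.sum_le_sum (fun w' (_ : w' ∈ (univ : Finset (Fin n))) => key w')
  rw [Finset.sum_sub_distrib, Finset.sum_sub_distrib, Finset.sum_ite_eq' univ w
    (fun _ => hw η p f w v' - hw η p f w v), if_pos (mem_univ w), ← Finset.sum_filter] at hs
  linarith

theorem step_H (h : PH d f W C K π ξ I) (hη : 0 < η) (hp : 1 ≤ p) {Pm : ℝ}
    (hPm : ∀ w ∈ W, Iw f w ≤ Pm) (v : Cube n) :
    (∑ w, hw η p f w v) + RP η p f W C v
        - (2 * (d : ℝ) ^ 2 / η * (p / η * ξ)
          + 2 * (d : ℝ) ^ 2 / η * Pm / ∑ w ∈ W, Iw f w)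
      ≤ EP f W (fun w x => ∑ w', hw η p f w' (mix (C w) x v)) := by
  have hm := h.hm
  have hξ0 : 0 ≤ ξ := by
    refine le_trans ?_ h.hξ
    have h1 := h.hK0
    have h2 := h.hπ0
    positivity
  set B : Finset (Fin n) := univ.filter (fun w' => η < |discreteDeriv w' f v|) with hB
  have hmono := EP_mono (f := f) (W := W) hm
    (G := fun w x => (∑ w', hw η p f w' v) + hw η p f w (mix (C w) x v) - hw η p f w v
        - ∑ w' ∈ B, p / η * |discreteDeriv w' f (mix (C w) x v) - discreteDeriv w' f v|)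
    (G' := fun w x => ∑ w', hw η p f w' (mix (C w) x v))
    (fun w _ x => step_point hη hp v (mix (C w) x v) w)
  refine le_trans ?_ hmono
  rw [EP_sub (fun w x => (∑ w', hw η p f w' v) + hw η p f w (mix (C w) x v) - hw η p f w v)
    (fun w x => ∑ w' ∈ B, p / η * |discreteDeriv w' f (mix (C w) x v) - discreteDeriv w' f v|),
    EP_sub (fun w x => (∑ w', hw η p f w' v) + hw η p f w (mix (C w) x v))
      (fun w _ => hw η p f w v),
    EP_add (fun _ _ => ∑ w', hw η p f w' v) (fun w x => hw η p f w (mix (C w) x v)),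
    EP_const hm, EP_sum B (fun w' w x =>
      p / η * |discreteDeriv w' f (mix (C w) x v) - discreteDeriv w' f v|)]
  have e1 : EP f W (fun w x => hw η p f w (mix (C w) x v)) = RP η p f W C v := rfl
  have e2 : ∑ w' ∈ B, EP f W (fun w x =>
      p / η * |discreteDeriv w' f (mix (C w) x v) - discreteDeriv w' f v|)
      ≤ 2 * (d : ℝ) ^ 2 / η * (p / η * ξ) := by
    have h1 : ∀ w' ∈ B, EP f W (fun w x =>
      p / η * |discreteDeriv w' f (mix (C w) x v) - discreteDeriv w' f v|) ≤ p / η * ξ := by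
      intro w' _
      rw [EP_const_mul (p / η) (fun w x =>
        |discreteDeriv w' f (mix (C w) x v) - discreteDeriv w' f v|)]
      refine mul_le_mul_of_nonneg_left ?_ (by positivity)
      exact EP_insens h (bdd_deriv h.hf w') v
    have h2 := Finset.sum_le_card_nsmul B _ _ h1
    refine h2.trans ?_
    rw [nsmul_eq_mul]
    have h3 : 0 ≤ p / η * ξ := mul_nonneg (by positivity) hξ0
    exact mul_le_mul_of_nonneg_right (card_big h.hf hη v) h3
  have e3 : EP f W (fun w _ => hw η p f w v)
      ≤ 2 * (d : ℝ) ^ 2 / η * Pm / ∑ w ∈ W, Iw f w := by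
    unfold EP
    refine div_le_div_of_nonneg_right ?_ hm.le
    have h1 : ∀ w, ex (fun x => gs f w x * hw η p f w v) = Iw f w * hw η p f w v := by
      intro w
      unfold Iw ex
      rw [← Finset.sum_mul, div_mul_eq_mul_div]
    have hWne : W.Nonempty := by
      by_contra hne
      rw [Finset.not_nonempty_iff_eq_empty] at hne
      rw [hne, Finset.sum_empty] at hm
      exact lt_irrefl _ hm
    obtain ⟨w0, hw0⟩ := hWne
    have hPm0 : 0 ≤ Pm := (Iw_nonneg f w0).trans (hPm w0 hw0)
    calc ∑ w ∈ W, ex (fun x => gs f w x * hw η p f w v)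
        = ∑ w ∈ W, Iw f w * hw η p f w v := Finset.sum_congr rfl (fun w _ => h1 w)
      _ ≤ ∑ w ∈ W, Pm * hw η p f w v := Finset.sum_le_sum (fun w hwW =>
          mul_le_mul_of_nonneg_right (hPm w hwW) (hw_nonneg f w v))
      _ ≤ ∑ w, Pm * hw η p f w v := Finset.sum_le_sum_of_subset_of_nonneg (Finset.subset_univ _)
          (fun w _ _ => mul_nonneg hPm0 (hw_nonneg f w v))
      _ = Pm * ∑ w, hw η p f w v := by rw [Finset.mul_sum]
      _ ≤ Pm * (2 * (d : ℝ) ^ 2 / η) :=
          mul_le_mul_of_nonneg_left (sum_hw_le hη hp h.hf v) hPm0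
      _ = 2 * (d : ℝ) ^ 2 / η * Pm := by ring
  rw [e1]
  linarith

end Pool.Agent.QAA
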