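import Mathlib
import Pool.Agent.QAA.EInsens
import Pool.Agent.SUB.Hw

/-!
QAA module PL3: one planting step decreases `RP` on average only by a small RELATIVE amount.

`EP_{(w,x)} RP (mix (C w) x v) = EP_{(w,x)} EP_{(w',x')} hw w' (mix (C w') x' (mix (C w) x v))`.
Fix `(w',x')`, `z = mix (C w') x' v`. If `C w`, `C w'` are disjoint then
`mix (C w') x' (mix (C w) x v) = mix (C w) x z`. With `h = hw w'`, `g = D_{w'} f` (`0 ≤ h ≤ 1`):
`h (mix (C w) x z) ≥ h z - (4p/η) |g (mix (C w) x z) - g z| (h z + (1/4)^p)`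
(if the left side is `≥ h z` clear, otherwise `|g z| ≥ |g (..)|`, because `cut` is monotone, and
`cut_diff`). So, with `1_D` the indicator of `Disjoint (C w) (C w')`, `h ≥ 0`:
`h (mix (C w') x' (mix (C w) x v)) ≥ 1_D h z - (4p/η) |g (..) - g z| (h z + (1/4)^p)`
`  = h z - (1 - 1_D) h z - (4p/η) |..| (h z + (1/4)^p)`.
Exchange the expectations (`EP_comm`), integrate over `(w,x)` for fixed `(w',x')` (`EP_insens` at the
base point `z`, `EP_meet` with `U = C w'`, `|C w'| ≤ K`):
`≥ h z - K π h z - (4p/η) ξ (h z + (1/4)^p)`. Then integrate over `(w',x')`.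
-/

set_option linter.dupNamespace false

namespace Pool.Agent.QAA

open Finset Pool.Agent.Helper11.Cube Pool.Agent.Helper11.AA Pool.Agent.SUB

variable {n d p I : ℕ} {η : ℝ} {f : Cube n → ℝ} {W : Finset (Fin n)}
  {C : Fin n → Finset (Fin n)} {K π ξ : ℝ}

private lemma pl3_mix_comm {S T : Finset (Fin n)} (h : Disjoint S T) (x y v : Cube n) :
    mix T y (mix S x v) = mix S x (mix T y v) := by
  funext i
  unfold mix
  by_cases h1 : i ∈ S
  · have h2 : i ∉ T := Finset.disjoint_left.1 h h1
    simp [h1, h2]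
  · simp [h1]

private lemma pl3_point (hη : 0 < η) (hp : 1 ≤ p) (w w' : Fin n) (x x' v : Cube n) :
    hw η p f w' (mix (C w') x' v)
        - hw η p f w' (mix (C w') x' v) * (if Disjoint (C w) (C w') then 0 else 1)
        - 4 * p / η * (hw η p f w' (mix (C w') x' v) + (1 / 4) ^ p) *
          |discreteDeriv w' f (mix (C w) x (mix (C w') x' v))
            - discreteDeriv w' f (mix (C w') x' v)|
      ≤ hw η p f w' (mix (C w') x' (mix (C w) x v)) := by
  set z := mix (C w') x' v with hz
  have hz0 : 0 ≤ hw η p f w' z := hw_nonneg f w' z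
  have hq : (0 : ℝ) < (1 / 4 : ℝ) ^ p := by positivity
  have hp0 : 0 ≤ 4 * p / η * (hw η p f w' z + (1 / 4) ^ p) *
      |discreteDeriv w' f (mix (C w) x z) - discreteDeriv w' f z| := by
    positivity
  by_cases hd : Disjoint (C w) (C w')
  · rw [if_pos hd, mul_zero, sub_zero, pl3_mix_comm hd, ← hz]
    rcases le_total (hw η p f w' z) (hw η p f w' (mix (C w) x z)) with h | h
    · linarith
    · rcases le_total |discreteDeriv w' f (mix (C w) x z)| |discreteDeriv w' f z| with h2 | h2
      · have h1 := cut_diff (p := p) hη hp h2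
        have h3 : |discreteDeriv w' f z| - |discreteDeriv w' f (mix (C w) x z)|
            ≤ |discreteDeriv w' f (mix (C w) x z) - discreteDeriv w' f z| := by
          rw [abs_sub_comm (discreteDeriv w' f (mix (C w) x z))]
          exact abs_sub_abs_le_abs_sub _ _
        have h4 : 4 * (p : ℝ) / η * (|discreteDeriv w' f z|
            - |discreteDeriv w' f (mix (C w) x z)|) * (cut η p |discreteDeriv w' f z| + (1 / 4) ^ p)
            ≤ 4 * p / η * |discreteDeriv w' f (mix (C w) x z) - discreteDeriv w' f z| *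
              (cut η p |discreteDeriv w' f z| + (1 / 4) ^ p) := by
          have hc : 0 ≤ cut η p |discreteDeriv w' f z| + (1 / 4) ^ p :=
            add_nonneg (cut_nonneg _) hq.le
          apply mul_le_mul_of_nonneg_right _ hc
          exact mul_le_mul_of_nonneg_left h3 (by positivity)
        have h5 : hw η p f w' z = cut η p |discreteDeriv w' f z| := rfl
        have h6 : hw η p f w' (mix (C w) x z) = cut η p |discreteDeriv w' f (mix (C w) x z)| := rfl
        rw [h5, h6]
        linarith
      · have h1 : hw η p f w' z ≤ hw η p f w' (mix (C w) x z) := cut_mono hη h2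
        linarith
  · rw [if_neg hd]
    have h2 := hw_nonneg (η := η) (p := p) f w' (mix (C w') x' (mix (C w) x v))
    linarith

theorem step_R (h : PH d f W C K π ξ I) (hη : 0 < η) (hp : 1 ≤ p) (v : Cube n) :
    (1 - (4 * p / η * ξ + K * π)) * RP η p f W C v - 4 * p / η * ξ * (1 / 4) ^ p
      ≤ EP f W (fun w x => RP η p f W C (mix (C w) x v)) := by
  have hq : (0 : ℝ) < (1 / 4 : ℝ) ^ p := by positivity
  have hpη : 0 ≤ 4 * (p : ℝ) / η := by positivity
  have e1 : EP f W (fun w x => RP η p f W C (mix (C w) x v)) =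
      EP f W (fun w' x' => EP f W (fun w x =>
        hw η p f w' (mix (C w') x' (mix (C w) x v)))) := by
    unfold RP
    exact EP_comm (fun w x w' x' => hw η p f w' (mix (C w') x' (mix (C w) x v)))
  have e2 : (1 - (4 * p / η * ξ + K * π)) * RP η p f W C v - 4 * p / η * ξ * (1 / 4) ^ p =
      EP f W (fun w' x' => (1 - (4 * p / η * ξ + K * π)) * hw η p f w' (mix (C w') x' v)
        - 4 * p / η * ξ * (1 / 4) ^ p) := by
    rw [EP_sub, EP_const h.hm, EP_const_mul]
    rfl
  rw [e1, e2]
  refine EP_mono h.hm fun w' hw' x' => ?_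
  set z := mix (C w') x' v with hz
  have hz0 : 0 ≤ hw η p f w' z := hw_nonneg f w' z
  have h1 : EP f W (fun w x => hw η p f w' z
        - hw η p f w' z * (if Disjoint (C w) (C w') then 0 else 1)
        - 4 * p / η * (hw η p f w' z + (1 / 4) ^ p) *
          |discreteDeriv w' f (mix (C w) x z) - discreteDeriv w' f z|)
      ≤ EP f W (fun w x => hw η p f w' (mix (C w') x' (mix (C w) x v))) :=
    EP_mono h.hm fun w _ x => pl3_point hη hp w w' x x' v
  refine le_trans ?_ h1
  rw [EP_sub, EP_sub, EP_const h.hm, EP_const_mul, EP_const_mul]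
  have h2 := EP_insens h (bdd_deriv h.hf w') z
  have h3 := EP_meet h (C w')
  have h4 : ((C w').card : ℝ) * π ≤ K * π := mul_le_mul_of_nonneg_right (h.hK w' hw') h.hπ0
  have h5 : hw η p f w' z * EP f W (fun w _ => if Disjoint (C w) (C w') then 0 else 1)
      ≤ hw η p f w' z * (K * π) := mul_le_mul_of_nonneg_left (h3.trans h4) hz0
  have h6 : 4 * p / η * (hw η p f w' z + (1 / 4) ^ p) *
      EP f W (fun w x => |discreteDeriv w' f (mix (C w) x z) - discreteDeriv w' f z|)
      ≤ 4 * p / η * (hw η p f w' z + (1 / 4) ^ p) * ξ :=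
    mul_le_mul_of_nonneg_left h2 (by positivity)
  nlinarith

end Pool.Agent.QAA
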