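import Mathlib
import Pool.Agent.QAA.Plant2
import Pool.Agent.QAA.Plant3

/-!
QAA module PL4: the planting iteration.

Let `ζ = 4p/η ξ + K π ≥ 0`, `δ₁` the loss in `step_H`, `δ₃ = 4p/η ξ (1/4)^p ≥ 0`,
`H v = ∑_w hw w v ≥ 0`, `c m = ∑_{i<m} (1-ζ)^i` (`0 ≤ 1 - ζ ≤ 1` if `N ≥ 1`, as `ζ ≤ N ζ ≤ 1/2`), so
`c 0 = 0`, `c (m+1) = 1 + (1-ζ) c m`, `0 ≤ c m ≤ m`.
Claim: for `k ≤ N` there is `v_k` with
`H v_k + c (N-k) RP v_k ≥ c N * R0 - k (δ₁ + N δ₃)`. `k = 0`: `v_0 = v`. Step: put `m + 1 = N - k`;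
the `EP`-average of `H (v_k ⊕ ω) + c m * RP (v_k ⊕ ω)` is by `step_H`, `step_R`
`≥ H v_k + RP v_k - δ₁ + c m ((1-ζ) RP v_k - δ₃) = H v_k + c (m+1) RP v_k - δ₁ - c m δ₃`;
take an `ω` with value at least the average (`exists_EP_le`). `k = N`:
`c N R0 - N δ₁ - N^2 δ₃ ≤ H v_N ≤ 2 d^2/η` (`sum_hw_le`), and
`c N ≥ N (1-ζ)^N ≥ N (1 - N ζ) ≥ N/2` (Bernoulli `one_add_mul_le_pow`), `R0 ≥ 0`.
(`δ₁` may be any real. `ξ ≥ 0` follows from `hξ`.)
-/

set_option linter.dupNamespace false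

namespace Pool.Agent.QAA

open Finset Pool.Agent.Helper11.Cube Pool.Agent.Helper11.AA Pool.Agent.SUB

variable {n d p I : ℕ} {η : ℝ} {f : Cube n → ℝ} {W : Finset (Fin n)}
  {C : Fin n → Finset (Fin n)} {K π ξ : ℝ}

/-- `c j = ∑_{i<j} (1-ζ)^i` by recursion. -/
private noncomputable def PLc (δ : ℝ) : ℕ → ℝ
  | 0 => 0
  | j + 1 => 1 + (1 - δ) * PLc δ j

private lemma PLc_bd {δ : ℝ} (h0 : 0 ≤ δ) (h1 : δ ≤ 1) (j : ℕ) :
    0 ≤ PLc δ j ∧ PLc δ j ≤ j := by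
  induction j with
  | zero => simp [PLc]
  | succ j ih =>
    have h2 : 0 ≤ (1 - δ) * PLc δ j := mul_nonneg (by linarith) ih.1
    have h3 : (1 - δ) * PLc δ j ≤ PLc δ j := by nlinarith [ih.1]
    constructor
    · simp only [PLc]; linarith
    · simp only [PLc]; push_cast; linarith [ih.2]

private lemma PLc_lb {δ : ℝ} (h0 : 0 ≤ δ) (h1 : δ ≤ 1) (j : ℕ) :
    (j : ℝ) - δ * (j : ℝ) ^ 2 / 2 ≤ PLc δ j := by
  induction j with
  | zero => simp [PLc]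
  | succ j ih =>
    have h2 := mul_le_mul_of_nonneg_left ih (by linarith : 0 ≤ 1 - δ)
    simp only [PLc]
    push_cast
    nlinarith [sq_nonneg (δ * (j : ℝ))]

private lemma xi_nonneg (h : PH d f W C K π ξ I) : 0 ≤ ξ := by
  refine le_trans ?_ h.hξ
  have := mul_nonneg h.hK0 h.hπ0
  have h2 : 0 ≤ 8 * ((I : ℝ) + 1) * (d : ℝ) ^ 2 * K * π := by
    have : 8 * ((I : ℝ) + 1) * (d : ℝ) ^ 2 * K * π = 8 * ((I : ℝ) + 1) * (d : ℝ) ^ 2 * (K * π) := by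
      ring
    rw [this]; positivity
  positivity

private lemma plant_iter (h : PH d f W C K π ξ I) (hη : 0 < η) (hp : 1 ≤ p) {Pm : ℝ}
    (hPm : ∀ w ∈ W, Iw f w ≤ Pm) {v : Cube n} {R0 : ℝ}
    (hR : R0 ≤ RP η p f W C v) (N : ℕ) (hδ1 : 4 * p / η * ξ + K * π ≤ 1) :
    ∀ k : ℕ, k ≤ N → ∃ v : Cube n,
      PLc (4 * p / η * ξ + K * π) N * R0 - k * ((2 * (d : ℝ) ^ 2 / η * (p / η * ξ)
          + 2 * (d : ℝ) ^ 2 / η * Pm / ∑ w ∈ W, Iw f w)
            + N * (4 * p / η * ξ * (1 / 4) ^ p))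
        ≤ (∑ w, hw η p f w v) + PLc (4 * p / η * ξ + K * π) (N - k) * RP η p f W C v := by
  intro k
  have hξ := xi_nonneg h
  have he2 : 0 ≤ 4 * p / η * ξ * (1 / 4) ^ p := by positivity
  have hδ0 : 0 ≤ 4 * p / η * ξ + K * π :=
    add_nonneg (by positivity) (mul_nonneg h.hK0 h.hπ0)
  induction k with
  | zero =>
    intro _
    refine ⟨v, ?_⟩
    have h1 : 0 ≤ ∑ w, hw η p f w v := Finset.sum_nonneg (fun w _ => hw_nonneg f w v)
    have h2 := mul_le_mul_of_nonneg_left hR (PLc_bd hδ0 hδ1 N).1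
    simp only [Nat.cast_zero, zero_mul, sub_zero, Nat.sub_zero]
    linarith
  | succ k ih =>
    intro hk
    obtain ⟨v, hv⟩ := ih (by omega)
    have hH := step_H h hη hp hPm v
    have hR' := step_R h hη hp v
    obtain ⟨w, _, x, hwx⟩ := exists_EP_le (f := f) (W := W) h.hm
      (fun w x => (∑ w', hw η p f w' (mix (C w) x v))
        + PLc (4 * p / η * ξ + K * π) (N - (k + 1)) * RP η p f W C (mix (C w) x v))
    refine ⟨mix (C w) x v, le_trans ?_ hwx⟩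
    rw [EP_add (fun w x => ∑ w', hw η p f w' (mix (C w) x v))
      (fun w x => PLc (4 * p / η * ξ + K * π) (N - (k + 1)) * RP η p f W C (mix (C w) x v)),
      EP_const_mul (PLc (4 * p / η * ξ + K * π) (N - (k + 1)))
        (fun w x => RP η p f W C (mix (C w) x v))]
    have hc := PLc_bd hδ0 hδ1 (N - (k + 1))
    have hmul := mul_le_mul_of_nonneg_left hR' hc.1
    have hcN : PLc (4 * p / η * ξ + K * π) (N - (k + 1)) ≤ N := by
      refine hc.2.trans ?_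
      exact_mod_cast Nat.sub_le _ _
    have hce := mul_le_mul_of_nonneg_right hcN he2
    have hrec : PLc (4 * p / η * ξ + K * π) (N - k) =
        1 + (1 - (4 * p / η * ξ + K * π)) * PLc (4 * p / η * ξ + K * π) (N - (k + 1)) := by
      have : N - k = (N - (k + 1)) + 1 := by omega
      rw [this]; rfl
    rw [hrec] at hv
    push_cast at hv hmul hce ⊢
    nlinarith [hv, hH, hmul, hce]

theorem plant (h : PH d f W C K π ξ I) (hη : 0 < η) (hp : 1 ≤ p) {Pm : ℝ}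
    (hPm : ∀ w ∈ W, Iw f w ≤ Pm) {v : Cube n} {R0 : ℝ} (hR0 : 0 ≤ R0)
    (hR : R0 ≤ RP η p f W C v) (N : ℕ) (hN : (N : ℝ) * (4 * p / η * ξ + K * π) ≤ 1 / 2) :
    (N : ℝ) / 2 * R0
        - N * (2 * (d : ℝ) ^ 2 / η * (p / η * ξ)
          + 2 * (d : ℝ) ^ 2 / η * Pm / ∑ w ∈ W, Iw f w)
        - (N : ℝ) ^ 2 * (4 * p / η * ξ * (1 / 4) ^ p) ≤ 2 * (d : ℝ) ^ 2 / η := by
  have hξ := xi_nonneg h
  have hδ0 : 0 ≤ 4 * p / η * ξ + K * π :=
    add_nonneg (by positivity) (mul_nonneg h.hK0 h.hπ0)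
  rcases Nat.eq_zero_or_pos N with h0 | h0
  · subst h0
    simp only [Nat.cast_zero, zero_mul, zero_div]
    norm_num
    positivity
  have hN1 : (1 : ℝ) ≤ N := by exact_mod_cast h0
  have hδ1 : 4 * p / η * ξ + K * π ≤ 1 := by nlinarith
  obtain ⟨v', hv⟩ := plant_iter h hη hp hPm hR N hδ1 N le_rfl
  have h1 := sum_hw_le hη hp h.hf v'
  rw [Nat.sub_self] at hv
  have hc0 : PLc (4 * p / η * ξ + K * π) 0 = 0 := rfl
  rw [hc0, zero_mul, add_zero] at hv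
  have h2 := PLc_lb hδ0 hδ1 N
  have h3 : (N : ℝ) / 2 ≤ PLc (4 * p / η * ξ + K * π) N := by
    refine le_trans ?_ h2
    have : (N : ℝ) * (N * (4 * p / η * ξ + K * π)) ≤ N * (1 / 2) :=
      mul_le_mul_of_nonneg_left hN (by positivity)
    nlinarith
  have h4 := mul_le_mul_of_nonneg_right h3 hR0
  have h5 := hv.trans h1
  nlinarith [h4, h5]

end Pool.Agent.QAA
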