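import Mathlib
import Pool.Agent.QAA.Plant1
import Pool.Agent.QAA.Plant4

/-!
QAA module NOP: the hypotheses of the planting lemma with a large gain are contradictory.

`exists_level` gives `j`, `v`; put `η = (1/2)^(j+1) ∈ (0, 1/4]`, `R0 = G/(32 J η²) > 0`,
`R0 ≤ RP ≤ 1` (`EP_mono`, `EP_const`, `hw_le_one`), also `R0 ≥ G/(2J)` as `η² ≤ 1/16`.
`N = ⌊16 d²/(η R0)⌋₊ + 1`; as `d²/(η R0) ≥ 1`, `16 d²/(η R0) < N ≤ 17 d²/(η R0) = 544 d² J η/G`.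
Write `m = ∑ Iw`, `ξ ≥ 8 (I+1) d² K π ≥ 8 K π` and `ξ ≥ 0`.
* `N * 4p/η ξ ≤ 2176 d² J p ξ/G ≤ 1/4`, `N K π ≤ 544 d² J (ξ/8)/G ≤ 68 d² J p ξ/G ≤ 1/4`: `hN`.
* `2d²/η * (p/η ξ) ≤ R0/16`: i.e. `2 d² p ξ ≤ G/(512 J)`: from `hξG`.
* `2 d²/η * Pm/m ≤ R0/16 = G/(512 J η²)`: `2 d² Pm/m * η ≤ G/(512 J)`: from `hPmG`, `η ≤ 1`.
* `N * (4p/η ξ) * (1/4)^p ≤ (1/4) (1/4)^p ≤ (1/4) G/(4J) ≤ R0/8`.
So `plant` gives `N R0 (1/2 - 1/8 - 1/8) ≤ 2 d²/η`, but `N R0/4 > 4 d²/η`. (`d ≥ 1`.)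
-/

set_option linter.dupNamespace false

namespace Pool.Agent.QAA

open Finset Pool.Agent.Helper11.Cube Pool.Agent.Helper11.AA Pool.Agent.SUB

variable {n d p I : ℕ} {f : Cube n → ℝ} {W : Finset (Fin n)}
  {C : Fin n → Finset (Fin n)} {K π ξ : ℝ}

private lemma np_alg1 {d J p η G : ℝ} (hd : 0 < d) (hJ : 0 < J) (hp : 0 < p) (hη : 0 < η)
    (hG : 0 < G) :
    (544 * d ^ 2 * J * η / G) * (4 * p / η * (G / (8704 * d ^ 2 * J * p))) = 1 / 4 := by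
  field_simp
  norm_num

private lemma np_alg2 {d J p η G : ℝ} (hd : 0 < d) (hJ : 0 < J) (hp : 0 < p) (hη : 0 < η) :
    2 * d ^ 2 / η * (p / η * (G / (8704 * d ^ 2 * J * p))) = G / (4352 * J * η ^ 2) := by
  field_simp
  ring

private lemma np_alg3 {d J η G : ℝ} (hd : 0 < d) (hJ : 0 < J) (hη : 0 < η) :
    2 * d ^ 2 / η * (G / (1024 * d ^ 2 * J)) = G / (512 * J * η) := by
  field_simp
  ring

private lemma np_alg4 {d J η G : ℝ} (hJ : 0 < J) (hη : 0 < η) (hG : 0 < G) :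
    17 * d ^ 2 / (η * (G / (32 * J * η ^ 2))) = 544 * d ^ 2 * J * η / G := by
  field_simp
  ring

private lemma np_cmp1 {J η G : ℝ} (hJ : 0 < J) (hη : 0 < η) (hG : 0 < G) :
    G / (4352 * J * η ^ 2) ≤ G / (32 * J * η ^ 2 * 16) := by
  apply div_le_div_of_nonneg_left hG.le (by positivity)
  have : 0 < J * η ^ 2 := by positivity
  nlinarith

private lemma np_cmp2 {J η G : ℝ} (hJ : 0 < J) (hη : 0 < η) (hη4 : η ≤ 1 / 4) (hG : 0 < G) :
    G / (512 * J * η) ≤ G / (32 * J * η ^ 2 * 16) := by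
  apply div_le_div_of_nonneg_left hG.le (by positivity)
  have h4 : η ^ 2 ≤ η := by nlinarith
  have h5 := mul_le_mul_of_nonneg_left h4 hJ.le
  linarith

private lemma np_cmp3 {J η G : ℝ} (hJ : 0 < J) (hη : 0 < η) (hη4 : η ≤ 1 / 4) (hG : 0 < G) :
    1 / 4 * (G / (4 * J)) ≤ G / (32 * J * η ^ 2 * 8) := by
  have h4 : 1 / 4 * (G / (4 * J)) = G / (16 * J) := by field_simp; norm_num
  rw [h4]
  apply div_le_div_of_nonneg_left hG.le (by positivity)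
  have h5 : η ^ 2 ≤ 1 / 16 := by nlinarith
  have h6 := mul_le_mul_of_nonneg_left h5 hJ.le
  linarith

theorem no_plant (h : PH d f W C K π ξ I) (hp : 1 ≤ p) {Pm : ℝ}
    (hPm : ∀ w ∈ W, Iw f w ≤ Pm) {G : ℝ} (hG0 : 0 < G)
    (hG : ∀ w ∈ W, G * Iw f w ≤ ex (fun x => ex (fun z => gs f w (mix (C w) x z)) ^ 2))
    {J : ℕ} (hJ : 1 ≤ J) (hJG : (1 / 4 : ℝ) ^ J ≤ G / 2) (hpG : (1 / 4 : ℝ) ^ p ≤ G / (4 * J))
    (hξG : ξ ≤ G / (8704 * (d : ℝ) ^ 2 * J * p))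
    (hPmG : Pm / ∑ w ∈ W, Iw f w ≤ G / (1024 * (d : ℝ) ^ 2 * J)) : False := by
  obtain ⟨j, hj, v, hv⟩ := exists_level (p := p) h.hf h.hm hp hG0 hG hJ hJG
  have hj1 : 1 ≤ j := (Finset.mem_Icc.1 hj).1
  set η : ℝ := (1 / 2 : ℝ) ^ (j + 1) with hηdef
  have hη : 0 < η := by positivity
  have hη4 : η ≤ 1 / 4 := by
    have : η ≤ (1 / 2 : ℝ) ^ 2 :=
      pow_le_pow_of_le_one (by norm_num) (by norm_num) (by omega)
    linarith
  have hm := h.hm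
  set m : ℝ := ∑ w ∈ W, Iw f w with hmdef
  have hd : (1 : ℝ) ≤ d := by exact_mod_cast h.hd
  have hd2 : (1 : ℝ) ≤ (d : ℝ) ^ 2 := by nlinarith
  have hJ' : (1 : ℝ) ≤ J := by exact_mod_cast hJ
  have hp' : (1 : ℝ) ≤ p := by exact_mod_cast hp
  have hRP1 : RP η p f W C v ≤ 1 := by
    have h1 := EP_mono (f := f) (W := W) h.hm
      (G := fun w x => hw η p f w (mix (C w) x v)) (G' := fun _ _ => 1)
      (fun w _ x => hw_le_one f w _)
    rw [EP_const h.hm] at h1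
    exact h1
  set R0 : ℝ := G / (32 * J * η ^ 2) with hR0def
  have hR0pos : 0 < R0 := by positivity
  have hR01 : R0 ≤ 1 := hv.trans hRP1
  -- the number of plantings
  set X : ℝ := 16 * (d : ℝ) ^ 2 / (η * R0) with hXdef
  have hXpos : 0 < X := by positivity
  have hX16 : 16 ≤ X := by
    rw [hXdef, le_div_iff₀ (by positivity)]
    have : η * R0 ≤ 1 := by nlinarith
    nlinarith
  set N : ℕ := ⌊X⌋₊ + 1 with hNdef
  have hN1 : X < N := by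
    rw [hNdef]; push_cast; exact Nat.lt_floor_add_one X
  have hN2 : (N : ℝ) ≤ 17 * (d : ℝ) ^ 2 / (η * R0) := by
    have h1 : (N : ℝ) ≤ X + 1 := by
      rw [hNdef]; push_cast
      linarith [Nat.floor_le hXpos.le]
    have h2 : 1 ≤ (d : ℝ) ^ 2 / (η * R0) := by
      rw [le_div_iff₀ (by positivity)]
      have : η * R0 ≤ 1 := by nlinarith
      nlinarith
    have h3 : 17 * (d : ℝ) ^ 2 / (η * R0) = X + (d : ℝ) ^ 2 / (η * R0) := by
      rw [hXdef]; ring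
    linarith
  have hN3 : (N : ℝ) ≤ 544 * (d : ℝ) ^ 2 * J * η / G := by
    exact hN2.trans (le_of_eq (np_alg4 (by positivity) hη hG0))
  have hN0 : (0 : ℝ) ≤ N := Nat.cast_nonneg N
  -- bounds on ξ and K π
  have hKπ : 0 ≤ K * π := mul_nonneg h.hK0 h.hπ0
  have hKξ : 8 * (K * π) ≤ ξ := by
    refine le_trans ?_ h.hξ
    have h1 : (0 : ℝ) ≤ (1 / 2 : ℝ) ^ I := by positivity
    have h2 : 8 * (K * π) ≤ 8 * ((I : ℝ) + 1) * (d : ℝ) ^ 2 * K * π := by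
      have h3 : (1 : ℝ) ≤ ((I : ℝ) + 1) * (d : ℝ) ^ 2 := by
        have : (0 : ℝ) ≤ (I : ℝ) := Nat.cast_nonneg I
        nlinarith
      have h4 : 8 * ((I : ℝ) + 1) * (d : ℝ) ^ 2 * K * π
          = 8 * (K * π) * (((I : ℝ) + 1) * (d : ℝ) ^ 2) := by ring
      rw [h4]
      nlinarith
    linarith
  have hξ0 : 0 ≤ ξ := by linarith
  set ξ₁ : ℝ := G / (8704 * (d : ℝ) ^ 2 * J * p) with hξ1def
  have hξ1pos : 0 < ξ₁ := by positivity
  have hA : (N : ℝ) * (4 * p / η * ξ) ≤ 1 / 4 := by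
    have h1 : (4 * p / η * ξ) ≤ 4 * p / η * ξ₁ :=
      mul_le_mul_of_nonneg_left hξG (by positivity)
    have h2 : (N : ℝ) * (4 * p / η * ξ) ≤ (544 * (d : ℝ) ^ 2 * J * η / G) * (4 * p / η * ξ₁) :=
      mul_le_mul hN3 h1 (by positivity) (by positivity)
    refine h2.trans (le_of_eq ?_)
    exact np_alg1 (by positivity) (by positivity) (by positivity) hη hG0
  have hB : (N : ℝ) * (K * π) ≤ 1 / 4 := by
    have h1 : 8 * (K * π) ≤ (4 * p / η * ξ) := by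
      have h2 : (1 : ℝ) ≤ 4 * p / η := by
        rw [le_div_iff₀ hη]; linarith
      have h3 : ξ ≤ 4 * p / η * ξ := le_mul_of_one_le_left hξ0 h2
      linarith
    have h4 := mul_le_mul_of_nonneg_left h1 hN0
    have h5 : 0 ≤ (N : ℝ) * (K * π) := mul_nonneg hN0 hKπ
    have h6 : (N : ℝ) * (8 * (K * π)) = 8 * (N * (K * π)) := by ring
    rw [h6] at h4
    linarith
  have hNN : (N : ℝ) * (4 * p / η * ξ + K * π) ≤ 1 / 2 := by
    rw [mul_add]; linarith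
  have hmain := plant h hη hp hPm hR0pos.le hv N hNN
  -- the losses
  have hL1 : 2 * (d : ℝ) ^ 2 / η * (p / η * ξ) ≤ R0 / 16 := by
    have h1 : 2 * (d : ℝ) ^ 2 / η * (p / η * ξ) ≤ 2 * (d : ℝ) ^ 2 / η * (p / η * ξ₁) :=
      mul_le_mul_of_nonneg_left (mul_le_mul_of_nonneg_left hξG (by positivity)) (by positivity)
    refine h1.trans ?_
    have h2 : 2 * (d : ℝ) ^ 2 / η * (p / η * ξ₁) = G / (4352 * J * η ^ 2) :=
      np_alg2 (by positivity) (by positivity) (by positivity) hη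
    rw [h2, hR0def, div_div]
    exact np_cmp1 (by positivity) hη hG0
  have hL2 : 2 * (d : ℝ) ^ 2 / η * Pm / m ≤ R0 / 16 := by
    have h1 : 2 * (d : ℝ) ^ 2 / η * Pm / m = 2 * (d : ℝ) ^ 2 / η * (Pm / m) := by ring
    rw [h1]
    have h2 : 2 * (d : ℝ) ^ 2 / η * (Pm / m) ≤ 2 * (d : ℝ) ^ 2 / η * (G / (1024 * (d : ℝ) ^ 2 * J)) := by
      apply mul_le_mul_of_nonneg_left hPmG; positivity
    refine h2.trans ?_
    have h3 : 2 * (d : ℝ) ^ 2 / η * (G / (1024 * (d : ℝ) ^ 2 * J)) = G / (512 * J * η) :=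
      np_alg3 (by positivity) (by positivity) hη
    rw [h3, hR0def, div_div]
    exact np_cmp2 (by positivity) hη hη4 hG0
  have hL3 : (N : ℝ) * (4 * p / η * ξ * (1 / 4) ^ p) ≤ R0 / 8 := by
    have h1 : (N : ℝ) * (4 * p / η * ξ * (1 / 4) ^ p)
        = (N : ℝ) * (4 * p / η * ξ) * (1 / 4) ^ p := by ring
    rw [h1]
    have h2 : (N : ℝ) * (4 * p / η * ξ) * (1 / 4) ^ p ≤ 1 / 4 * (G / (4 * J)) :=
      mul_le_mul hA hpG (by positivity) (by norm_num)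
    refine h2.trans ?_
    rw [hR0def, div_div]
    exact np_cmp3 (by positivity) hη hη4 hG0
  have hfin : 16 * (d : ℝ) ^ 2 / η < N * R0 := by
    have h1 : 16 * (d : ℝ) ^ 2 / η = X * R0 := by
      rw [hXdef]; field_simp
    rw [h1]
    exact mul_lt_mul_of_pos_right hN1 hR0pos
  have h6 : (N : ℝ) * (2 * (d : ℝ) ^ 2 / η * (p / η * ξ) + 2 * (d : ℝ) ^ 2 / η * Pm / m)
      ≤ N * (R0 / 16 + R0 / 16) := mul_le_mul_of_nonneg_left (add_le_add hL1 hL2) hN0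
  have h7 : (N : ℝ) ^ 2 * (4 * p / η * ξ * (1 / 4) ^ p) ≤ N * (R0 / 8) := by
    have h8 := mul_le_mul_of_nonneg_left hL3 hN0
    have h9 : (N : ℝ) * ((N : ℝ) * (4 * p / η * ξ * (1 / 4) ^ p))
        = (N : ℝ) ^ 2 * (4 * p / η * ξ * (1 / 4) ^ p) := by ring
    rw [h9] at h8
    exact h8
  have h8 : 0 < 2 * (d : ℝ) ^ 2 / η := by positivity
  have h9 : 16 * (d : ℝ) ^ 2 / η = 8 * (2 * (d : ℝ) ^ 2 / η) := by ring
  have h10 : (N : ℝ) * (R0 / 16 + R0 / 16) = N * R0 / 8 := by ring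
  have h11 : (N : ℝ) * (R0 / 8) = N * R0 / 8 := by ring
  have h12 : (N : ℝ) / 2 * R0 = N * R0 / 2 := by ring
  rw [h10] at h6
  rw [h11] at h7
  rw [h12] at hmain
  rw [h9] at hfin
  linarith

end Pool.Agent.QAA
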