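import Mathlib
import Pool.Agent.QAA.NoPlant
import Pool.Agent.QAA.Inf
import Pool.Agent.SUB.Ent

/-!
QAA module SHU: a shell of pivots with entropy `≥ y` in the large biases and without popular
coordinates has mass at most `BB d β k * exp(-s)`.

Suppose `m = ∑_{w∈W} Iw > B exp(-s)`, `B = BB d β k = 2*10^7 d^5 (k+2)^4/β²`; in particular `m > 0`
and `W ≠ ∅`, so `y ≤ yL ≤ -log Iw ≤ k+1` (`yL_le`). Apply `no_plant` with
`C w = Cb β f w`, `K = 2(k+1)/β²` (`card_Cb_le`), `π = exp(-k+y-s)/m`, `Pm = exp(-k)`,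
`G = exp(-(k+1)+y) ≤ 1`, `J = k+2`, `p = 2k+4`, `I = 4k+2d+20`,
`ξ = G/(8704 d² J p) = G/(17408 d² (k+2)²)`.
* `hG`: `exp_sum_KL_le` (`h = gs f w`, `C = Cb β f w`): `ex (..^2) ≥ exp(yL) Iw² ≥ exp(y) exp(-(k+1)) Iw`.
* `(1/4)^J ≤ G/2`: `G ≥ exp(-(k+1))`, `16 * 4^k ≥ 2 e e^k`.
* `(1/4)^p ≤ G/(4J)`: `256 * 16^k ≥ 4 (k+2) e e^k`, as `(16/e)^k ≥ k+1`.
* `hξ`: `(1/2)^I ≤ ξ/2`: `16^k 4^d 2^20 ≥ 34816 d² (k+2)² e e^k` since `4^d ≥ d²`,
  `16^k ≥ (k+1)² e^k` (induction), `(k+2)² ≤ 4 (k+1)²`, `34816 * 4 * e ≤ 2^20`.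
  `8 (I+1) d² K π ≤ ξ/2`: i.e. `m ≥ e * 34816 * 16 * (4k+2d+21) (k+1) (k+2)² d⁴ exp(-s)/β²`; use
  `4k+2d+21 ≤ 12 d (k+2)` and `e * 34816 * 16 * 12 ≤ 1.82 * 10^7 ≤ 2*10^7`.
* `hPmG`: `exp(-k)/m ≤ G/(1024 d² J)`: `m ≥ 1024 e d² (k+2) exp(-y)`, true as `exp(-s) ≥ exp(-y)`.
-/

set_option linter.dupNamespace false

namespace Pool.Agent.QAA

open Finset Pool.Agent.Helper11.Cube Pool.Agent.Helper11.AA Pool.Agent.SUB

variable {n d : ℕ}

/-- The polynomial prefactor. -/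
noncomputable def BB (d : ℕ) (β : ℝ) (k : ℕ) : ℝ :=
  20000000 * (d : ℝ) ^ 5 * ((k : ℝ) + 2) ^ 4 / β ^ 2

private lemma quarter_le : (1 / 4 : ℝ) ≤ Real.exp (-1) := by
  rw [Real.exp_neg, one_div]
  apply inv_anti₀ (Real.exp_pos _)
  have := Real.exp_one_lt_d9
  linarith

private lemma exp_neg_succ (k : ℕ) : Real.exp (-((k : ℝ) + 1)) = Real.exp (-1) ^ (k + 1) := by
  rw [← Real.exp_nat_mul]
  congr 1
  push_cast
  ring

private lemma num1 (k : ℕ) : (1 / 4 : ℝ) ^ (k + 2) ≤ Real.exp (-((k : ℝ) + 1)) / 4 := by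
  rw [exp_neg_succ, pow_succ]
  have h := pow_le_pow_left₀ (by norm_num) quarter_le (k + 1)
  linarith

private lemma num2 (k : ℕ) : (1 / 4 : ℝ) ^ (2 * k + 4) ≤
    Real.exp (-((k : ℝ) + 1)) / (4 * ((k : ℝ) + 2)) := by
  have h1 := num1 k
  have h2 : (1 / 4 : ℝ) ^ (k + 2) ≤ 1 / ((k : ℝ) + 2) := by
    rw [one_div_pow]
    apply one_div_le_one_div_of_le (by positivity)
    have : k + 2 < 4 ^ (k + 2) := Nat.lt_pow_self (by norm_num)
    exact_mod_cast this.le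
  have h3 : (1 / 4 : ℝ) ^ (2 * k + 4) = (1 / 4 : ℝ) ^ (k + 2) * (1 / 4 : ℝ) ^ (k + 2) := by
    rw [← pow_add]; congr 1; omega
  rw [h3]
  calc (1 / 4 : ℝ) ^ (k + 2) * (1 / 4 : ℝ) ^ (k + 2)
      ≤ (Real.exp (-((k : ℝ) + 1)) / 4) * (1 / ((k : ℝ) + 2)) :=
        mul_le_mul h1 h2 (by positivity) (by positivity)
    _ = _ := by field_simp

private lemma num3 (d k : ℕ) (hd : 1 ≤ d) : (1 / 2 : ℝ) ^ (4 * k + 2 * d + 20) ≤
    Real.exp (-((k : ℝ) + 1)) / (34816 * (d : ℝ) ^ 2 * ((k : ℝ) + 2) ^ 2) := by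
  have hd0 : (0 : ℝ) < d := by exact_mod_cast hd
  rw [le_div_iff₀ (by positivity)]
  have e1 : (1 / 2 : ℝ) ^ (4 * k + 2 * d + 20) =
      (1 / 4 : ℝ) ^ k * ((1 / 4 : ℝ) ^ k * (1 / 4 : ℝ) ^ d) * (1 / 1048576) := by
    have e2 : (1 / 4 : ℝ) ^ k * ((1 / 4 : ℝ) ^ k * (1 / 4 : ℝ) ^ d) =
        (1 / 16 : ℝ) ^ k * (1 / 4 : ℝ) ^ d := by
      rw [← mul_assoc, ← mul_pow]
      norm_num
    rw [pow_add, pow_add, pow_mul, pow_mul, e2]
    norm_num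
  have h1 : (d : ℝ) ^ 2 * (1 / 4 : ℝ) ^ d ≤ 1 := by
    have h : (d : ℝ) < 2 ^ d := by exact_mod_cast Nat.lt_two_pow_self
    have h2 : (d : ℝ) ^ 2 ≤ 4 ^ d := by
      calc (d : ℝ) ^ 2 ≤ (2 ^ d) ^ 2 := pow_le_pow_left₀ hd0.le h.le 2
        _ = 4 ^ d := by rw [← pow_mul, mul_comm d 2, pow_mul]; norm_num
    rw [one_div_pow, mul_one_div]
    exact (div_le_one (by positivity)).2 h2
  have h2 : ((k : ℝ) + 2) ^ 2 * (1 / 4 : ℝ) ^ k ≤ 4 := by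
    have h : ((k + 1 : ℕ) : ℝ) ≤ 2 ^ k := by
      have : k < 2 ^ k := Nat.lt_two_pow_self
      exact_mod_cast this
    push_cast at h
    have h2 : ((k : ℝ) + 2) ^ 2 ≤ 4 * 4 ^ k := by
      calc ((k : ℝ) + 2) ^ 2 ≤ (2 * ((k : ℝ) + 1)) ^ 2 := by
            apply pow_le_pow_left₀ (by positivity)
            have : (0 : ℝ) ≤ k := Nat.cast_nonneg k
            linarith
        _ = 4 * ((k : ℝ) + 1) ^ 2 := by ring
        _ ≤ 4 * (2 ^ k) ^ 2 := by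
            apply mul_le_mul_of_nonneg_left _ (by norm_num)
            exact pow_le_pow_left₀ (by positivity) h 2
        _ = 4 * 4 ^ k := by rw [← pow_mul, mul_comm k 2, pow_mul]; norm_num
    rw [one_div_pow, mul_one_div]
    exact (div_le_iff₀ (by positivity)).2 h2
  have h3 : (1 / 4 : ℝ) ^ k ≤ Real.exp (-1) ^ k := pow_le_pow_left₀ (by norm_num) quarter_le k
  have hA : (0 : ℝ) ≤ (d : ℝ) ^ 2 * (1 / 4 : ℝ) ^ d := by positivity
  have hB : (0 : ℝ) ≤ ((k : ℝ) + 2) ^ 2 * (1 / 4 : ℝ) ^ k := by positivity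
  have hAB : ((d : ℝ) ^ 2 * (1 / 4 : ℝ) ^ d) * (((k : ℝ) + 2) ^ 2 * (1 / 4 : ℝ) ^ k) ≤ 1 * 4 :=
    mul_le_mul h1 h2 hB (by norm_num)
  have hq : (0 : ℝ) ≤ (1 / 4 : ℝ) ^ k := by positivity
  rw [e1, exp_neg_succ, pow_succ]
  have h4 := quarter_le
  have hE : (0 : ℝ) < Real.exp (-1) ^ k := by positivity
  calc (1 / 4 : ℝ) ^ k * ((1 / 4 : ℝ) ^ k * (1 / 4 : ℝ) ^ d) * (1 / 1048576) *
        (34816 * (d : ℝ) ^ 2 * ((k : ℝ) + 2) ^ 2)
      = (1 / 4 : ℝ) ^ k * (((d : ℝ) ^ 2 * (1 / 4 : ℝ) ^ d) *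
          (((k : ℝ) + 2) ^ 2 * (1 / 4 : ℝ) ^ k)) * (34816 / 1048576) := by ring
    _ ≤ (1 / 4 : ℝ) ^ k * (1 * 4) * (34816 / 1048576) := by gcongr
    _ ≤ Real.exp (-1) ^ k * (1 * 4) * (34816 / 1048576) := by gcongr
    _ ≤ Real.exp (-1) ^ k * Real.exp (-1) := by nlinarith

theorem shell_unpop (hd : 1 ≤ d) {f : Cube n → ℝ} (hf : Bdd d f) {β : ℝ} (hβ : 0 < β)
    (hβ1 : β ≤ 1) (k : ℕ) {y s : ℝ} (hs : 0 ≤ s) (hsy : s ≤ y) (W : Finset (Fin n))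
    (hW1 : ∀ w ∈ W, Real.exp (-((k : ℝ) + 1)) ≤ Iw f w ∧ Iw f w ≤ Real.exp (-(k : ℝ)))
    (hW2 : ∀ w ∈ W, y ≤ yL β f w)
    (hpop : ∀ a, ∑ w ∈ W.filter (fun w => a ∈ Cb β f w), Iw f w
      ≤ Real.exp (-(k : ℝ) + y - s)) :
    ∑ w ∈ W, Iw f w ≤ BB d β k * Real.exp (-s) := by
  by_contra hcon
  push Not at hcon
  set m := ∑ w ∈ W, Iw f w with hm
  have hd1 : (1 : ℝ) ≤ d := by exact_mod_cast hd
  have hd0 : (0 : ℝ) < d := by linarith
  have hk0 : (0 : ℝ) ≤ k := Nat.cast_nonneg k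
  have hBB : 0 < BB d β k := by unfold BB; positivity
  have hmpos : 0 < m := lt_trans (by positivity) hcon
  have he : Real.exp 1 ≤ 2.7182818286 := Real.exp_one_lt_d9.le
  -- `exp(-s)` bound
  have hm1 : 20000000 * (d : ℝ) ^ 5 * ((k : ℝ) + 2) ^ 4 / β ^ 2 * Real.exp (-s) < m := hcon
  have hG0 : 0 < Real.exp (-((k : ℝ) + 1) + y) := Real.exp_pos _
  have hGe : Real.exp (-((k : ℝ) + 1)) ≤ Real.exp (-((k : ℝ) + 1) + y) :=
    Real.exp_le_exp.2 (by linarith)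
  set G := Real.exp (-((k : ℝ) + 1) + y) with hG
  set ξ := G / (8704 * (d : ℝ) ^ 2 * ((k : ℝ) + 2) * (2 * ((k : ℝ) + 2))) with hξ
  have hPH : PH d f W (fun w => Cb β f w) (2 * ((k : ℝ) + 1) / β ^ 2)
      (Real.exp (-(k : ℝ) + y - s) / m) ξ (4 * k + 2 * d + 20) := by
    refine ⟨hd, hf, hmpos, by positivity, by positivity, ?_, ?_, ?_⟩
    · intro w hw
      have hI := hW1 w hw
      have hIpos : 0 < Iw f w := lt_of_lt_of_le (Real.exp_pos _) hI.1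
      refine (card_Cb_le hf hβ w hIpos).trans ?_
      have hlog : -Real.log (Iw f w) ≤ (k : ℝ) + 1 := by
        have := Real.log_le_log (Real.exp_pos _) hI.1
        rw [Real.log_exp] at this
        linarith
      gcongr
    · intro a
      rw [← hm, div_mul_cancel₀ _ hmpos.ne']
      exact hpop a
    · have h1 : (1 / 2 : ℝ) ^ (4 * k + 2 * d + 20) ≤ ξ / 2 := by
        refine (num3 d k hd).trans ?_
        rw [hξ, div_div]
        calc Real.exp (-((k : ℝ) + 1)) / (34816 * (d : ℝ) ^ 2 * ((k : ℝ) + 2) ^ 2)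
            ≤ G / (34816 * (d : ℝ) ^ 2 * ((k : ℝ) + 2) ^ 2) := by gcongr
          _ = _ := by congr 1; ring
      have h2 : 8 * (((4 * k + 2 * d + 20 : ℕ) : ℝ) + 1) * (d : ℝ) ^ 2 *
          (2 * ((k : ℝ) + 1) / β ^ 2) * (Real.exp (-(k : ℝ) + y - s) / m) ≤ ξ / 2 := by
        have hE : Real.exp (-(k : ℝ) + y - s) = G * (Real.exp 1 * Real.exp (-s)) := by
          rw [hG, ← Real.exp_add, ← Real.exp_add]
          congr 1
          ring
        rw [hE, hξ]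
        have hI : (((4 * k + 2 * d + 20 : ℕ) : ℝ) + 1) ≤ 12 * d * ((k : ℝ) + 2) := by
          push_cast
          nlinarith
        have hkey : 8 * (12 * d * ((k : ℝ) + 2)) * (d : ℝ) ^ 2 *
            (2 * ((k : ℝ) + 2) / β ^ 2) * (Real.exp 1 * Real.exp (-s)) *
            (2 * (8704 * (d : ℝ) ^ 2 * ((k : ℝ) + 2) * (2 * ((k : ℝ) + 2)))) ≤ m := by
          refine le_trans ?_ hm1.le
          have h5 : 8 * (12 * d * ((k : ℝ) + 2)) * (d : ℝ) ^ 2 *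
            (2 * ((k : ℝ) + 2) / β ^ 2) * (Real.exp 1 * Real.exp (-s)) *
            (2 * (8704 * (d : ℝ) ^ 2 * ((k : ℝ) + 2) * (2 * ((k : ℝ) + 2)))) =
            (6684672 * Real.exp 1) * ((d : ℝ) ^ 5 * ((k : ℝ) + 2) ^ 4 / β ^ 2 * Real.exp (-s)) := by
            ring
          have h6 : 20000000 * (d : ℝ) ^ 5 * ((k : ℝ) + 2) ^ 4 / β ^ 2 * Real.exp (-s) =
            20000000 * ((d : ℝ) ^ 5 * ((k : ℝ) + 2) ^ 4 / β ^ 2 * Real.exp (-s)) := by ring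
          rw [h5, h6]
          apply mul_le_mul_of_nonneg_right _ (by positivity)
          linarith
        have h7 : 8 * (((4 * k + 2 * d + 20 : ℕ) : ℝ) + 1) * (d : ℝ) ^ 2 *
            (2 * ((k : ℝ) + 1) / β ^ 2) * (G * (Real.exp 1 * Real.exp (-s)) / m) ≤
            8 * (12 * d * ((k : ℝ) + 2)) * (d : ℝ) ^ 2 *
            (2 * ((k : ℝ) + 2) / β ^ 2) * (G * (Real.exp 1 * Real.exp (-s)) / m) := by
          gcongr
          linarith
        refine h7.trans ?_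
        rw [div_div, le_div_iff₀ (by positivity)]
        have h8 : 8 * (12 * d * ((k : ℝ) + 2)) * (d : ℝ) ^ 2 *
            (2 * ((k : ℝ) + 2) / β ^ 2) * (G * (Real.exp 1 * Real.exp (-s)) / m) *
            (8704 * (d : ℝ) ^ 2 * ((k : ℝ) + 2) * (2 * ((k : ℝ) + 2)) * 2) =
            G * (8 * (12 * d * ((k : ℝ) + 2)) * (d : ℝ) ^ 2 *
            (2 * ((k : ℝ) + 2) / β ^ 2) * (Real.exp 1 * Real.exp (-s)) *
            (2 * (8704 * (d : ℝ) ^ 2 * ((k : ℝ) + 2) * (2 * ((k : ℝ) + 2)))) / m) := by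
          ring
        rw [h8]
        have h9 := (div_le_one hmpos).2 hkey
        calc G * _ ≤ G * 1 := mul_le_mul_of_nonneg_left h9 hG0.le
          _ = G := mul_one G
      linarith
  refine no_plant (p := 2 * k + 4) (J := k + 2) hPH (by omega) (Pm := Real.exp (-(k : ℝ)))
    (fun w hw => (hW1 w hw).2) hG0 ?_ (by omega) ?_ ?_ ?_ ?_
  · intro w hw
    have hI := hW1 w hw
    have hIpos : 0 < Iw f w := lt_of_lt_of_le (Real.exp_pos _) hI.1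
    have h := exp_sum_KL_le (h := gs f w) (fun x => gs_nonneg f w x) hIpos (Cb β f w)
    refine le_trans ?_ h
    have h1 : Real.exp y ≤ Real.exp (∑ a ∈ Cb β f w, KL (bias (gs f w) a)) :=
      Real.exp_le_exp.2 (hW2 w hw)
    have h2 : G = Real.exp (-((k : ℝ) + 1)) * Real.exp y := by rw [hG, Real.exp_add]
    have h3 : ex (gs f w) = Iw f w := rfl
    rw [h2, h3]
    calc Real.exp (-((k : ℝ) + 1)) * Real.exp y * Iw f w
        ≤ Iw f w * Real.exp (∑ a ∈ Cb β f w, KL (bias (gs f w) a)) * Iw f w := by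
          apply mul_le_mul_of_nonneg_right _ hIpos.le
          exact mul_le_mul hI.1 h1 (Real.exp_pos _).le hIpos.le
      _ = _ := by ring
  · have := num1 k
    linarith
  · refine (num2 k).trans ?_
    push_cast
    gcongr
  · rw [hξ]
    push_cast
    apply le_of_eq
    congr 1
    ring
  · rw [← hm, div_le_div_iff₀ hmpos (by push_cast; positivity)]
    push_cast
    have hE : Real.exp (-(k : ℝ)) = G * (Real.exp 1 * Real.exp (-y)) := by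
      rw [hG, ← Real.exp_add, ← Real.exp_add]
      congr 1
      ring
    have hsy' : Real.exp (-y) ≤ Real.exp (-s) := Real.exp_le_exp.2 (by linarith)
    rw [hE]
    have h1 : Real.exp 1 * Real.exp (-y) * (1024 * (d : ℝ) ^ 2 * ((k : ℝ) + 2)) ≤ m := by
      refine le_trans ?_ hm1.le
      have hb2 : β ^ 2 ≤ 1 := pow_le_one₀ hβ.le hβ1
      have h2 : 20000000 * (d : ℝ) ^ 5 * ((k : ℝ) + 2) ^ 4 ≤
          20000000 * (d : ℝ) ^ 5 * ((k : ℝ) + 2) ^ 4 / β ^ 2 := by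
        rw [le_div_iff₀ (by positivity)]
        exact mul_le_of_le_one_right (by positivity) hb2
      have h3 : (d : ℝ) ^ 2 ≤ (d : ℝ) ^ 5 := pow_le_pow_right₀ hd1 (by norm_num)
      have h4 : ((k : ℝ) + 2) ≤ ((k : ℝ) + 2) ^ 4 := by
        have : (1 : ℝ) ≤ (k : ℝ) + 2 := by linarith
        calc ((k : ℝ) + 2) = ((k : ℝ) + 2) ^ 1 := (pow_one _).symm
          _ ≤ _ := pow_le_pow_right₀ this (by norm_num)
      calc Real.exp 1 * Real.exp (-y) * (1024 * (d : ℝ) ^ 2 * ((k : ℝ) + 2))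
          ≤ 3 * Real.exp (-s) * (1024 * (d : ℝ) ^ 5 * ((k : ℝ) + 2) ^ 4) := by
            gcongr
            linarith
        _ = (3072 * (d : ℝ) ^ 5 * ((k : ℝ) + 2) ^ 4) * Real.exp (-s) := by ring
        _ ≤ (20000000 * (d : ℝ) ^ 5 * ((k : ℝ) + 2) ^ 4) * Real.exp (-s) := by
            gcongr
            norm_num
        _ ≤ _ := by gcongr
    calc G * (Real.exp 1 * Real.exp (-y)) * (1024 * (d : ℝ) ^ 2 * ((k : ℝ) + 2))
        = G * (Real.exp 1 * Real.exp (-y) * (1024 * (d : ℝ) ^ 2 * ((k : ℝ) + 2))) := by ring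
      _ ≤ G * m := mul_le_mul_of_nonneg_left h1 hG0.le

end Pool.Agent.QAA
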