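import Mathlib
import Pool.Agent.QAA.ShellU
import Pool.Agent.QAA.Pop

/-!
QAA module SHE: the shell lemma.

`A a = ∑_{w ∈ W, a ∈ Cb β f w} Iw f w ≤ (4d/β²) Iw f a` (`pop`). Let
`Po = {a | exp(-k + y/2) < A a}`; for `a ∈ Po`: `Iw f a ≥ β²/(4d) exp(-k + y/2)`.
`W₁ = {w ∈ W | ∃ a ∈ Po, a ∈ Cb β f w}` has mass `≤ ∑_{a ∈ Po} A a ≤ (4d/β²) ∑_{a ∈ Po} Iw f a`.
`W' = W \ W₁` satisfies the hypothesis `hpop` of `shell_unpop` with `s = y/2`
(`-k + y - y/2 = -k + y/2`): if `a ∉ Po` its sum is `≤ A a ≤ exp(-k+y/2)`, if `a ∈ Po` it is an empty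
sum. (Compare `Pool/Agent/SUB/Shell.lean`.)
-/

set_option linter.dupNamespace false

namespace Pool.Agent.QAA

open Finset Pool.Agent.Helper11.Cube Pool.Agent.Helper11.AA Pool.Agent.SUB

variable {n d : ℕ}

theorem shell (hd : 1 ≤ d) {f : Cube n → ℝ} (hf : Bdd d f) {β : ℝ} (hβ : 0 < β)
    (hβ1 : β ≤ 1) (k : ℕ) {y : ℝ} (hy : 0 ≤ y) (W : Finset (Fin n))
    (hW1 : ∀ w ∈ W, Real.exp (-((k : ℝ) + 1)) ≤ Iw f w ∧ Iw f w ≤ Real.exp (-(k : ℝ)))
    (hW2 : ∀ w ∈ W, y ≤ yL β f w) :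
    ∑ w ∈ W, Iw f w
      ≤ 4 * (d : ℝ) / β ^ 2 * ∑ a ∈ univ.filter
          (fun a => β ^ 2 / (4 * (d : ℝ)) * Real.exp (-(k : ℝ) + y / 2) ≤ Iw f a), Iw f a
        + BB d β k * Real.exp (-(y / 2)) := by
  classical
  have hd0 : (0 : ℝ) < d := by exact_mod_cast hd
  set A : Fin n → ℝ := fun a => ∑ w ∈ W.filter (fun w => a ∈ Cb β f w), Iw f w with hAdef
  have hA : ∀ a, A a ≤ 4 * (d : ℝ) / β ^ 2 * Iw f a := fun a => pop hf hβ W a
  set Po : Finset (Fin n) := univ.filter (fun a => Real.exp (-(k : ℝ) + y / 2) < A a) with hPo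
  have hPop : ∀ a ∈ Po, β ^ 2 / (4 * (d : ℝ)) * Real.exp (-(k : ℝ) + y / 2) ≤ Iw f a := by
    intro a ha
    rw [hPo, mem_filter] at ha
    have h1 : Real.exp (-(k : ℝ) + y / 2) ≤ 4 * (d : ℝ) / β ^ 2 * Iw f a := ha.2.le.trans (hA a)
    have h2 : 0 ≤ β ^ 2 / (4 * (d : ℝ)) := by positivity
    calc β ^ 2 / (4 * (d : ℝ)) * Real.exp (-(k : ℝ) + y / 2)
        ≤ β ^ 2 / (4 * (d : ℝ)) * (4 * (d : ℝ) / β ^ 2 * Iw f a) :=
          mul_le_mul_of_nonneg_left h1 h2
      _ = Iw f a := by field_simp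
  -- the two parts
  have hsplit := Finset.sum_filter_add_sum_filter_not W
    (fun w => ∃ a ∈ Po, a ∈ Cb β f w) (fun w => Iw f w)
  rw [← hsplit]
  refine add_le_add ?_ ?_
  · have h1 : ∑ w ∈ W.filter (fun w => ∃ a ∈ Po, a ∈ Cb β f w), Iw f w ≤ ∑ a ∈ Po, A a := by
      have h2 : ∑ a ∈ Po, A a = ∑ w ∈ W, ∑ a ∈ Po, if a ∈ Cb β f w then Iw f w else 0 := by
        rw [Finset.sum_comm]
        refine Finset.sum_congr rfl fun a _ => ?_
        simp only [hAdef]
        rw [Finset.sum_filter]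
      rw [h2, Finset.sum_filter]
      refine Finset.sum_le_sum fun w _ => ?_
      split_ifs with hex
      · obtain ⟨a, ha, hb⟩ := hex
        have h3 := Finset.single_le_sum (s := Po)
          (f := fun a => if a ∈ Cb β f w then Iw f w else 0)
          (fun a _ => by
            split_ifs
            · exact Iw_nonneg _ _
            · exact le_rfl) ha
        simpa [hb] using h3
      · exact Finset.sum_nonneg fun a _ => by
          split_ifs
          · exact Iw_nonneg _ _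
          · exact le_rfl
    refine h1.trans ?_
    rw [Finset.mul_sum]
    refine (Finset.sum_le_sum fun a _ => hA a).trans ?_
    refine Finset.sum_le_sum_of_subset_of_nonneg ?_ ?_
    · intro a ha
      rw [mem_filter]
      exact ⟨mem_univ a, hPop a ha⟩
    · intro a _ _
      exact mul_nonneg (by positivity) (Iw_nonneg _ _)
  · refine shell_unpop hd hf hβ hβ1 k (y := y) (s := y / 2) (by linarith) (by linarith) _
      ?_ ?_ ?_
    · intro w hw'
      exact hW1 w (mem_filter.1 hw').1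
    · intro w hw'
      exact hW2 w (mem_filter.1 hw').1
    · intro a
      rw [show -(k : ℝ) + y - y / 2 = -(k : ℝ) + y / 2 by ring]
      by_cases ha : a ∈ Po
      · rw [Finset.sum_eq_zero]
        · exact (Real.exp_pos _).le
        · intro w hw'
          rw [mem_filter, mem_filter] at hw'
          exact absurd ⟨a, ha, hw'.2⟩ hw'.1.2
      · have h1 : A a ≤ Real.exp (-(k : ℝ) + y / 2) := by
          by_contra hcon
          exact ha (by rw [hPo, mem_filter]; exact ⟨mem_univ a, not_le.1 hcon⟩)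
        refine le_trans ?_ h1
        refine Finset.sum_le_sum_of_subset_of_nonneg ?_ ?_
        · intro w hw'
          rw [mem_filter, mem_filter] at hw'
          rw [mem_filter]
          exact ⟨hw'.1.1, hw'.2⟩
        · intro w _ _
          exact Iw_nonneg _ _

end Pool.Agent.QAA
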