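import Mathlib
import Pool.Agent.QAA.Shell

/-!
QAA module LOL: the local inequality for the coordinates with large bias.

Write `I w = Iw f w`, `L w = -log (I w)`, `y w = yL β f w ≤ L w` (`yL_le`), `F = Fi γ f`.
Terms with `I w = 0` vanish (`0^(1+γ) = 0`). `γ (1+γ) ≤ 2 γ`, `y w ≥ 0`.
(a) `y w ≤ Y`: the term is `≤ 2 γ Y (I w)^(1+γ)`.
(b) `L w ≥ K1` (then `γ L w ≥ Y`): the term is `≤ 2 I^(1+γ) γ L ≤ 2 I exp(-γ L/2) ≤ 2 I exp(-Y/2)`
(`rpow_term_le`); the sum is `≤ 4 d^2 exp(-Y/2)` (`sum_Iw_le`).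
(c) `Y < y w`, `L w < K1`: let `k = ⌊L w⌋₊ < K1`; `W_k` is the set of these `w`. `I w ∈ [exp(-(k+1)), exp(-k)]`,
`y w ≤ k+1`, `(I w)^γ ≤ exp(-γ k)`, so the terms of `W_k` sum to at most
`2 γ (k+1) exp(-γ k) ∑_{W_k} I w`, and `shell` (with `y = Y`) bounds `∑_{W_k} I w` by
`(4d/β²) ∑_{a ∈ F_k} I a + BB d β k exp(-Y/2)`. For `a ∈ F_k`:
`1 ≤ ((4d/β²) exp(k - Y/2) I a)^γ ≤ (4d/β²) exp(γ k) exp(-γ Y/2) (I a)^γ` (`4d/β² ≥ 1`, `γ ≤ 1`),
so `exp(-γ k) ∑_{F_k} I a ≤ (4d/β²) exp(-γY/2) ∑_a (I a)^(1+γ)`. Sum over the `K1` values of `k`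
(`k + 1 ≤ K1`, `BB d β k ≤ BB d β K1`, `exp(-γ k) ≤ 1`):
`≤ 2 γ K1^2 ((4d/β²)^2 exp(-γ Y/2) F + BB d β K1 exp(-Y/2))`.
-/

set_option linter.dupNamespace false

namespace Pool.Agent.QAA

open Finset Pool.Agent.Helper11.Cube Pool.Agent.Helper11.AA Pool.Agent.SUB

variable {n d : ℕ}

/-- The terms of the sum. -/
private lemma term_le {f : Cube n → ℝ} {β : ℝ} {γ : ℝ} (hγ : 0 < γ)
    (hγ1 : γ ≤ 1) (w : Fin n) {b : ℝ} (hb : yL β f w ≤ b) :
    Iw f w ^ (1 + γ) * (γ * (1 + γ) * yL β f w) ≤ Iw f w ^ (1 + γ) * (2 * γ * b) := by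
  refine mul_le_mul_of_nonneg_left ?_ (Real.rpow_nonneg (Iw_nonneg f w) _)
  have h0 := yL_nonneg β f w
  have h1 : γ * (1 + γ) ≤ 2 * γ := by nlinarith
  calc γ * (1 + γ) * yL β f w ≤ 2 * γ * yL β f w := mul_le_mul_of_nonneg_right h1 h0
    _ ≤ 2 * γ * b := mul_le_mul_of_nonneg_left hb (by positivity)

/-- One shell. -/
lemma local_shell (hd : 1 ≤ d) {f : Cube n → ℝ} (hf : Bdd d f) {β : ℝ} (hβ : 0 < β)
    (hβ1 : β ≤ 1) {γ Y : ℝ} (hγ : 0 < γ) (hγ1 : γ ≤ 1) (hY : 0 ≤ Y) (k : ℕ)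
    (W : Finset (Fin n))
    (hW1 : ∀ w ∈ W, Real.exp (-((k : ℝ) + 1)) ≤ Iw f w ∧ Iw f w ≤ Real.exp (-(k : ℝ)))
    (hW2 : ∀ w ∈ W, Y ≤ yL β f w) :
    ∑ w ∈ W, Iw f w ^ (1 + γ) * (γ * (1 + γ) * yL β f w)
      ≤ 2 * γ * ((k : ℝ) + 1) * ((4 * (d : ℝ) / β ^ 2) ^ 2 * Real.exp (-(γ * Y / 2)) * Fi γ f
        + BB d β k * Real.exp (-(Y / 2))) := by
  classical
  have hd1 : (1 : ℝ) ≤ d := by exact_mod_cast hd
  set c : ℝ := 4 * (d : ℝ) / β ^ 2 with hc
  have hβ2 : β ^ 2 ≤ 1 := by nlinarith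
  have hc1 : 1 ≤ c := by
    rw [hc, le_div_iff₀ (by positivity)]
    nlinarith
  have hc0 : 0 < c := by linarith
  have hBB : 0 ≤ BB d β k := by unfold BB; positivity
  -- terms
  have hterm : ∀ w ∈ W, Iw f w ^ (1 + γ) * (γ * (1 + γ) * yL β f w)
      ≤ 2 * γ * ((k : ℝ) + 1) * Real.exp (-(γ * k)) * Iw f w := by
    intro w hw
    obtain ⟨h1, h2⟩ := hW1 w hw
    have hP : 0 < Iw f w := lt_of_lt_of_le (Real.exp_pos _) h1
    have h3 : -((k : ℝ) + 1) ≤ Real.log (Iw f w) := by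
      rw [Real.le_log_iff_exp_le hP]; exact h1
    have h4 : Real.log (Iw f w) ≤ -(k : ℝ) := by
      rw [Real.log_le_iff_le_exp hP]; exact h2
    have h5 : yL β f w ≤ (k : ℝ) + 1 := (yL_le hf β w hP).trans (by linarith)
    refine (term_le hγ hγ1 w h5).trans ?_
    have h7 : Iw f w ^ (1 + γ) ≤ Real.exp (-(γ * k)) * Iw f w := by
      rw [Real.rpow_add hP, Real.rpow_one, mul_comm]
      refine mul_le_mul_of_nonneg_right ?_ hP.le
      rw [Real.rpow_def_of_pos hP]
      refine Real.exp_le_exp.mpr ?_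
      have := mul_le_mul_of_nonneg_left h4 hγ.le
      linarith
    calc Iw f w ^ (1 + γ) * (2 * γ * ((k : ℝ) + 1))
        ≤ Real.exp (-(γ * k)) * Iw f w * (2 * γ * ((k : ℝ) + 1)) :=
          mul_le_mul_of_nonneg_right h7 (by positivity)
      _ = 2 * γ * ((k : ℝ) + 1) * Real.exp (-(γ * k)) * Iw f w := by ring
  have hsh := shell hd hf hβ hβ1 k hY W hW1 hW2
  rw [← hc] at hsh
  -- the popular coordinates
  have hpop : Real.exp (-(γ * k)) * ∑ a ∈ univ.filter
      (fun a => β ^ 2 / (4 * (d : ℝ)) * Real.exp (-(k : ℝ) + Y / 2) ≤ Iw f a), Iw f a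
      ≤ c * Real.exp (-(γ * Y / 2)) * Fi γ f := by
    unfold Fi
    rw [Finset.mul_sum, Finset.mul_sum]
    have h1 : ∀ a ∈ univ.filter
        (fun a => β ^ 2 / (4 * (d : ℝ)) * Real.exp (-(k : ℝ) + Y / 2) ≤ Iw f a),
        Real.exp (-(γ * k)) * Iw f a ≤ c * Real.exp (-(γ * Y / 2)) * Iw f a ^ (1 + γ) := by
      intro a ha
      rw [Finset.mem_filter] at ha
      have ha2 := ha.2
      have hP : 0 < Iw f a := lt_of_lt_of_le (by positivity) ha2
      have e1 : β ^ 2 / (4 * (d : ℝ)) * Real.exp (-(k : ℝ) + Y / 2)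
          = Real.exp (-Real.log c + (-(k : ℝ) + Y / 2)) := by
        rw [Real.exp_add (-Real.log c), Real.exp_neg (Real.log c), Real.exp_log hc0, hc, inv_div]
      rw [e1] at ha2
      have h2 : -Real.log c + (-(k : ℝ) + Y / 2) ≤ Real.log (Iw f a) := by
        rw [Real.le_log_iff_exp_le hP]; exact ha2
      have hlc : 0 ≤ Real.log c := Real.log_nonneg hc1
      have h3 : Real.exp (-Real.log c - γ * k + γ * Y / 2) ≤ Iw f a ^ γ := by
        rw [Real.rpow_def_of_pos hP]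
        refine Real.exp_le_exp.mpr ?_
        have h4 := mul_le_mul_of_nonneg_left h2 hγ.le
        nlinarith
      have h5 : Real.exp (-(γ * k)) ≤ c * Real.exp (-(γ * Y / 2)) * Iw f a ^ γ := by
        have h6 := mul_le_mul_of_nonneg_left h3
          (show 0 ≤ c * Real.exp (-(γ * Y / 2)) by positivity)
        refine le_trans (le_of_eq ?_) h6
        have e2 : c * Real.exp (-(γ * Y / 2)) * Real.exp (-Real.log c - γ * k + γ * Y / 2)
            = Real.exp (Real.log c) * Real.exp (-(γ * Y / 2))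
              * Real.exp (-Real.log c - γ * k + γ * Y / 2) := by
          rw [Real.exp_log hc0]
        rw [e2, ← Real.exp_add, ← Real.exp_add]
        congr 1
        ring
      rw [Real.rpow_add hP, Real.rpow_one]
      calc Real.exp (-(γ * k)) * Iw f a
          ≤ c * Real.exp (-(γ * Y / 2)) * Iw f a ^ γ * Iw f a :=
            mul_le_mul_of_nonneg_right h5 hP.le
        _ = c * Real.exp (-(γ * Y / 2)) * (Iw f a * Iw f a ^ γ) := by ring
    refine (Finset.sum_le_sum h1).trans ?_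
    refine Finset.sum_le_sum_of_subset_of_nonneg (Finset.filter_subset _ _) fun a _ _ => ?_
    exact mul_nonneg (by positivity) (Real.rpow_nonneg (Iw_nonneg f a) _)
  have hexp : Real.exp (-(γ * k)) ≤ 1 := by
    rw [Real.exp_le_one_iff]
    have : 0 ≤ γ * k := by positivity
    linarith
  have hS0 : 0 ≤ Real.exp (-(γ * k)) := (Real.exp_pos _).le
  calc ∑ w ∈ W, Iw f w ^ (1 + γ) * (γ * (1 + γ) * yL β f w)
      ≤ ∑ w ∈ W, 2 * γ * ((k : ℝ) + 1) * Real.exp (-(γ * k)) * Iw f w := Finset.sum_le_sum hterm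
    _ = 2 * γ * ((k : ℝ) + 1) * (Real.exp (-(γ * k)) * ∑ w ∈ W, Iw f w) := by
        rw [← Finset.mul_sum]; ring
    _ ≤ 2 * γ * ((k : ℝ) + 1) * (c * (c * Real.exp (-(γ * Y / 2)) * Fi γ f)
          + 1 * (BB d β k * Real.exp (-(Y / 2)))) := by
        refine mul_le_mul_of_nonneg_left ?_ (by positivity)
        refine (mul_le_mul_of_nonneg_left hsh hS0).trans ?_
        rw [mul_add]
        refine add_le_add ?_ ?_
        · calc _ = c * (Real.exp (-(γ * k)) * ∑ a ∈ univ.filter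
              (fun a => β ^ 2 / (4 * (d : ℝ)) * Real.exp (-(k : ℝ) + Y / 2) ≤ Iw f a), Iw f a) := by
                ring
            _ ≤ _ := mul_le_mul_of_nonneg_left hpop hc0.le
        · exact mul_le_mul_of_nonneg_right hexp (by positivity)
    _ = 2 * γ * ((k : ℝ) + 1) * (c ^ 2 * Real.exp (-(γ * Y / 2)) * Fi γ f
        + BB d β k * Real.exp (-(Y / 2))) := by ring

theorem local_large (hd : 1 ≤ d) {f : Cube n → ℝ} (hf : Bdd d f) {β : ℝ} (hβ : 0 < β)
    (hβ1 : β ≤ 1) {γ Y : ℝ} (hγ : 0 < γ) (hγ1 : γ ≤ 1) (hY : 0 ≤ Y) (K1 : ℕ)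
    (hK1 : Y ≤ γ * K1) :
    ∑ w, Iw f w ^ (1 + γ) * (γ * (1 + γ) * yL β f w)
      ≤ (2 * γ * Y + 2 * γ * ((K1 : ℝ) + 1) ^ 2 * (4 * (d : ℝ) / β ^ 2) ^ 2
          * Real.exp (-(γ * Y / 2))) * Fi γ f
        + (2 * γ * ((K1 : ℝ) + 1) ^ 2 * BB d β K1 + 4 * (d : ℝ) ^ 2) * Real.exp (-(Y / 2)) := by
  classical
  set c : ℝ := 4 * (d : ℝ) / β ^ 2 with hc
  set t : Fin n → ℝ := fun w => Iw f w ^ (1 + γ) * (γ * (1 + γ) * yL β f w) with ht
  have ht0 : ∀ w, 0 ≤ t w := fun w => by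
    simp only [ht]
    have := yL_nonneg β f w
    exact mul_nonneg (Real.rpow_nonneg (Iw_nonneg f w) _) (by positivity)
  have hFi := Fi_nonneg γ f
  set W : ℕ → Finset (Fin n) := fun k => univ.filter (fun w =>
    (Real.exp (-((k : ℝ) + 1)) ≤ Iw f w ∧ Iw f w ≤ Real.exp (-(k : ℝ))) ∧ Y ≤ yL β f w) with hW
  have hshell : ∀ k ∈ Finset.range K1, ∑ w ∈ W k, t w
      ≤ 2 * γ * ((K1 : ℝ) + 1) * (c ^ 2 * Real.exp (-(γ * Y / 2)) * Fi γ f
        + BB d β K1 * Real.exp (-(Y / 2))) := by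
    intro k hk
    rw [Finset.mem_range] at hk
    have hkK : (k : ℝ) ≤ K1 := by exact_mod_cast hk.le
    have h1 := local_shell hd hf hβ hβ1 hγ hγ1 hY k (W k)
      (fun w hw => (Finset.mem_filter.mp hw).2.1) (fun w hw => (Finset.mem_filter.mp hw).2.2)
    have hBB : BB d β k ≤ BB d β K1 := by
      unfold BB
      apply div_le_div_of_nonneg_right _ (by positivity)
      apply mul_le_mul_of_nonneg_left _ (by positivity)
      exact pow_le_pow_left₀ (by positivity) (by linarith) 4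
    have hBB0 : 0 ≤ BB d β k := by unfold BB; positivity
    refine h1.trans ?_
    rw [← hc]
    have h2 : 0 ≤ c ^ 2 * Real.exp (-(γ * Y / 2)) * Fi γ f := by positivity
    apply mul_le_mul
    · apply mul_le_mul_of_nonneg_left _ (by positivity)
      linarith
    · have := mul_le_mul_of_nonneg_right hBB (Real.exp_pos (-(Y / 2))).le
      linarith
    · positivity
    · positivity
  -- pointwise splitting
  have hpoint : ∀ w ∈ (univ : Finset (Fin n)), t w ≤ 2 * γ * Y * Iw f w ^ (1 + γ) +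
      2 * Real.exp (-(Y / 2)) * Iw f w +
      ∑ k ∈ Finset.range K1, (if w ∈ W k then t w else 0) := by
    intro w _
    have hs0 : 0 ≤ ∑ k ∈ Finset.range K1, (if w ∈ W k then t w else 0) :=
      Finset.sum_nonneg fun i _ => by
        split_ifs
        · exact ht0 w
        · exact le_rfl
    have hb0 : 0 ≤ 2 * Real.exp (-(Y / 2)) * Iw f w :=
      mul_nonneg (by positivity) (Iw_nonneg f w)
    have ha0 : 0 ≤ 2 * γ * Y * Iw f w ^ (1 + γ) :=
      mul_nonneg (by positivity) (Real.rpow_nonneg (Iw_nonneg f w) _)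
    rcases (Iw_nonneg f w).eq_or_lt with h0 | hP
    · have : t w = 0 := by
        simp only [ht]
        rw [← h0, Real.zero_rpow (by linarith), zero_mul]
      linarith
    · by_cases h1 : yL β f w ≤ Y
      · have h2 := term_le hγ hγ1 w h1
        have h3 : t w ≤ 2 * γ * Y * Iw f w ^ (1 + γ) := by
          simp only [ht]
          linarith
        linarith
      · push Not at h1
        set L : ℝ := - Real.log (Iw f w) with hL
        have hyL : yL β f w ≤ L := yL_le hf β w hP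
        have hL0 : 0 ≤ L := by linarith
        by_cases h2 : (K1 : ℝ) ≤ L
        · have h3 := term_le hγ hγ1 w hyL
          have h4 := rpow_term_le w hP hγ.le hL0
          have h5 : Y ≤ γ * L := hK1.trans (mul_le_mul_of_nonneg_left h2 hγ.le)
          have h6 : Iw f w * Real.exp (-(γ * L / 2)) ≤ Iw f w * Real.exp (-(Y / 2)) := by
            refine mul_le_mul_of_nonneg_left (Real.exp_le_exp.mpr (by linarith)) hP.le
          have h7 : t w ≤ 2 * Real.exp (-(Y / 2)) * Iw f w := by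
            simp only [ht]
            calc _ ≤ Iw f w ^ (1 + γ) * (2 * γ * L) := h3
              _ = 2 * (Iw f w ^ (1 + γ) * (γ * L)) := by ring
              _ ≤ 2 * (Iw f w * Real.exp (-(Y / 2))) := by linarith
              _ = 2 * Real.exp (-(Y / 2)) * Iw f w := by ring
          linarith
        · push Not at h2
          have hk1 : (⌊L⌋₊ : ℝ) ≤ L := Nat.floor_le hL0
          have hk2 : L < (⌊L⌋₊ : ℝ) + 1 := Nat.lt_floor_add_one L
          have hkK : ⌊L⌋₊ < K1 := by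
            have : (⌊L⌋₊ : ℝ) < K1 := lt_of_le_of_lt hk1 h2
            exact_mod_cast this
          have hwW : w ∈ W ⌊L⌋₊ := by
            simp only [hW, Finset.mem_filter, Finset.mem_univ, true_and]
            refine ⟨⟨?_, ?_⟩, h1.le⟩
            · rw [← Real.le_log_iff_exp_le hP]
              linarith
            · rw [← Real.log_le_iff_le_exp hP]
              linarith
          have h3 : t w ≤ ∑ k ∈ Finset.range K1, (if w ∈ W k then t w else 0) := by
            have := Finset.single_le_sum (f := fun k => if w ∈ W k then t w else 0)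
              (s := Finset.range K1) (fun j _ => by
                split_ifs
                · exact ht0 w
                · exact le_rfl) (Finset.mem_range.mpr hkK)
            simpa only [hwW, if_true] using this
          linarith
  have hsum := Finset.sum_le_sum hpoint
  rw [Finset.sum_add_distrib, Finset.sum_add_distrib, ← Finset.mul_sum, ← Finset.mul_sum] at hsum
  have s2 : 2 * Real.exp (-(Y / 2)) * ∑ w, Iw f w ≤ 4 * (d : ℝ) ^ 2 * Real.exp (-(Y / 2)) := by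
    have h1 := sum_Iw_le hf (univ : Finset (Fin n))
    have h2 := mul_le_mul_of_nonneg_left h1 (show 0 ≤ 2 * Real.exp (-(Y / 2)) by positivity)
    linarith
  have s3 : ∑ w, ∑ k ∈ Finset.range K1, (if w ∈ W k then t w else 0) ≤
      2 * γ * ((K1 : ℝ) + 1) ^ 2 * (c ^ 2 * Real.exp (-(γ * Y / 2)) * Fi γ f
        + BB d β K1 * Real.exp (-(Y / 2))) := by
    rw [Finset.sum_comm]
    have h1 : ∀ k ∈ Finset.range K1, ∑ w, (if w ∈ W k then t w else 0) ≤
        2 * γ * ((K1 : ℝ) + 1) * (c ^ 2 * Real.exp (-(γ * Y / 2)) * Fi γ f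
        + BB d β K1 * Real.exp (-(Y / 2))) := by
      intro k hk
      rw [← Finset.sum_filter]
      have h2 : univ.filter (fun w => w ∈ W k) = W k := by
        ext w
        simp
      rw [h2]
      exact hshell k hk
    refine (Finset.sum_le_sum h1).trans ?_
    rw [Finset.sum_const, Finset.card_range, nsmul_eq_mul]
    have hBB0 : 0 ≤ BB d β K1 := by unfold BB; positivity
    have h3 : 0 ≤ 2 * γ * ((K1 : ℝ) + 1) * (c ^ 2 * Real.exp (-(γ * Y / 2)) * Fi γ f
        + BB d β K1 * Real.exp (-(Y / 2))) := by positivity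
    calc (K1 : ℝ) * (2 * γ * ((K1 : ℝ) + 1) * (c ^ 2 * Real.exp (-(γ * Y / 2)) * Fi γ f
        + BB d β K1 * Real.exp (-(Y / 2))))
        ≤ ((K1 : ℝ) + 1) * (2 * γ * ((K1 : ℝ) + 1) * (c ^ 2 * Real.exp (-(γ * Y / 2)) * Fi γ f
        + BB d β K1 * Real.exp (-(Y / 2)))) := mul_le_mul_of_nonneg_right (by linarith) h3
      _ = _ := by ring
  have s1 : 2 * γ * Y * ∑ w, Iw f w ^ (1 + γ) = 2 * γ * Y * Fi γ f := rfl
  rw [s1] at hsum
  calc ∑ w, t w ≤ _ := hsum
    _ ≤ 2 * γ * Y * Fi γ f + 4 * (d : ℝ) ^ 2 * Real.exp (-(Y / 2))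
        + 2 * γ * ((K1 : ℝ) + 1) ^ 2 * (c ^ 2 * Real.exp (-(γ * Y / 2)) * Fi γ f
        + BB d β K1 * Real.exp (-(Y / 2))) := by linarith
    _ = _ := by ring

end Pool.Agent.QAA
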