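import Mathlib
import Pool.Agent.QAA.Extrap

/-!
QAA module SMC: the analytic core of the small bias lemma.

`G` has coefficients `|G_j| ≤ q^j`, `q ≤ 1/100`. Let `p = ∑_{j ≤ k} G_j X^j` be the truncation of
`G` (as a complex polynomial), `err = ∑_{j > k} |G_j| ≤ q^(k+1)/(1 - q) ≤ P/18`. For complex
`|s| ≤ 1`: `|G(s) - p(s)| ≤ err ≤ P/10`. So `|p(Iθ)| ≤ P exp(lam/8) + P/10` for `|θ| ≤ 1/2` (`him`),
`|p(1)| ≤ 6.1^k (P exp(lam/8) + P/10)` (`extrap`), and
`P exp Y ≤ G(1) ≤ |p(1)| + P/10`, `lam ≤ 2 Y`, in particular `Y ≥ 0`. Divide by `P`: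
`exp Y ≤ 6.1^k (exp(Y/4) + 1/10) + 1/10 ≤ 1.2 * 6.1^k exp(Y/4)`, so
`(3/4) Y ≤ k log 6.1 + log 1.2 ≤ 1.815 k + 0.1875` (`log 6.1 ≤ 1.815`, `log 1.2 ≤ 0.1875`, prove them as
`6.1 ≤ exp 1.815` etc.), `Y ≤ 2.42 k + 0.25`.
-/

set_option linter.dupNamespace false

namespace Pool.Agent.QAA

open Finset Polynomial

/-- The analytic core: a real polynomial `G` with tiny coefficients beyond `k`, small on the
imaginary segment, cannot be much larger at `1`. -/
lemma small_core {G : ℝ[X]} {P q lam Y : ℝ} {k : ℕ} (hP : 0 < P) (hq0 : 0 ≤ q)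
    (hq1 : q ≤ 1 / 100) (hc : ∀ j, |G.coeff j| ≤ q ^ j) (hk : q ^ (k + 1) ≤ P / 19)
    (him : ∀ θ : ℝ, |θ| ≤ 1 / 2 →
      ‖(G.map (algebraMap ℝ ℂ)).eval (Complex.I * (θ : ℂ))‖ ≤ P * Real.exp (θ ^ 2 * lam / 2))
    (hlam0 : 0 ≤ lam) (hlam : lam ≤ 2 * Y) (h1 : P * Real.exp Y ≤ G.eval 1) :
    Y ≤ 242 / 100 * k + 1 / 4 := by
  set pc : ℂ[X] := ∑ j ∈ Finset.range (k + 1), C ((G.coeff j : ℝ) : ℂ) * X ^ j with hpc
  have hpcdeg : pc.natDegree ≤ k := by
    rw [hpc]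
    apply natDegree_sum_le_of_forall_le
    intro j hj
    exact (natDegree_C_mul_X_pow_le _ _).trans (Nat.lt_succ_iff.1 (Finset.mem_range.1 hj))
  have herr : q ^ (k + 1) / (1 - q) ≤ P / 18 := by
    rw [div_le_iff₀ (by linarith)]
    have : P / 18 * (1 - q) ≥ P / 18 * (99 / 100) := by
      apply mul_le_mul_of_nonneg_left _ (by positivity)
      linarith
    linarith
  -- comparison with the truncation
  have hdiff : ∀ s : ℂ, ‖s‖ ≤ 1 →
      ‖(G.map (algebraMap ℝ ℂ)).eval s - pc.eval s‖ ≤ P / 18 := by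
    intro s hs
    set N := max G.natDegree k + 1 with hN
    have hkN : k + 1 ≤ N := Nat.succ_le_succ (le_max_right _ _)
    have e1 : (G.map (algebraMap ℝ ℂ)).eval s =
        ∑ j ∈ Finset.range N, ((G.coeff j : ℝ) : ℂ) * s ^ j := by
      rw [eval_eq_sum_range' (n := N)
        (lt_of_le_of_lt natDegree_map_le (Nat.lt_succ_of_le (le_max_left _ _)))]
      apply Finset.sum_congr rfl
      intro j _
      rw [coeff_map]
      rfl
    have e2 : pc.eval s = ∑ j ∈ Finset.range (k + 1), ((G.coeff j : ℝ) : ℂ) * s ^ j := by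
      rw [hpc, eval_finsetSum]
      apply Finset.sum_congr rfl
      intro j _
      rw [eval_mul, eval_C, eval_pow, eval_X]
    rw [e1, e2, ← Finset.sum_range_add_sum_Ico _ hkN, add_sub_cancel_left]
    calc ‖∑ j ∈ Finset.Ico (k + 1) N, ((G.coeff j : ℝ) : ℂ) * s ^ j‖
        ≤ ∑ j ∈ Finset.Ico (k + 1) N, ‖((G.coeff j : ℝ) : ℂ) * s ^ j‖ := norm_sum_le _ _
      _ ≤ ∑ j ∈ Finset.Ico (k + 1) N, q ^ j := by
          apply Finset.sum_le_sum
          intro j _
          rw [norm_mul, norm_pow, Complex.norm_real, Real.norm_eq_abs]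
          calc |G.coeff j| * ‖s‖ ^ j ≤ q ^ j * 1 := by
                apply mul_le_mul (hc j) (pow_le_one₀ (norm_nonneg _) hs) (by positivity)
                  (by positivity)
            _ = q ^ j := mul_one _
      _ ≤ q ^ (k + 1) / (1 - q) := geom_sum_Ico_le_of_lt_one hq0 (by linarith)
      _ ≤ P / 18 := herr
  have hpcim : ∀ θ : ℝ, |θ| ≤ 1 / 2 →
      ‖pc.eval (Complex.I * (θ : ℂ))‖ ≤ P * Real.exp (lam / 8) + P / 18 := by
    intro θ hθ
    have hn : ‖Complex.I * (θ : ℂ)‖ ≤ 1 := by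
      rw [norm_mul, Complex.norm_I, one_mul, Complex.norm_real, Real.norm_eq_abs]
      linarith
    have a1 := hdiff _ hn
    have a2 := him θ hθ
    have a3 : θ ^ 2 * lam / 2 ≤ lam / 8 := by
      have : θ ^ 2 ≤ 1 / 4 := by
        have := abs_le.1 hθ
        nlinarith [this.1, this.2]
      nlinarith
    have a4 : P * Real.exp (θ ^ 2 * lam / 2) ≤ P * Real.exp (lam / 8) :=
      mul_le_mul_of_nonneg_left (Real.exp_le_exp.2 a3) hP.le
    have a5 : ‖pc.eval (Complex.I * (θ : ℂ))‖ ≤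
        ‖(G.map (algebraMap ℝ ℂ)).eval (Complex.I * (θ : ℂ))‖ +
        ‖(G.map (algebraMap ℝ ℂ)).eval (Complex.I * (θ : ℂ)) -
          pc.eval (Complex.I * (θ : ℂ))‖ := by
      have := norm_sub_norm_le (pc.eval (Complex.I * (θ : ℂ)))
        ((G.map (algebraMap ℝ ℂ)).eval (Complex.I * (θ : ℂ)))
      rw [norm_sub_rev] at this
      linarith
    linarith
  have hext := extrap hpcdeg hpcim
  have hone := hdiff 1 (by rw [norm_one])
  have hG1 : (G.map (algebraMap ℝ ℂ)).eval 1 = ((G.eval 1 : ℝ) : ℂ) := by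
    rw [eval_map, eval₂_at_one]
    rfl
  have hGle : G.eval 1 ≤ ‖pc.eval 1‖ + P / 18 := by
    have a1 : ‖((G.eval 1 : ℝ) : ℂ)‖ ≤ ‖pc.eval 1‖ +
        ‖((G.eval 1 : ℝ) : ℂ) - pc.eval 1‖ := by
      have := norm_sub_norm_le ((G.eval 1 : ℝ) : ℂ) (pc.eval 1)
      linarith
    rw [hG1] at hone
    rw [Complex.norm_real, Real.norm_eq_abs] at a1
    linarith [le_abs_self (G.eval 1)]
  have hY0 : 0 ≤ Y := by linarith
  have hlamY : Real.exp (lam / 8) ≤ Real.exp (Y / 4) := Real.exp_le_exp.2 (by linarith)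
  have hE : 1 ≤ Real.exp (Y / 4) := Real.one_le_exp (by linarith)
  have h6 : (1 : ℝ) ≤ (61 / 10 : ℝ) ^ k := one_le_pow₀ (by norm_num)
  have hmain : P * Real.exp Y ≤ P * ((10 / 9) * ((61 / 10) ^ k * Real.exp (Y / 4))) := by
    have b1 : P * Real.exp Y ≤ (P * Real.exp (lam / 8) + P / 18) * (61 / 10) ^ k + P / 18 := by
      linarith
    have b2 : (P * Real.exp (lam / 8) + P / 18) * (61 / 10) ^ k ≤
        (P * Real.exp (Y / 4) + P / 18 * Real.exp (Y / 4)) * (61 / 10) ^ k := by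
      apply mul_le_mul_of_nonneg_right _ (by positivity)
      have := mul_le_mul_of_nonneg_left hlamY hP.le
      have h8 : P / 18 * 1 ≤ P / 18 * Real.exp (Y / 4) :=
        mul_le_mul_of_nonneg_left hE (by positivity)
      linarith
    have b3 : P / 18 ≤ P / 18 * ((61 / 10) ^ k * Real.exp (Y / 4)) := by
      have h9 : (1 : ℝ) ≤ (61 / 10) ^ k * Real.exp (Y / 4) := by
        calc (1 : ℝ) = 1 * 1 := (mul_one _).symm
          _ ≤ (61 / 10) ^ k * Real.exp (Y / 4) :=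
            mul_le_mul h6 hE (by norm_num) (by positivity)
      calc P / 18 = P / 18 * 1 := (mul_one _).symm
        _ ≤ _ := mul_le_mul_of_nonneg_left h9 (by positivity)
    calc P * Real.exp Y ≤ (P * Real.exp (Y / 4) + P / 18 * Real.exp (Y / 4)) * (61 / 10) ^ k +
          P / 18 * ((61 / 10) ^ k * Real.exp (Y / 4)) := by linarith
      _ = P * ((10 / 9) * ((61 / 10) ^ k * Real.exp (Y / 4))) := by ring
  have hmain2 : Real.exp Y ≤ (10 / 9) * ((61 / 10) ^ k * Real.exp (Y / 4)) :=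
    le_of_mul_le_mul_left hmain hP
  have hc1 : (10 / 9 : ℝ) ≤ Real.exp (3 / 16) := by
    have := Real.add_one_le_exp (3 / 16 : ℝ)
    linarith
  have hc2 : (61 / 10 : ℝ) ≤ Real.exp (363 / 200) := by
    have := Real.sum_le_exp_of_nonneg (x := (363 / 200 : ℝ)) (by norm_num) 8
    refine le_trans ?_ this
    simp only [Finset.sum_range_succ, Finset.sum_range_zero, Nat.factorial]
    norm_num
  have hfin : Real.exp Y ≤ Real.exp (3 / 16 + (k : ℝ) * (363 / 200) + Y / 4) := by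
    rw [Real.exp_add, Real.exp_add, Real.exp_nat_mul]
    calc Real.exp Y ≤ (10 / 9) * ((61 / 10) ^ k * Real.exp (Y / 4)) := hmain2
      _ ≤ Real.exp (3 / 16) * (Real.exp (363 / 200) ^ k * Real.exp (Y / 4)) := by gcongr
      _ = _ := by ring
  have := Real.exp_le_exp.1 hfin
  linarith

end Pool.Agent.QAA
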