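import Mathlib
import Pool.Agent.QAA.Inf
import Pool.Agent.QAA.Coef
import Pool.Agent.QAA.SmallCore
import Pool.Agent.QAA.GPolyC
import Pool.Agent.QAA.GPolyJ
import Pool.Agent.QAA.KLlow

/-!
QAA module SMA: the coordinates with small bias carry little entropy.

Apply `small_core` to `G = Gp Q S b` with `Q = gs f w` (`0 ≤ Q ≤ 1`, `DegLE Q (2d)`),
`S = {a | |bw f w a| < β}`, `b = bw f w`, `P = Iw f w = ex Q`, `L = -log P`, `q = 8 d² β ≤ exp(-τ) ≤ 1/100`,
`lam = ∑_S b_a²`, `Y = yS = ∑_S KL b_a`, `k = ⌊(L+3)/τ⌋₊`.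
* `coeff_bound` with `D = 2d`, `R = 1/β` (`|b a| R ≤ 1` on `S`; `Gp_abs_le`): `2 (2d)²/R = 8 d² β`,
  `|G_j| ≤ q^j/j! ≤ q^j`.
* `q^(k+1) ≤ exp(-τ (k+1)) ≤ exp(-(L+3)) = P exp(-3) ≤ P/19`, as `(k+1) τ ≥ L+3`.
* `him`: `Gp_norm_le`. `lam ≤ 2 Y`: `KL_ge`. `h1`: `Gp_one_ge` (`|b a| < β ≤ 1` on `S`).
So `Y ≤ 2.42 k + 1/4 ≤ 2.42 (L+3)/τ + 1/4 ≤ (5/2) L/τ + 1` as `τ ≥ 10`, `L ≥ 0`.
-/

set_option linter.dupNamespace false

namespace Pool.Agent.QAA

open Finset Polynomial Pool.Agent.Helper11.Cube Pool.Agent.Helper11.AA Pool.Agent.SUB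

variable {n d : ℕ}

theorem yS_le_small (hd : 1 ≤ d) {f : Cube n → ℝ} (hf : Bdd d f) (w : Fin n)
    (hP : 0 < Iw f w) {β τ : ℝ} (hβ : 0 < β) (hβτ : 8 * (d : ℝ) ^ 2 * β ≤ Real.exp (-τ))
    (hτ : 10 ≤ τ) :
    yS β f w ≤ 5 / 2 * (- Real.log (Iw f w)) / τ + 1 := by
  have hd' : (1 : ℝ) ≤ d := by exact_mod_cast hd
  set S : Finset (Fin n) := univ.filter (fun a => |bw f w a| < β) with hS
  set L : ℝ := - Real.log (Iw f w) with hL
  have hL0 : 0 ≤ L := by
    have := Real.log_nonpos hP.le (Iw_le_one hf w)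
    rw [hL]; linarith
  have hτ0 : 0 < τ := by linarith
  set q : ℝ := 8 * (d : ℝ) ^ 2 * β with hq
  have hq0 : 0 ≤ q := by rw [hq]; positivity
  have hexp10 : Real.exp (-τ) ≤ 1 / 100 := by
    have h1 : Real.exp (-τ) ≤ Real.exp (-10) := Real.exp_le_exp.2 (by linarith)
    have h2 : (100 : ℝ) ≤ Real.exp 10 := by
      have h3 := Real.sum_le_exp_of_nonneg (x := (10 : ℝ)) (by norm_num) 4
      refine le_trans ?_ h3
      simp only [Finset.sum_range_succ, Finset.sum_range_zero, Nat.factorial]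
      norm_num
    refine h1.trans ?_
    rw [Real.exp_neg, one_div]
    exact inv_anti₀ (by norm_num) h2
  have hq1 : q ≤ 1 / 100 := hβτ.trans hexp10
  have hβ1 : β < 1 := by nlinarith
  set k : ℕ := ⌊(L + 3) / τ⌋₊ with hk
  have hkle : (k : ℝ) ≤ (L + 3) / τ := Nat.floor_le (by positivity)
  have hklt : (L + 3) / τ < (k : ℝ) + 1 := Nat.lt_floor_add_one _
  have hcoef : ∀ j, |(Gp (gs f w) S (bw f w)).coeff j| ≤ q ^ j := by
    intro j
    have h1 := coeff_bound (D := 2 * d) (P := Gp (gs f w) S (bw f w)) (R := 1 / β)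
      (by positivity) (degree_le_of_natDegree_le (Gp_natDegree (degLE_gs hf w) S (bw f w)))
      (fun x hx => Gp_abs_le (gs_nonneg f w) (gs_le_one hf w) S (bw f w) (R := 1 / β)
        (by
          intro a ha
          rw [hS, Finset.mem_filter] at ha
          rw [mul_one_div, div_le_one hβ]
          exact ha.2.le) x hx) j
    have h2 : (2 * ((2 * d : ℕ) : ℝ) ^ 2 / (1 / β)) = q := by
      rw [hq]; push_cast; field_simp; ring
    rw [h2] at h1
    refine h1.trans ?_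
    apply div_le_self (by positivity)
    exact_mod_cast Nat.succ_le_of_lt (Nat.factorial_pos j)
  have hqk : q ^ (k + 1) ≤ Iw f w / 19 := by
    have h1 : q ^ (k + 1) ≤ Real.exp (-τ) ^ (k + 1) := by gcongr
    have h2 : Real.exp (-τ) ^ (k + 1) = Real.exp (((k + 1 : ℕ) : ℝ) * (-τ)) := by
      rw [Real.exp_nat_mul]
    have h3 : Real.exp (((k + 1 : ℕ) : ℝ) * (-τ)) ≤ Real.exp (-L - 3) := by
      apply Real.exp_le_exp.2
      push_cast
      rw [div_lt_iff₀ hτ0] at hklt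
      nlinarith
    have h4 : Real.exp (-L - 3) = Iw f w * Real.exp (-3) := by
      rw [hL, neg_neg, Real.exp_sub, Real.exp_log hP, Real.exp_neg, div_eq_mul_inv]
    have h5 : Real.exp (-3) ≤ 1 / 19 := by
      have h6 : (19 : ℝ) ≤ Real.exp 3 := by
        have h7 := Real.sum_le_exp_of_nonneg (x := (3 : ℝ)) (by norm_num) 8
        refine le_trans ?_ h7
        simp only [Finset.sum_range_succ, Finset.sum_range_zero, Nat.factorial]
        norm_num
      rw [Real.exp_neg, one_div]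
      exact inv_anti₀ (by norm_num) h6
    calc q ^ (k + 1) ≤ Iw f w * Real.exp (-3) := by
          rw [← h4]; exact h1.trans (h2.le.trans h3)
      _ ≤ Iw f w * (1 / 19) := mul_le_mul_of_nonneg_left h5 hP.le
      _ = Iw f w / 19 := by ring
  have hlam0 : 0 ≤ ∑ a ∈ S, bw f w a ^ 2 := Finset.sum_nonneg fun a _ => sq_nonneg _
  have hlam : ∑ a ∈ S, bw f w a ^ 2 ≤ 2 * yS β f w := by
    rw [yS, Finset.mul_sum]
    apply Finset.sum_le_sum
    intro a _
    have := KL_ge (abs_bw_le f w a)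
    linarith
  have hmain := small_core (G := Gp (gs f w) S (bw f w)) (P := Iw f w) (q := q)
    (lam := ∑ a ∈ S, bw f w a ^ 2) (Y := yS β f w) (k := k) hP hq0 hq1 hcoef hqk
    (fun θ _ => Gp_norm_le (gs_nonneg f w) S (bw f w) θ) hlam0 hlam
    (Gp_one_ge (gs_nonneg f w) hP S (bw f w) (fun a _ => rfl) (by
      intro a ha
      rw [hS, Finset.mem_filter] at ha
      exact ha.2.trans hβ1))
  have h7 : (L + 3) / τ = L / τ + 3 / τ := add_div _ _ _
  have h8 : 3 / τ ≤ 3 / 10 := by gcongr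
  have h9 : 0 ≤ L / τ := by positivity
  calc yS β f w ≤ 242 / 100 * k + 1 / 4 := hmain
    _ ≤ 242 / 100 * (L / τ + 3 / 10) + 1 / 4 := by
        have : (k : ℝ) ≤ L / τ + 3 / 10 := by linarith
        linarith
    _ ≤ 5 / 2 * (L / τ) + 1 := by linarith
    _ = 5 / 2 * L / τ + 1 := by rw [mul_div_assoc]

end Pool.Agent.QAA
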