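import Mathlib
import Pool.Agent.QAA.Small

/-!
QAA module LOS: the local inequality for the coordinates with small bias.

Terms with `I = Iw f w = 0` vanish; let `L = -log I ≥ 0`. `γ (1+γ) ≤ 2 γ`.
If `γ L ≤ Y`: by `yS_le_small` `γ(1+γ) yS ≤ 2 γ (5/2 L/τ + 1) = 5 (γ L)/τ + 2 γ ≤ 5 Y/τ + 2 γ`
(`yS ≥ 0`). If `γ L > Y`: `yS ≤ L` (`yS_le`), so the term is
`≤ 2 I^(1+γ) γ L ≤ 2 I exp(-γ L/2) ≤ 2 I exp(-Y/2)` (`rpow_term_le`); sum `≤ 4 d^2 exp(-Y/2)`.
-/

set_option linter.dupNamespace false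

namespace Pool.Agent.QAA

open Finset Pool.Agent.Helper11.Cube Pool.Agent.Helper11.AA Pool.Agent.SUB

variable {n d : ℕ}

theorem local_small (hd : 1 ≤ d) {f : Cube n → ℝ} (hf : Bdd d f) {β τ : ℝ} (hβ : 0 < β)
    (hβτ : 8 * (d : ℝ) ^ 2 * β ≤ Real.exp (-τ)) (hτ : 10 ≤ τ) {γ Y : ℝ} (hγ : 0 < γ)
    (hγ1 : γ ≤ 1) (hY : 0 ≤ Y) :
    ∑ w, Iw f w ^ (1 + γ) * (γ * (1 + γ) * yS β f w)
      ≤ (5 * Y / τ + 2 * γ) * Fi γ f + 4 * (d : ℝ) ^ 2 * Real.exp (-(Y / 2)) := by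
  have hτ0 : 0 < τ := by linarith
  have hpoint : ∀ w ∈ (univ : Finset (Fin n)), Iw f w ^ (1 + γ) * (γ * (1 + γ) * yS β f w)
      ≤ (5 * Y / τ + 2 * γ) * Iw f w ^ (1 + γ) + 2 * Real.exp (-(Y / 2)) * Iw f w := by
    intro w _
    have hpw : 0 ≤ Iw f w ^ (1 + γ) := Real.rpow_nonneg (Iw_nonneg f w) _
    have hb0 : 0 ≤ 2 * Real.exp (-(Y / 2)) * Iw f w :=
      mul_nonneg (by positivity) (Iw_nonneg f w)
    have ha0 : 0 ≤ (5 * Y / τ + 2 * γ) * Iw f w ^ (1 + γ) := mul_nonneg (by positivity) hpw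
    rcases (Iw_nonneg f w).eq_or_lt with h0 | hP
    · have e : Iw f w ^ (1 + γ) = 0 := by rw [← h0, Real.zero_rpow (by linarith)]
      rw [e, zero_mul, mul_zero]
      linarith
    · set L : ℝ := - Real.log (Iw f w) with hL
      have hL0 : 0 ≤ L := by
        have := Real.log_nonpos (Iw_nonneg f w) (Iw_le_one hf w)
        rw [hL]
        linarith
      have hy0 := yS_nonneg β f w
      have hg : γ * (1 + γ) ≤ 2 * γ := by nlinarith
      have hgy : γ * (1 + γ) * yS β f w ≤ 2 * γ * yS β f w := mul_le_mul_of_nonneg_right hg hy0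
      by_cases h1 : γ * L ≤ Y
      · have h2 := yS_le_small hd hf w hP hβ hβτ hτ
        rw [← hL] at h2
        have h3 : γ * (1 + γ) * yS β f w ≤ 5 * Y / τ + 2 * γ := by
          have h4 : 2 * γ * yS β f w ≤ 2 * γ * (5 / 2 * L / τ + 1) :=
            mul_le_mul_of_nonneg_left h2 (by positivity)
          have h5 : 2 * γ * (5 / 2 * L / τ + 1) = 5 * (γ * L) / τ + 2 * γ := by
            field_simp
          have h6 : 5 * (γ * L) / τ ≤ 5 * Y / τ :=
            div_le_div_of_nonneg_right (by linarith) hτ0.le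
          linarith
        have h7 := mul_le_mul_of_nonneg_left h3 hpw
        linarith
      · push Not at h1
        have h2 : yS β f w ≤ L := yS_le hf β w hP
        have h4 := rpow_term_le w hP hγ.le hL0
        rw [← hL] at h4
        have h3 : γ * (1 + γ) * yS β f w ≤ 2 * γ * L :=
          hgy.trans (mul_le_mul_of_nonneg_left h2 (by positivity))
        have h6 : Iw f w * Real.exp (-(γ * L / 2)) ≤ Iw f w * Real.exp (-(Y / 2)) :=
          mul_le_mul_of_nonneg_left (Real.exp_le_exp.mpr (by linarith)) hP.le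
        have h7 : Iw f w ^ (1 + γ) * (γ * (1 + γ) * yS β f w)
            ≤ 2 * Real.exp (-(Y / 2)) * Iw f w := by
          calc _ ≤ Iw f w ^ (1 + γ) * (2 * γ * L) := mul_le_mul_of_nonneg_left h3 hpw
            _ = 2 * (Iw f w ^ (1 + γ) * (γ * L)) := by ring
            _ ≤ 2 * (Iw f w * Real.exp (-(Y / 2))) := by linarith
            _ = 2 * Real.exp (-(Y / 2)) * Iw f w := by ring
        linarith
  have hsum := Finset.sum_le_sum hpoint
  rw [Finset.sum_add_distrib, ← Finset.mul_sum, ← Finset.mul_sum] at hsum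
  have s2 : 2 * Real.exp (-(Y / 2)) * ∑ w, Iw f w ≤ 4 * (d : ℝ) ^ 2 * Real.exp (-(Y / 2)) := by
    have h1 := sum_Iw_le hf (univ : Finset (Fin n))
    have h2 := mul_le_mul_of_nonneg_left h1 (show 0 ≤ 2 * Real.exp (-(Y / 2)) by positivity)
    linarith
  have s1 : (5 * Y / τ + 2 * γ) * ∑ w, Iw f w ^ (1 + γ) = (5 * Y / τ + 2 * γ) * Fi γ f := rfl
  rw [s1] at hsum
  linarith

end Pool.Agent.QAA
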