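import Mathlib
import Pool.Agent.QAA.LocalL
import Pool.Agent.QAA.LocalS

/-!
QAA module LOC: the local inequality. `phi γ b ≤ γ (1+γ) KL b` (`phi_le`, `abs_bw_le`),
`∑_a KL (bw f w a) = yL + yS` (`yL_add_yS`); add `local_large` and `local_small`.
-/

set_option linter.dupNamespace false

namespace Pool.Agent.QAA

open Finset Pool.Agent.Helper11.Cube Pool.Agent.Helper11.AA Pool.Agent.SUB

variable {n d : ℕ}

/-- The growth rate. -/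
noncomputable def kap (d : ℕ) (β γ Y τ : ℝ) (K1 : ℕ) : ℝ :=
  2 * γ * Y + 2 * γ * ((K1 : ℝ) + 1) ^ 2 * (4 * (d : ℝ) / β ^ 2) ^ 2 * Real.exp (-(γ * Y / 2))
    + (5 * Y / τ + 2 * γ)

/-- The additive error. -/
noncomputable def Eer (d : ℕ) (β γ Y : ℝ) (K1 : ℕ) : ℝ :=
  (2 * γ * ((K1 : ℝ) + 1) ^ 2 * BB d β K1 + 8 * (d : ℝ) ^ 2) * Real.exp (-(Y / 2))

theorem local_ineq (hd : 1 ≤ d) {f : Cube n → ℝ} (hf : Bdd d f) {β τ : ℝ} (hβ : 0 < β)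
    (hβ1 : β ≤ 1) (hβτ : 8 * (d : ℝ) ^ 2 * β ≤ Real.exp (-τ)) (hτ : 10 ≤ τ) {γ Y : ℝ}
    (hγ : 0 < γ) (hγ1 : γ ≤ 1) (hY : 0 ≤ Y) (K1 : ℕ) (hK1 : Y ≤ γ * K1) :
    ∑ w, Iw f w ^ (1 + γ) * ∑ a, phi γ (bw f w a)
      ≤ kap d β γ Y τ K1 * Fi γ f + Eer d β γ Y K1 := by
  have h1 : ∑ w, Iw f w ^ (1 + γ) * ∑ a, phi γ (bw f w a)
      ≤ ∑ w, (Iw f w ^ (1 + γ) * (γ * (1 + γ) * yL β f w)
        + Iw f w ^ (1 + γ) * (γ * (1 + γ) * yS β f w)) := by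
    refine Finset.sum_le_sum fun w _ => ?_
    rw [← mul_add, ← mul_add, yL_add_yS]
    refine mul_le_mul_of_nonneg_left ?_ (Real.rpow_nonneg (Iw_nonneg f w) _)
    rw [Finset.mul_sum]
    exact Finset.sum_le_sum fun a _ => phi_le hγ.le hγ1 (abs_bw_le f w a)
  refine h1.trans ?_
  rw [Finset.sum_add_distrib]
  have h2 := local_large hd hf hβ hβ1 hγ hγ1 hY K1 hK1
  have h3 := local_small hd hf hβ hβτ hτ hγ hγ1 hY
  refine (add_le_add h2 h3).trans (le_of_eq ?_)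
  rw [kap, Eer]
  ring

end Pool.Agent.QAA
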