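import Mathlib
import Pool.Agent.QAA.Local

/-!
QAA module PAD: the parameters and their elementary properties.

`l = pl d V = log (2d/V) ≥ log 2 > 0.69`, `d ≤ exp(l)/2`, `1/V ≤ exp(l)/2` (since `2d ≥ 2`, `V ≤ 1`),
`β = exp(-80 l)/(8 d²)`, `γ = 1/(16 l)`, `Y = 32768 l²`, `τ = 80 l`, `K1 = ⌈Y/γ⌉₊ ≤ 16 l Y + 1 = 524288 l³ + 1`.
`l³ ≤ 6 exp l`, so `K1 + 2 ≤ 3145731 exp l`. `1/β² = 64 d⁴ exp(160 l)`, `4d/β² = 256 d⁵ exp(160 l)`,
`γ Y/2 = 1024 l`.

`par_low`: `2γ log(16 d³/V) ≤ (1/(8l)) (log 2 + 3 l) ≤ 1/2` (`16 d³/V = 2 (2d)³/V ≤ 2 (2d/V)³`), so the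
power is `≥ exp(-1/2) ≥ 1/2`. `pK_bound`: as above.
-/

set_option linter.dupNamespace false

namespace Pool.Agent.QAA

/-- `log (2d/V)`. -/
noncomputable def pl (d : ℕ) (V : ℝ) : ℝ := Real.log (2 * (d : ℝ) / V)
/-- The bias threshold. -/
noncomputable def pb (d : ℕ) (V : ℝ) : ℝ := Real.exp (-(80 * pl d V)) / (8 * (d : ℝ) ^ 2)
/-- The exponent. -/
noncomputable def pg (d : ℕ) (V : ℝ) : ℝ := 1 / (16 * pl d V)
/-- The allowed rate. -/
noncomputable def pY (d : ℕ) (V : ℝ) : ℝ := 32768 * pl d V ^ 2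
/-- The number of shells. -/
noncomputable def pK (d : ℕ) (V : ℝ) : ℕ := ⌈pY d V / pg d V⌉₊

variable {d : ℕ} {V : ℝ}

private lemma quot_pos (hd : 1 ≤ d) (hV : 0 < V) : 0 < 2 * (d : ℝ) / V := by
  have : (1 : ℝ) ≤ d := by exact_mod_cast hd
  positivity

lemma pl_ge (hd : 1 ≤ d) (hV : 0 < V) (hV1 : V ≤ 1) : Real.log 2 ≤ pl d V := by
  have h1 : (1 : ℝ) ≤ d := by exact_mod_cast hd
  unfold pl
  apply Real.log_le_log (by norm_num)
  rw [le_div_iff₀ hV]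
  nlinarith

lemma pl_ge' (hd : 1 ≤ d) (hV : 0 < V) (hV1 : V ≤ 1) : Real.log (2 * d) ≤ pl d V := by
  have h1 : (1 : ℝ) ≤ d := by exact_mod_cast hd
  unfold pl
  apply Real.log_le_log (by linarith)
  rw [le_div_iff₀ hV]
  nlinarith

private lemma pl_gt (hd : 1 ≤ d) (hV : 0 < V) (hV1 : V ≤ 1) : 0.69 < pl d V := by
  have h1 := pl_ge hd hV hV1
  have h2 := Real.log_two_gt_d9
  linarith

lemma pb_pos (hd : 1 ≤ d) : 0 < pb d V := by
  have h1 : (1 : ℝ) ≤ d := by exact_mod_cast hd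
  unfold pb
  have := Real.exp_pos (-(80 * pl d V))
  positivity

lemma pb_le_one (hd : 1 ≤ d) (hV : 0 < V) (hV1 : V ≤ 1) : pb d V ≤ 1 := by
  have h1 : (1 : ℝ) ≤ d := by exact_mod_cast hd
  have h2 := pl_gt hd hV hV1
  unfold pb
  rw [div_le_one (by positivity)]
  have h3 : Real.exp (-(80 * pl d V)) ≤ 1 := by
    rw [Real.exp_le_one_iff]; linarith
  nlinarith

lemma pb_tau (hd : 1 ≤ d) : 8 * (d : ℝ) ^ 2 * pb d V ≤ Real.exp (-(80 * pl d V)) := by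
  have h1 : (1 : ℝ) ≤ d := by exact_mod_cast hd
  unfold pb
  rw [mul_div_cancel₀ _ (by positivity)]

lemma pg_pos (hd : 1 ≤ d) (hV : 0 < V) (hV1 : V ≤ 1) : 0 < pg d V := by
  have h2 := pl_gt hd hV hV1
  unfold pg
  have : 0 < pl d V := by linarith
  positivity

lemma pg_le_one (hd : 1 ≤ d) (hV : 0 < V) (hV1 : V ≤ 1) : pg d V ≤ 1 := by
  have h2 := pl_gt hd hV hV1
  unfold pg
  rw [div_le_one (by linarith)]
  linarith

lemma pK_ge (hd : 1 ≤ d) (hV : 0 < V) (hV1 : V ≤ 1) : pY d V ≤ pg d V * pK d V := by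
  have h1 := pg_pos hd hV hV1
  unfold pK
  have h2 : pY d V / pg d V ≤ (⌈pY d V / pg d V⌉₊ : ℝ) := Nat.le_ceil _
  rw [div_le_iff₀ h1] at h2
  linarith

lemma two_d_le (hd : 1 ≤ d) (hV : 0 < V) (hV1 : V ≤ 1) : 2 * (d : ℝ) ≤ Real.exp (pl d V) := by
  have h1 : (1 : ℝ) ≤ d := by exact_mod_cast hd
  unfold pl
  rw [Real.exp_log (quot_pos hd hV), le_div_iff₀ hV]
  nlinarith

lemma inv_V_le (hd : 1 ≤ d) (hV : 0 < V) (hV1 : V ≤ 1) : 2 * Real.exp (-(pl d V)) ≤ V := by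
  have h1 : (1 : ℝ) ≤ d := by exact_mod_cast hd
  unfold pl
  rw [Real.exp_neg, Real.exp_log (quot_pos hd hV), inv_div, mul_div_assoc', div_le_iff₀ (by linarith)]
  nlinarith

lemma pK_bound (hd : 1 ≤ d) (hV : 0 < V) (hV1 : V ≤ 1) :
    (pK d V : ℝ) + 2 ≤ 3145731 * Real.exp (pl d V) := by
  have h2 := pl_gt hd hV hV1
  have h3 : pY d V / pg d V = 524288 * pl d V ^ 3 := by
    unfold pY pg
    have : pl d V ≠ 0 := by linarith
    field_simp
    norm_num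
  have h4 : (pK d V : ℝ) < pY d V / pg d V + 1 := by
    unfold pK
    apply Nat.ceil_lt_add_one
    rw [h3]
    have : 0 < pl d V := by linarith
    positivity
  rw [h3] at h4
  have h5 : pl d V ^ 3 / 6 ≤ Real.exp (pl d V) := by
    have := Real.pow_div_factorial_le_exp (pl d V) (by linarith) 3
    norm_num [Nat.factorial] at this
    exact this
  have h6 : 1 ≤ Real.exp (pl d V) := Real.one_le_exp (by linarith)
  nlinarith

theorem par_low (hd : 1 ≤ d) (hV : 0 < V) (hV1 : V ≤ 1) :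
    1 / 2 ≤ (V / (16 * (d : ℝ) ^ 3)) ^ (2 * pg d V) := by
  have h1 : (1 : ℝ) ≤ d := by exact_mod_cast hd
  have h2 := pl_gt hd hV hV1
  have hpos : 0 < V / (16 * (d : ℝ) ^ 3) := by positivity
  have hinv : V / (16 * (d : ℝ) ^ 3) = (16 * (d : ℝ) ^ 3 / V)⁻¹ := by rw [inv_div]
  have hle : 16 * (d : ℝ) ^ 3 / V ≤ 2 * (2 * (d : ℝ) / V) ^ 3 := by
    rw [div_pow, mul_div_assoc', div_le_div_iff₀ hV (by positivity)]
    have : V ^ 3 ≤ V := by
      calc V ^ 3 = V * V ^ 2 := by ring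
        _ ≤ V * 1 := by
          apply mul_le_mul_of_nonneg_left _ hV.le
          nlinarith
        _ = V := mul_one _
    calc 16 * (d : ℝ) ^ 3 * V ^ 3 ≤ 16 * (d : ℝ) ^ 3 * V := by gcongr
      _ = 2 * (2 * (d : ℝ)) ^ 3 * V := by ring
  have hlog : Real.log (16 * (d : ℝ) ^ 3 / V) ≤ Real.log 2 + 3 * pl d V := by
    have h3 := Real.log_le_log (by positivity) hle
    rw [Real.log_mul (by norm_num) (pow_ne_zero 3 (quot_pos hd hV).ne'), Real.log_pow] at h3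
    unfold pl
    push_cast at h3
    exact h3
  rw [Real.rpow_def_of_pos hpos, hinv, Real.log_inv]
  have h4 : (2 * pg d V) * (Real.log 2 + 3 * pl d V) ≤ 1 / 2 := by
    unfold pg
    have h5 := pl_ge hd hV hV1
    rw [mul_one_div, div_mul_eq_mul_div, div_le_iff₀ (by linarith)]
    linarith
  have h6 : -(1 / 2) ≤ -Real.log (16 * (d : ℝ) ^ 3 / V) * (2 * pg d V) := by
    have h7 := pg_pos hd hV hV1
    nlinarith
  have h8 := Real.add_one_le_exp (-Real.log (16 * (d : ℝ) ^ 3 / V) * (2 * pg d V))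
  linarith

end Pool.Agent.QAA
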