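import Mathlib
import Pool.Agent.QAA.ParamD

/-!
QAA module PAE: the additive error is negligible.

`l = pl d V = log (2d/V) ≥ log 2 > 0.69`, `d ≤ exp(l)/2`, `1/V ≤ exp(l)/2` (since `2d ≥ 2`, `V ≤ 1`),
`β = exp(-80 l)/(8 d²)`, `γ = 1/(16 l)`, `Y = 32768 l²`, `τ = 80 l`, `K1 = ⌈Y/γ⌉₊ ≤ 16 l Y + 1 = 524288 l³ + 1`.
`l³ ≤ 6 exp l`, so `K1 + 2 ≤ 3145731 exp l`. `1/β² = 64 d⁴ exp(160 l)`, `4d/β² = 256 d⁵ exp(160 l)`,
`γ Y/2 = 1024 l`.

`u exp u ≤ 2 l d` for `u = log(2d)`. The left side is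
`≤ exp(Y/4) exp(-Y/2) * 2 l d * (2γ (K1+1)² BB + 8 d²)`, `2 γ l = 1/8`,
`BB = 2*10^7 d⁵ (K1+2)⁴ 64 d⁴ exp(160 l)`; so the factor after `exp(-Y/4)` is
`≤ 2d (1/8) (K1+2)^6 * 1.28*10^9 d⁹ exp(160 l) + 16 l d³ ≤ 10^60 exp(200 l) ≤ exp(140 + 200 l)`
(`(K1+2)^6 ≤ 10^39 exp(6 l)`, `d ≤ exp l`, `l ≤ exp l`; `10^60 ≤ exp 140`). `Y/4 = 8192 l² ≥ 5600 l`, and
`V ≥ 2 exp(-l)`; so the product is `≤ exp(140 + 200 l - 5600 l) ≤ 2 exp(-l)/16 ≤ V/16`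
(`5399 l ≥ 3700 ≥ 140 + log 8`).
-/

set_option linter.dupNamespace false

namespace Pool.Agent.QAA

variable {d : ℕ} {V : ℝ}

private lemma pE_exp (u : ℝ) (hu : 240 ≤ u) : (10 : ℝ) ^ 72 ≤ Real.exp u := by
  have h1 : (2 : ℝ) ≤ Real.exp 1 := by
    have := Real.add_one_le_exp (1 : ℝ)
    linarith
  calc (10 : ℝ) ^ 72 ≤ 2 ^ 240 := by norm_num
    _ ≤ (Real.exp 1) ^ 240 := by gcongr
    _ = Real.exp 240 := by rw [← Real.exp_nat_mul]; norm_num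
    _ ≤ Real.exp u := Real.exp_le_exp.mpr hu

theorem par_err (hd : 1 ≤ d) (hV : 0 < V) (hV1 : V ≤ 1) :
    Real.exp (pY d V / 4) * (Real.log (2 * d) * Real.exp (Real.log (2 * d))
      * Eer d (pb d V) (pg d V) (pY d V) (pK d V)) ≤ V / 16 := by
  have hd1 : (1 : ℝ) ≤ d := by exact_mod_cast hd
  have hl0 : 0.69 < pl d V := by
    have h1 := pl_ge hd hV hV1
    have h2 := Real.log_two_gt_d9
    linarith
  have hL := pl_ge' hd hV hV1
  have hK := pK_bound hd hV hV1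
  have h2d := two_d_le hd hV hV1
  have hg := pg_pos hd hV hV1
  have hb := pb_pos (V := V) hd
  have hVl := inv_V_le hd hV hV1
  set l : ℝ := pl d V with hl
  have hlpos : 0 < l := by linarith
  have hY : pY d V = 32768 * l ^ 2 := rfl
  have hgl : pg d V = 1 / (16 * l) := rfl
  have hgl2 : pg d V * l = 1 / 16 := by rw [hgl]; field_simp
  set K : ℝ := (pK d V : ℝ) with hKdef
  have hK0 : 0 ≤ K := Nat.cast_nonneg _
  set x : ℝ := Real.exp l with hx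
  have hx0 : 0 < x := Real.exp_pos _
  have hx1 : 1 ≤ x := Real.one_le_exp hlpos.le
  have hdx : (d : ℝ) ≤ x / 2 := by linarith
  have hlx : l ≤ x := by
    have := Real.add_one_le_exp l
    linarith
  have hlog0 : 0 ≤ Real.log (2 * d) := Real.log_nonneg (by linarith)
  have hexpl : Real.exp (Real.log (2 * d)) = 2 * d := Real.exp_log (by linarith)
  have hbe : 1 / pb d V ^ 2 = 64 * (d : ℝ) ^ 4 * x ^ 160 := by
    have h1 : pb d V = Real.exp (-(80 * l)) / (8 * (d : ℝ) ^ 2) := rfl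
    have h2 : Real.exp (-(80 * l)) ^ 2 * x ^ 160 = 1 := by
      rw [hx, ← Real.exp_nat_mul, ← Real.exp_nat_mul, ← Real.exp_add, Real.exp_eq_one_iff]
      push_cast; ring
    have h3 : 0 < Real.exp (-(80 * l)) := Real.exp_pos _
    rw [h1, div_pow, one_div_div, div_eq_iff (by positivity)]
    calc (8 * (d : ℝ) ^ 2) ^ 2 = 64 * (d : ℝ) ^ 4 * 1 := by ring
      _ = 64 * (d : ℝ) ^ 4 * (Real.exp (-(80 * l)) ^ 2 * x ^ 160) := by rw [h2]
      _ = _ := by ring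
  have hBB : BB d (pb d V) (pK d V) = 20000000 * (d : ℝ) ^ 5 * (K + 2) ^ 4 * (64 * (d : ℝ) ^ 4 * x ^ 160) := by
    unfold BB
    rw [← hbe]
    ring
  have hBB0 : 0 ≤ BB d (pb d V) (pK d V) := by rw [hBB]; positivity
  -- the factor
  have hfac : l * (2 * d) * (2 * pg d V * (K + 1) ^ 2 * BB d (pb d V) (pK d V) + 8 * (d : ℝ) ^ 2)
      ≤ 10 ^ 60 * x ^ 200 := by
    have e1 : l * (2 * d) * (2 * pg d V * (K + 1) ^ 2 * BB d (pb d V) (pK d V) + 8 * (d : ℝ) ^ 2) =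
        2 * (pg d V * l) * (2 * d) * ((K + 1) ^ 2 * BB d (pb d V) (pK d V)) + 16 * l * (d : ℝ) ^ 3 := by
      ring
    rw [e1, hgl2, hBB]
    have hK1 : K + 1 ≤ 3145731 * x := by linarith
    calc 2 * (1 / 16) * (2 * d) * ((K + 1) ^ 2 * (20000000 * (d : ℝ) ^ 5 * (K + 2) ^ 4 *
          (64 * (d : ℝ) ^ 4 * x ^ 160))) + 16 * l * (d : ℝ) ^ 3
        ≤ 2 * (1 / 16) * (2 * (x / 2)) * ((3145731 * x) ^ 2 * (20000000 * (x / 2) ^ 5 *
          (3145731 * x) ^ 4 * (64 * (x / 2) ^ 4 * x ^ 160))) + 16 * x * (x / 2) ^ 3 := by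
          gcongr
      _ = (1 / 8 * 3145731 ^ 6 * 20000000 * 64 / 2 ^ 9) * x ^ 176 + 2 * x ^ 4 := by ring
      _ ≤ (1 / 8 * 3145731 ^ 6 * 20000000 * 64 / 2 ^ 9) * x ^ 200 + 2 * x ^ 200 := by
          gcongr <;> first | exact hx1 | norm_num
      _ = (1 / 8 * 3145731 ^ 6 * 20000000 * 64 / 2 ^ 9 + 2) * x ^ 200 := by ring
      _ ≤ 10 ^ 60 * x ^ 200 := by
          gcongr
          norm_num
  have hEer0 : 0 ≤ Eer d (pb d V) (pg d V) (pY d V) (pK d V) := by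
    unfold Eer
    positivity
  have hexpY : Real.exp (pY d V / 4) * Real.exp (-(pY d V / 2)) ≤ (x ^ 5600)⁻¹ := by
    rw [← Real.exp_add, hx, ← Real.exp_nat_mul, ← Real.exp_neg]
    apply Real.exp_le_exp.mpr
    rw [hY]
    push_cast
    nlinarith
  have hbig : (10 : ℝ) ^ 72 ≤ x ^ 5000 := by
    rw [hx, ← Real.exp_nat_mul]
    apply pE_exp
    push_cast
    linarith
  have hVx : 2 * x⁻¹ ≤ V := by rw [hx, ← Real.exp_neg]; exact hVl
  calc Real.exp (pY d V / 4) * (Real.log (2 * d) * Real.exp (Real.log (2 * d))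
        * Eer d (pb d V) (pg d V) (pY d V) (pK d V))
      ≤ Real.exp (pY d V / 4) * (l * (2 * d) * Eer d (pb d V) (pg d V) (pY d V) (pK d V)) := by
        rw [hexpl]
        gcongr
    _ = (Real.exp (pY d V / 4) * Real.exp (-(pY d V / 2))) * (l * (2 * d) *
          (2 * pg d V * (K + 1) ^ 2 * BB d (pb d V) (pK d V) + 8 * (d : ℝ) ^ 2)) := by
        unfold Eer
        ring
    _ ≤ (x ^ 5600)⁻¹ * (10 ^ 60 * x ^ 200) := by gcongr
    _ = 10 ^ 60 * (x ^ 5400)⁻¹ := by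
        have : x ≠ 0 := hx0.ne'
        field_simp
    _ ≤ 10 ^ 60 * ((x ^ 5000)⁻¹ * x⁻¹) := by
        have h1 : (x ^ 5400)⁻¹ ≤ (x ^ 5001)⁻¹ := by
          gcongr ?_⁻¹
          exact pow_le_pow_right₀ hx1 (by norm_num)
        have h2 : (x ^ 5001)⁻¹ = (x ^ 5000)⁻¹ * x⁻¹ := by
          rw [← mul_inv, ← pow_succ]
        rw [← h2]
        gcongr
    _ ≤ 10 ^ 60 * (((10 : ℝ) ^ 72)⁻¹ * x⁻¹) := by gcongr
    _ ≤ 2 * x⁻¹ / 16 := by
        have : 0 < x⁻¹ := by positivity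
        have h3 : (10 : ℝ) ^ 60 * ((10 : ℝ) ^ 72)⁻¹ ≤ 2 / 16 := by norm_num
        nlinarith
    _ ≤ V / 16 := by linarith

end Pool.Agent.QAA
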