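import Mathlib
import Pool.Agent.QAA.ParamD

/-!
QAA module PAK: the total growth exponent.

`l = pl d V = log (2d/V) ≥ log 2 > 0.69`, `d ≤ exp(l)/2`, `1/V ≤ exp(l)/2` (since `2d ≥ 2`, `V ≤ 1`),
`β = exp(-80 l)/(8 d²)`, `γ = 1/(16 l)`, `Y = 32768 l²`, `τ = 80 l`, `K1 = ⌈Y/γ⌉₊ ≤ 16 l Y + 1 = 524288 l³ + 1`.
`l³ ≤ 6 exp l`, so `K1 + 2 ≤ 3145731 exp l`. `1/β² = 64 d⁴ exp(160 l)`, `4d/β² = 256 d⁵ exp(160 l)`,
`γ Y/2 = 1024 l`.

`κ log(2d) ≤ κ l` (`κ ≥ 0`, `pl_ge'`), and `2γY l = Y/8`, `(5Y/τ) l = Y/16`, `2γ l = 1/8`,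
`l * 2γ (K1+1)² (4d/β²)² exp(-1024 l) = (1/8)(K1+1)² (256 d⁵)² exp(320 l - 1024 l)
≤ (1/8) (3145731 exp l)² * 65536 * (exp(10 l)/1024) exp(-704 l) ≤ 10^14 exp(-692 l) ≤ 1` as
`692 l ≥ 692 * 0.69 = 477`. Total `≤ Y/8 + 1 + Y/16 + 1/8 ≤ Y/4` because `Y ≥ 32768 * 0.47 ≥ 15000`.
-/

set_option linter.dupNamespace false

namespace Pool.Agent.QAA

variable {d : ℕ} {V : ℝ}

private lemma pK_exp (u : ℝ) (hu : 60 ≤ u) : (10 : ℝ) ^ 18 ≤ Real.exp u := by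
  have h1 : (2 : ℝ) ≤ Real.exp 1 := by
    have := Real.add_one_le_exp (1 : ℝ)
    linarith
  calc (10 : ℝ) ^ 18 ≤ 2 ^ 60 := by norm_num
    _ ≤ (Real.exp 1) ^ 60 := by gcongr
    _ = Real.exp 60 := by rw [← Real.exp_nat_mul]; norm_num
    _ ≤ Real.exp u := Real.exp_le_exp.mpr hu

theorem par_kap (hd : 1 ≤ d) (hV : 0 < V) (hV1 : V ≤ 1) :
    kap d (pb d V) (pg d V) (pY d V) (80 * pl d V) (pK d V) * Real.log (2 * d) ≤ pY d V / 4 := by
  have hd1 : (1 : ℝ) ≤ d := by exact_mod_cast hd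
  have hl0 : 0.69 < pl d V := by
    have h1 := pl_ge hd hV hV1
    have h2 := Real.log_two_gt_d9
    linarith
  have hL := pl_ge' hd hV hV1
  have hK := pK_bound hd hV hV1
  have h2d := two_d_le hd hV hV1
  have hg := pg_pos hd hV hV1
  have hb := pb_pos (V := V) hd
  set l : ℝ := pl d V with hl
  have hlpos : 0 < l := by linarith
  have hY : pY d V = 32768 * l ^ 2 := rfl
  have hgl : pg d V = 1 / (16 * l) := rfl
  have hgl2 : pg d V * l = 1 / 16 := by rw [hgl]; field_simp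
  have hgY : pg d V * pY d V / 2 = 1024 * l := by
    rw [hgl, hY]; field_simp; norm_num
  set K : ℝ := (pK d V : ℝ) with hKdef
  have hK0 : 0 ≤ K := Nat.cast_nonneg _
  have hK1 : K + 1 ≤ 3145731 * Real.exp l := by linarith
  -- the quotient `4 d / β ^ 2`
  have hbe : 4 * (d : ℝ) / pb d V ^ 2 = 256 * (d : ℝ) ^ 5 * Real.exp (160 * l) := by
    have h1 : pb d V = Real.exp (-(80 * l)) / (8 * (d : ℝ) ^ 2) := rfl
    have h2 : Real.exp (-(80 * l)) ^ 2 * Real.exp (160 * l) = 1 := by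
      rw [← Real.exp_nat_mul, ← Real.exp_add, Real.exp_eq_one_iff]
      push_cast; ring
    have h3 : 0 < Real.exp (-(80 * l)) := Real.exp_pos _
    rw [h1, div_pow, div_div_eq_mul_div, div_eq_iff (by positivity)]
    calc 4 * (d : ℝ) * (8 * (d : ℝ) ^ 2) ^ 2 = 256 * (d : ℝ) ^ 5 * 1 := by ring
      _ = 256 * (d : ℝ) ^ 5 * (Real.exp (-(80 * l)) ^ 2 * Real.exp (160 * l)) := by rw [h2]
      _ = _ := by ring
  have hkap0 : 0 ≤ kap d (pb d V) (pg d V) (pY d V) (80 * l) (pK d V) := by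
    unfold kap
    have hY0 : 0 ≤ pY d V := by rw [hY]; positivity
    positivity
  have hmid : (K + 1) ^ 2 * (4 * (d : ℝ) / pb d V ^ 2) ^ 2 * Real.exp (-(1024 * l)) ≤ 8 := by
    rw [hbe]
    set x : ℝ := Real.exp l with hx
    have hx0 : 0 < x := Real.exp_pos _
    have hdx : (d : ℝ) ≤ x / 2 := by linarith
    have e1 : Real.exp (160 * l) = x ^ 160 := by
      rw [hx, ← Real.exp_nat_mul]; norm_num
    have e2 : Real.exp (-(1024 * l)) = (x ^ 1024)⁻¹ := by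
      rw [hx, ← Real.exp_nat_mul, ← Real.exp_neg]; norm_num
    have e3 : (10 : ℝ) ^ 18 ≤ x ^ 692 := by
      rw [hx, ← Real.exp_nat_mul]
      apply pK_exp
      push_cast
      linarith
    rw [e1, e2]
    calc (K + 1) ^ 2 * (256 * (d : ℝ) ^ 5 * x ^ 160) ^ 2 * (x ^ 1024)⁻¹
        ≤ (3145731 * x) ^ 2 * (256 * (x / 2) ^ 5 * x ^ 160) ^ 2 * (x ^ 1024)⁻¹ := by gcongr
      _ = (3145731 ^ 2 * 64) * (x ^ 692)⁻¹ := by
          field_simp
          norm_num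
      _ ≤ (3145731 ^ 2 * 64) * ((10 : ℝ) ^ 18)⁻¹ := by gcongr
      _ ≤ 8 := by norm_num
  calc kap d (pb d V) (pg d V) (pY d V) (80 * l) (pK d V) * Real.log (2 * d)
      ≤ kap d (pb d V) (pg d V) (pY d V) (80 * l) (pK d V) * l :=
        mul_le_mul_of_nonneg_left hL hkap0
    _ = 2 * (pg d V * l) * pY d V +
        2 * (pg d V * l) * ((K + 1) ^ 2 * (4 * (d : ℝ) / pb d V ^ 2) ^ 2 * Real.exp (-(1024 * l)))
        + (pY d V / 16 + 2 * (pg d V * l)) := by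
        unfold kap
        rw [hgY]
        have : 5 * pY d V / (80 * l) * l = pY d V / 16 := by field_simp; ring
        rw [← this]
        ring
    _ ≤ pY d V / 8 + 1 + (pY d V / 16 + 1 / 8) := by
        rw [hgl2]
        linarith
    _ ≤ pY d V / 4 := by
        have : 18 ≤ pY d V := by rw [hY]; nlinarith
        linarith

end Pool.Agent.QAA
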