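import Mathlib
import Pool.Agent.QAA.Local
import Pool.Agent.QAA.Gron
import Pool.Agent.QAA.FinLow
import Pool.Agent.QAA.ParamK
import Pool.Agent.QAA.ParamE

/-!
QAA module MAI: the quasi-polynomial Aaronson-Ambainis bound.

`V = variance f ≤ 1`, `l = pl d V`, `β = pb`, `γ = pg`, `Y = pY`, `τ = 80 l ≥ 10`, `K1 = pK`,
`u = log (2d)`, `M = maxDerivNorm f`. `final_lower`, `par_low`: `V/8 ≤ Ps γ u f`. `Ps_growth` with
`local_ineq` (`κ = kap ..`, `E = Eer ..`, both `≥ 0`), `par_kap`: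
`Ps γ u f ≤ exp(Y/4) (Fi γ f + u exp u E)`. `par_err`: `V/16 ≤ exp(Y/4) Fi γ f`, `Fi_le`:
`V/16 ≤ exp(Y/4) 2 d² (M²)^γ`. So `(M²)^γ ≥ V/(32 d²) exp(-Y/4) ≥ exp(-Y/2)`, because
`32 d²/V = 8 (2d)²/V ≤ exp(3 + 2 l) ≤ exp(Y/4)`. Hence `M² ≥ exp(-Y/(2γ)) = exp(-8 l Y)` and
`M ≥ exp(-4 l Y) = exp(-131072 l³)`.
-/

set_option linter.dupNamespace false

namespace Pool.Agent.QAA

open Finset Pool.Agent.Helper11.Cube Pool.Agent.Helper11.AA Pool.Agent.SUB

variable {n d : ℕ}

theorem quasi_poly (hd : 1 ≤ d) {f : Cube n → ℝ} (hf : Bdd d f) (hV : 0 < variance f) :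
    Real.exp (-(131072 * Real.log (2 * (d : ℝ) / variance f) ^ 3)) ≤ maxDerivNorm f := by
  have hV1 := variance_le_one hf
  obtain ⟨V, hVd⟩ : ∃ V, V = variance f := ⟨_, rfl⟩
  rw [← hVd] at hV hV1 ⊢
  have hd1 : (1 : ℝ) ≤ d := by exact_mod_cast hd
  have hl := pl_ge (d := d) hd hV hV1
  have hlog2 : (0.69 : ℝ) < Real.log 2 := by
    have := Real.log_two_gt_d9
    linarith
  have hl0 : (0.69 : ℝ) < pl d V := by linarith
  have hlpos : 0 < pl d V := by linarith
  have hβ : 0 < pb d V := pb_pos hd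
  have hβ1 := pb_le_one (d := d) hd hV hV1
  have hγ := pg_pos (d := d) hd hV hV1
  have hγ1 := pg_le_one (d := d) hd hV hV1
  have hY : 0 ≤ pY d V := by unfold pY; positivity
  have hτ : (10 : ℝ) ≤ 80 * pl d V := by linarith
  have hu : 0 ≤ Real.log (2 * (d : ℝ)) := Real.log_nonneg (by linarith)
  have hκ : 0 ≤ kap d (pb d V) (pg d V) (pY d V) (80 * pl d V) (pK d V) := by
    unfold kap
    have h1 : 0 ≤ 5 * pY d V / (80 * pl d V) := by positivity
    positivity
  have hE : 0 ≤ Eer d (pb d V) (pg d V) (pY d V) (pK d V) := by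
    unfold Eer BB
    positivity
  have hlow := final_lower hd hf (by rw [← hVd]; exact hV) hγ.le
  rw [← hVd] at hlow
  have hlow2 := par_low (d := d) hd hV hV1
  have h1 : V / 8 ≤ Ps (pg d V) (Real.log (2 * d)) f := by
    refine le_trans ?_ hlow
    have : V / 4 * (1 / 2) ≤ V / 4 * (V / (16 * (d : ℝ) ^ 3)) ^ (2 * pg d V) :=
      mul_le_mul_of_nonneg_left hlow2 (by positivity)
    linarith
  have h2 := Ps_growth hf hγ.le hκ hE (fun g hg => local_ineq hd hg hβ hβ1 (pb_tau hd) hτ hγ hγ1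
    hY (pK d V) (pK_ge hd hV hV1)) hu
  have h3 : Real.exp (kap d (pb d V) (pg d V) (pY d V) (80 * pl d V) (pK d V) *
      Real.log (2 * (d : ℝ))) ≤ Real.exp (pY d V / 4) :=
    Real.exp_le_exp.2 (par_kap hd hV hV1)
  have h4 := par_err (d := d) hd hV hV1
  have hF0 : 0 ≤ Fi (pg d V) f := Fi_nonneg _ _
  have h5 : V / 8 ≤ Real.exp (pY d V / 4) * Fi (pg d V) f + V / 16 := by
    refine (h1.trans h2).trans ?_
    refine (mul_le_mul_of_nonneg_right h3 (by positivity)).trans ?_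
    rw [mul_add]
    linarith
  have h6 := Fi_le hf hγ.le
  have h7 : V / 16 ≤ Real.exp (pY d V / 4) *
      (2 * (d : ℝ) ^ 2 * (maxDerivNorm f ^ 2) ^ pg d V) := by
    have := mul_le_mul_of_nonneg_left h6 (Real.exp_pos (pY d V / 4)).le
    linarith
  have h8 : 32 * (d : ℝ) ^ 2 / V ≤ Real.exp (pY d V / 4) := by
    have h81 : Real.exp (pl d V) = 2 * (d : ℝ) / V := by
      unfold pl
      exact Real.exp_log (by positivity)
    have h82 : 32 * (d : ℝ) ^ 2 / V ≤ 8 * Real.exp (pl d V) ^ 2 := by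
      rw [h81, div_pow, ← mul_div_assoc, div_le_div_iff₀ hV (by positivity)]
      have : V ^ 2 ≤ V := by nlinarith
      nlinarith [mul_le_mul_of_nonneg_left this (by positivity : 0 ≤ 32 * (d : ℝ) ^ 2)]
    have h83 : (8 : ℝ) ≤ Real.exp 3 := by
      have h84 := Real.exp_one_gt_d9
      have h85 : Real.exp 3 = Real.exp 1 ^ 3 := by
        rw [← Real.exp_nat_mul]
        norm_num
      rw [h85]
      have h86 : (2 : ℝ) ^ 3 ≤ Real.exp 1 ^ 3 := pow_le_pow_left₀ (by norm_num) (by linarith) 3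
      linarith
    refine h82.trans ?_
    calc 8 * Real.exp (pl d V) ^ 2 ≤ Real.exp 3 * Real.exp (pl d V) ^ 2 :=
          mul_le_mul_of_nonneg_right h83 (by positivity)
      _ = Real.exp (3 + 2 * pl d V) := by
          rw [Real.exp_add, two_mul, Real.exp_add, sq]
      _ ≤ Real.exp (pY d V / 4) := by
          apply Real.exp_le_exp.2
          unfold pY
          nlinarith
  have h9 : Real.exp (-(pY d V / 2)) ≤ (maxDerivNorm f ^ 2) ^ pg d V := by
    have e1 : 0 < Real.exp (pY d V / 4) := Real.exp_pos _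
    have e2 : Real.exp (-(pY d V / 2)) * (Real.exp (pY d V / 4) * Real.exp (pY d V / 4)) = 1 := by
      rw [← Real.exp_add, ← Real.exp_add]
      have : -(pY d V / 2) + (pY d V / 4 + pY d V / 4) = 0 := by ring
      rw [this, Real.exp_zero]
    have e3 : 32 * (d : ℝ) ^ 2 ≤ Real.exp (pY d V / 4) * V := by
      rwa [div_le_iff₀ hV] at h8
    have e4 : V ≤ Real.exp (pY d V / 4) *
        (32 * (d : ℝ) ^ 2 * (maxDerivNorm f ^ 2) ^ pg d V) := by
      linarith
    have e5 : 0 ≤ (maxDerivNorm f ^ 2) ^ pg d V := by positivity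
    have e6 : V ≤ (Real.exp (pY d V / 4) * Real.exp (pY d V / 4)) *
        (maxDerivNorm f ^ 2) ^ pg d V * V := by
      refine e4.trans ?_
      have := mul_le_mul_of_nonneg_left (mul_le_mul_of_nonneg_right e3 e5) e1.le
      linarith
    have e7 : 1 ≤ (Real.exp (pY d V / 4) * Real.exp (pY d V / 4)) *
        (maxDerivNorm f ^ 2) ^ pg d V := by
      by_contra hcon
      push Not at hcon
      have := mul_lt_mul_of_pos_right hcon hV
      linarith
    calc Real.exp (-(pY d V / 2)) = Real.exp (-(pY d V / 2)) * 1 := (mul_one _).symm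
      _ ≤ Real.exp (-(pY d V / 2)) * ((Real.exp (pY d V / 4) * Real.exp (pY d V / 4)) *
            (maxDerivNorm f ^ 2) ^ pg d V) :=
          mul_le_mul_of_nonneg_left e7 (Real.exp_pos _).le
      _ = (maxDerivNorm f ^ 2) ^ pg d V := by
          rw [← mul_assoc, e2, one_mul]
  have hM := maxDerivNorm_nonneg f
  have h10 : Real.exp (-(pY d V / 2)) ^ (1 / pg d V) ≤ maxDerivNorm f ^ 2 := by
    have := Real.rpow_le_rpow (Real.exp_pos _).le h9 (by positivity : 0 ≤ 1 / pg d V)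
    rwa [← Real.rpow_mul (by positivity), mul_one_div_cancel hγ.ne', Real.rpow_one] at this
  rw [← Real.exp_mul] at h10
  have h11 : -(pY d V / 2) * (1 / pg d V) = -(131072 * pl d V ^ 3) + -(131072 * pl d V ^ 3) := by
    unfold pY pg
    rw [one_div_one_div]
    ring
  rw [h11, Real.exp_add, ← sq] at h10
  have h12 := (pow_le_pow_iff_left₀ (Real.exp_pos _).le hM two_ne_zero).1 h10
  exact h12

end Pool.Agent.QAA
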